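import Pool.Agent.W_5a2b73_h94.CdA

/-!
Constant coefficient vector fields `cd f = ∑ f_i ∂_i`.
Hints: `MvPolynomial.derivation_ext`, `MvPolynomial.derivation_eqOn_supported`,
`MvPolynomial.coeff_pderiv`, `IsWeightedHomogeneous.pderiv`, `pderiv_def`,
Lie bracket of derivations (`Derivation.commutator_apply`) for `cd_comm`, `Eul_cd`.
For `cd_eq_sum`: both sides are the values at `P` of derivations; compare on `supported` with the
set `P.vars`, or first prove `cd f P = ∑ i ∈ P.vars ∪ range m, f i • pderiv i P`.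
-/

open MvPolynomial Finset

namespace W5a2b73

theorem CdB_sum_apply (f : ℕ → ℚ) (s : Finset ℕ) (Q : MvPolynomial ℕ ℚ) :
    (∑ i ∈ s, f i • pderiv (R := ℚ) i) Q = ∑ i ∈ s, f i • pderiv i Q := by
  classical
  induction s using Finset.induction_on with
  | empty => simp
  | insert a s ha ih =>
    rw [Finset.sum_insert ha, Finset.sum_insert ha, Derivation.add_apply, ih,
      Derivation.smul_apply]

theorem CdB_eq_vars (P : MvPolynomial ℕ ℚ) (f : ℕ → ℚ) (s : Finset ℕ) (hs : P.vars ⊆ s) :
    cd f P = ∑ i ∈ s, f i • pderiv i P := by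
  classical
  rw [← CdB_sum_apply]
  apply MvPolynomial.derivation_eq_of_forall_mem_vars
  intro j hj
  have hj' : j ∈ s := hs hj
  rw [cd_X, CdB_sum_apply, Finset.sum_eq_single j]
  · rw [pderiv_X_self, MvPolynomial.smul_eq_C_mul, mul_one]
  · intro i _ hij
    rw [pderiv_X_of_ne hij.symm, smul_zero]
  · intro h
    exact absurd hj' h

theorem cd_eq_sum {m : ℕ} {P : MvPolynomial ℕ ℚ} (h : SV m P) (f : ℕ → ℚ) :
    cd f P = ∑ i ∈ range m, f i • pderiv i P := by
  classical
  rw [CdB_eq_vars P f (P.vars ∪ range m) Finset.subset_union_left]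
  symm
  apply Finset.sum_subset Finset.subset_union_right
  intro i _ hi
  rw [Finset.mem_range, not_lt] at hi
  rw [h i hi, smul_zero]

theorem Eul_cd (f : ℕ → ℚ) (P : MvPolynomial ℕ ℚ) :
    Eul (cd f P) = cd f (Eul P) - cd (fun i => ((i : ℚ) + 1) * f i) P := by
  have h : ⁅Eul, cd f⁆ = -cd (fun i => ((i : ℚ) + 1) * f i) := by
    apply MvPolynomial.derivation_ext
    intro j
    have h1 : Eul (X j) = ((j : ℚ) + 1) • (X j : MvPolynomial ℕ ℚ) := by
      simp [Eul, mkDerivation_X]
    rw [Derivation.commutator_apply, cd_X, h1, MvPolynomial.derivation_C, Derivation.map_smul, cd_X,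
      Derivation.neg_apply, cd_X, zero_sub, MvPolynomial.smul_eq_C_mul, ← C_mul]
  have h2 : ⁅Eul, cd f⁆ P = (-cd (fun i => ((i : ℚ) + 1) * f i)) P := by rw [h]
  rw [Derivation.commutator_apply, Derivation.neg_apply] at h2
  rw [sub_eq_iff_eq_add.mp h2]
  abel

end W5a2b73
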