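import Pool.Agent.W_5a2b73_h94.CdA

/-!
Constant coefficient vector fields `cd f = ∑ f_i ∂_i`.
Hints: `MvPolynomial.derivation_ext`, `MvPolynomial.derivation_eqOn_supported`,
`MvPolynomial.coeff_pderiv`, `IsWeightedHomogeneous.pderiv`, `pderiv_def`,
Lie bracket of derivations (`Derivation.commutator_apply`) for `cd_comm`, `Eul_cd`.
For `cd_eq_sum`: both sides are the values at `P` of derivations; compare on `supported` with the
set `P.vars`, or first prove `cd f P = ∑ i ∈ P.vars ∪ range m, f i • pderiv i P`.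
-/

open MvPolynomial Finset

namespace W5a2b73

theorem CdC_weight {k : ℕ} {P : MvPolynomial ℕ ℚ} (h : P ∈ V k) {d : ℕ →₀ ℕ}
    (hd : coeff d P ≠ 0) : Finsupp.weight wt d = k :=
  (mem_weightedHomogeneousSubmodule _ _ _ _).1 h hd

theorem CdC_Eul_monomial (d : ℕ →₀ ℕ) :
    Eul (monomial d (1 : ℚ)) = ((Finsupp.weight wt d : ℕ) : ℚ) • monomial d (1 : ℚ) := by
  unfold Eul
  rw [mkDerivation_monomial, one_smul, Finsupp.weight_apply]
  unfold Finsupp.sum
  rw [Nat.cast_sum, Finset.sum_smul]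
  refine Finset.sum_congr rfl fun i hi => ?_
  have h1 : Finsupp.single i 1 ≤ d := by
    rw [Finsupp.single_le_iff]
    exact Nat.one_le_iff_ne_zero.2 (Finsupp.mem_support_iff.1 hi)
  beta_reduce
  rw [smul_eq_mul, mul_smul_comm, X, monomial_mul, tsub_add_cancel_of_le h1, smul_monomial,
    smul_monomial]
  congr 1
  unfold wt
  simp only [smul_eq_mul, mul_one]
  push_cast
  ring

theorem Eul_of_V {k : ℕ} {P : MvPolynomial ℕ ℚ} (h : P ∈ V k) : Eul P = (k : ℚ) • P := by
  have key : ∀ d ∈ P.support, Eul (monomial d (coeff d P)) = (k : ℚ) • monomial d (coeff d P) := by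
    intro d hd
    have hw := CdC_weight h (mem_support_iff.1 hd)
    have h1 : monomial d (coeff d P) = coeff d P • (monomial d (1 : ℚ)) := by
      rw [smul_monomial, smul_eq_mul, mul_one]
    rw [h1, Derivation.map_smul, CdC_Eul_monomial, hw, smul_comm]
  calc Eul P = Eul (∑ d ∈ P.support, monomial d (coeff d P)) := by rw [← P.as_sum]
    _ = ∑ d ∈ P.support, Eul (monomial d (coeff d P)) := map_sum _ _ _
    _ = ∑ d ∈ P.support, (k : ℚ) • monomial d (coeff d P) := Finset.sum_congr rfl key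
    _ = (k : ℚ) • ∑ d ∈ P.support, monomial d (coeff d P) := by rw [Finset.smul_sum]
    _ = (k : ℚ) • P := by rw [← P.as_sum]

/-- a polynomial of weight `k` only involves `X 0, ..., X (k-1)` -/
theorem SV_of_V {k : ℕ} {P : MvPolynomial ℕ ℚ} (h : P ∈ V k) : SV k P := by
  intro i hi
  ext m
  rw [coeff_pderiv, coeff_zero]
  by_contra hne
  have h1 : coeff (m + Finsupp.single i 1) P ≠ 0 := left_ne_zero_of_mul hne
  have h2 := CdC_weight h h1
  rw [map_add, Finsupp.weight_single, one_smul] at h2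
  unfold wt at h2
  omega

theorem pderiv_mem_V {k m : ℕ} {P : MvPolynomial ℕ ℚ} (h : P ∈ V k) (hm : m + 1 ≤ k) :
    pderiv m P ∈ V (k - (m + 1)) := by
  unfold V
  rw [mem_weightedHomogeneousSubmodule]
  have h' : P.IsWeightedHomogeneous wt k := (mem_weightedHomogeneousSubmodule _ _ _ _).1 h
  refine h'.pderiv ?_
  unfold wt
  omega

theorem V_SV_zero {k : ℕ} {P : MvPolynomial ℕ ℚ} (h : P ∈ V k) (hs : SV 0 P) :
    (k ≠ 0 → P = 0) ∧ ∃ a, P = C a := by
  have h0 : ∀ d : ℕ →₀ ℕ, d ≠ 0 → coeff d P = 0 := by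
    intro d hd
    obtain ⟨i, hi⟩ := Finsupp.ne_iff.1 hd
    have h1 : Finsupp.single i 1 ≤ d := by
      rw [Finsupp.single_le_iff]
      exact Nat.one_le_iff_ne_zero.2 hi
    have h2 := coeff_pderiv (i := i) P (d - Finsupp.single i 1)
    rw [hs i (Nat.zero_le i), coeff_zero, tsub_add_cancel_of_le h1] at h2
    have h3 : (((d - Finsupp.single i 1 : ℕ →₀ ℕ) i : ℕ) : ℚ) + 1 ≠ 0 := by positivity
    exact (mul_eq_zero.1 h2.symm).resolve_right h3
  have hP : P = C (coeff 0 P) := by
    ext d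
    rw [coeff_C]
    split_ifs with hd
    · rw [← hd]
    · exact h0 d (fun h => hd h.symm)
  refine ⟨fun hk => ?_, _, hP⟩
  have h4 : coeff 0 P = 0 := by
    by_contra hne
    have := CdC_weight h hne
    rw [map_zero] at this
    exact hk this.symm
  rw [hP, h4, C_0]

end W5a2b73
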