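import Pool.Agent.W_5a2b73_h94.CdA
import Pool.Agent.W_5a2b73_h94.CdB
import Pool.Agent.W_5a2b73_h94.CdC

/-! collected -/

open MvPolynomial Finset

namespace W5a2b73



end W5a2b73
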