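import Pool.Agent.W_5a2b73_h94.Defs

/-!
Constant coefficient vector fields `cd f = ∑ f_i ∂_i`.
Hints: `MvPolynomial.derivation_ext`, `MvPolynomial.derivation_eqOn_supported`,
`MvPolynomial.coeff_pderiv`, `IsWeightedHomogeneous.pderiv`, `pderiv_def`,
Lie bracket of derivations (`Derivation.commutator_apply`) for `cd_comm`, `Eul_cd`.
For `cd_eq_sum`: both sides are the values at `P` of derivations; compare on `supported` with the
set `P.vars`, or first prove `cd f P = ∑ i ∈ P.vars ∪ range m, f i • pderiv i P`.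
-/

open MvPolynomial Finset

namespace W5a2b73

theorem cd_X (f : ℕ → ℚ) (i : ℕ) : cd f (X i) = C (f i) := by
  simp [cd, mkDerivation_X]

theorem pderiv_eq_cd (i : ℕ) (P : MvPolynomial ℕ ℚ) : pderiv i P = cd (Pi.single i 1) P := by
  have h : pderiv i = cd (Pi.single i 1) := by
    apply MvPolynomial.derivation_ext
    intro j
    rw [pderiv_X, cd_X]
    by_cases hij : j = i
    · subst hij; simp
    · simp [hij]
  rw [h]

theorem cd_add (f g : ℕ → ℚ) (P : MvPolynomial ℕ ℚ) : cd (f + g) P = cd f P + cd g P := by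
  have h : cd (f + g) = cd f + cd g := by
    apply MvPolynomial.derivation_ext
    intro j
    rw [Derivation.add_apply, cd_X, cd_X, cd_X]
    simp
  rw [h, Derivation.add_apply]

theorem cd_smul (a : ℚ) (f : ℕ → ℚ) (P : MvPolynomial ℕ ℚ) : cd (a • f) P = a • cd f P := by
  have h : cd (a • f) = a • cd f := by
    apply MvPolynomial.derivation_ext
    intro j
    rw [Derivation.smul_apply, cd_X, cd_X]
    simp [MvPolynomial.smul_eq_C_mul]
  rw [h, Derivation.smul_apply]

theorem cd_comm (f g : ℕ → ℚ) (P : MvPolynomial ℕ ℚ) : cd f (cd g P) = cd g (cd f P) := by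
  have h : ⁅cd f, cd g⁆ = 0 := by
    apply MvPolynomial.derivation_ext
    intro j
    rw [Derivation.commutator_apply, cd_X, cd_X]
    simp [MvPolynomial.derivation_C]
  have h2 : ⁅cd f, cd g⁆ P = 0 := by rw [h]; rfl
  rw [Derivation.commutator_apply] at h2
  exact sub_eq_zero.mp h2

theorem pderiv_cd (i : ℕ) (f : ℕ → ℚ) (P : MvPolynomial ℕ ℚ) :
    pderiv i (cd f P) = cd f (pderiv i P) := by
  rw [pderiv_eq_cd, pderiv_eq_cd, cd_comm]

theorem SV_cd {m : ℕ} {P : MvPolynomial ℕ ℚ} (h : SV m P) (f : ℕ → ℚ) : SV m (cd f P) := by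
  intro i hi
  rw [pderiv_cd, h i hi, map_zero]

end W5a2b73
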