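import Pool.Agent.W_5a2b73_h94.Defs

/-!
Counting.  `bad_card`: `(m, τ) ↦` partition of `n = 2k-3-w` with parts `τ_i + 2`, `j` parts `2`,
`i` parts `1`, where `j = k - (m+1) - ∑ (τ_i + 1)`, `i = n - ∑ (τ_i+2) - 2j`
(the condition `w + 1 ≤ τ.sum + 2m` says exactly `i ≥ 0`); injective (the parts `≥ 3` give `τ`,
then the number of parts `2` gives `j`, hence `m`).
`finrank_V`: `weightedHomogeneousSubmodule_eq_finsupp_supported`,
`basisRestrictSupport`, and the bijection between exponents of weight `k` and partitions of `k`
(`d ↦` multiset with `d i` copies of `i + 1`).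
-/

open MvPolynomial Finset

namespace W5a2b73

theorem bad_card (k w : ℕ) (h : w + 3 ≤ 2 * k) :
    ∃ B : Finset (ℕ × Multiset ℕ),
      (∀ m τ, m < k → (∀ x ∈ τ, 1 ≤ x) → (τ.map (fun x => x + 1)).sum + (m + 1) ≤ k →
        w + 1 ≤ τ.sum + 2 * m → (m, τ) ∈ B) ∧
      B.card ≤ Fintype.card (Nat.Partition (2 * k - 3 - w)) := by
  classical
  let g : Nat.Partition (2 * k - 3 - w) → ℕ × Multiset ℕ := fun P =>
    (k - (1 + P.parts.count 2 + ((P.parts.filter (fun x => 3 ≤ x)).map (fun x => x - 1)).sum),
      (P.parts.filter (fun x => 3 ≤ x)).map (fun x => x - 2))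
  refine ⟨Finset.univ.image g, ?_, ?_⟩
  · intro m τ hm hτ h1 h2
    have s1 : (τ.map (fun x => x + 1)).sum = τ.sum + τ.card := by
      rw [Multiset.sum_map_add]
      simp
    have s2 : (τ.map (fun x => x + 2)).sum = τ.sum + τ.card * 2 := by
      rw [Multiset.sum_map_add]
      simp
    rw [s1] at h1
    obtain ⟨j, hj⟩ : ∃ j, j = k - (m + 1) - (τ.sum + τ.card) := ⟨_, rfl⟩
    obtain ⟨i, hi⟩ : ∃ i, i = τ.sum + 2 * m - w - 1 := ⟨_, rfl⟩
    let P : Nat.Partition (2 * k - 3 - w) :=
      { parts := τ.map (fun x => x + 2) + Multiset.replicate j 2 + Multiset.replicate i 1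
        parts_pos := by
          intro x hx
          rw [Multiset.mem_add, Multiset.mem_add] at hx
          rcases hx with (hx | hx) | hx
          · obtain ⟨y, -, rfl⟩ := Multiset.mem_map.1 hx
            omega
          · rw [Multiset.eq_of_mem_replicate hx]
            omega
          · rw [Multiset.eq_of_mem_replicate hx]
            omega
        parts_sum := by
          rw [Multiset.sum_add, Multiset.sum_add, s2, Multiset.sum_replicate,
            Multiset.sum_replicate]
          simp only [smul_eq_mul]
          omega }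
    have hf1 : (τ.map (fun x => x + 2)).filter (fun x => 3 ≤ x) = τ.map (fun x => x + 2) := by
      rw [Multiset.filter_eq_self]
      intro x hx
      obtain ⟨y, hy, rfl⟩ := Multiset.mem_map.1 hx
      have := hτ y hy
      omega
    have hf2 : (Multiset.replicate j 2).filter (fun x => 3 ≤ x) = 0 := by
      rw [Multiset.filter_eq_nil]
      intro x hx
      rw [Multiset.eq_of_mem_replicate hx]
      omega
    have hf3 : (Multiset.replicate i 1).filter (fun x => 3 ≤ x) = 0 := by
      rw [Multiset.filter_eq_nil]
      intro x hx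
      rw [Multiset.eq_of_mem_replicate hx]
      omega
    have hf : P.parts.filter (fun x => 3 ≤ x) = τ.map (fun x => x + 2) := by
      change (τ.map (fun x => x + 2) + Multiset.replicate j 2 + Multiset.replicate i 1).filter
        (fun x => 3 ≤ x) = _
      rw [Multiset.filter_add, Multiset.filter_add, hf1, hf2, hf3, add_zero, add_zero]
    have hc1 : (τ.map (fun x => x + 2)).count 2 = 0 := by
      rw [Multiset.count_eq_zero]
      intro hx
      obtain ⟨y, hy, h3⟩ := Multiset.mem_map.1 hx
      have := hτ y hy
      omega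
    have hc : P.parts.count 2 = j := by
      change (τ.map (fun x => x + 2) + Multiset.replicate j 2 + Multiset.replicate i 1).count 2 = _
      rw [Multiset.count_add, Multiset.count_add, hc1, Multiset.count_replicate,
        Multiset.count_replicate]
      simp
    rw [Finset.mem_image]
    refine ⟨P, Finset.mem_univ _, ?_⟩
    have hm1 : (τ.map (fun x => x + 2)).map (fun x => x - 1) = τ.map (fun x => x + 1) := by
      rw [Multiset.map_map]
      exact Multiset.map_congr rfl fun x _ => by simp
    have hm2 : (τ.map (fun x => x + 2)).map (fun x => x - 2) = τ := by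
      rw [Multiset.map_map]
      exact (Multiset.map_congr rfl fun x _ => by simp).trans (Multiset.map_id τ)
    change (k - (1 + P.parts.count 2 +
      ((P.parts.filter (fun x => 3 ≤ x)).map (fun x => x - 1)).sum),
      (P.parts.filter (fun x => 3 ≤ x)).map (fun x => x - 2)) = (m, τ)
    rw [hf, hc, hm1, hm2, s1]
    refine Prod.ext ?_ rfl
    change k - (1 + j + (τ.sum + τ.card)) = m
    omega
  · exact Finset.card_image_le.trans (le_of_eq Finset.card_univ)

/-- no bad pairs for `w + 2 ≥ 2k` -/
theorem no_bad (k w m : ℕ) (τ : List ℕ) (h : 2 * k ≤ w + 2) (hm : m < k) (hτ : ∀ x ∈ τ, 1 ≤ x)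
    (hk : (τ.map (fun x => x + 1)).sum + (m + 1) ≤ k) : ¬ (w + 1 ≤ τ.sum + 2 * m) := by
  have s1 : (τ.map (fun x => x + 1)).sum = τ.sum + τ.length := by
    induction τ with
    | nil => simp
    | cons a l ih =>
      have h1 := ih (fun x hx => hτ x (List.mem_cons_of_mem _ hx)) (by
        simp only [List.map_cons, List.sum_cons] at hk
        omega)
      simp only [List.map_cons, List.sum_cons, List.length_cons]
      omega
  rw [s1] at hk
  omega

end W5a2b73
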