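import Pool.Agent.W_5a2b73_h94.Defs

/-!
Counting.  `bad_card`: `(m, τ) ↦` partition of `n = 2k-3-w` with parts `τ_i + 2`, `j` parts `2`,
`i` parts `1`, where `j = k - (m+1) - ∑ (τ_i + 1)`, `i = n - ∑ (τ_i+2) - 2j`
(the condition `w + 1 ≤ τ.sum + 2m` says exactly `i ≥ 0`); injective (the parts `≥ 3` give `τ`,
then the number of parts `2` gives `j`, hence `m`).
`finrank_V`: `weightedHomogeneousSubmodule_eq_finsupp_supported`,
`basisRestrictSupport`, and the bijection between exponents of weight `k` and partitions of `k`
(`d ↦` multiset with `d i` copies of `i + 1`).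
-/

open MvPolynomial Finset

namespace W5a2b73

theorem countB_sum (d : ℕ →₀ ℕ) :
    ((Finsupp.toMultiset d).map (fun i => i + 1)).sum = Finsupp.weight wt d := by
  induction d using Finsupp.induction with
  | zero => simp
  | single_add a n f _ _ ih =>
    rw [map_add, Multiset.map_add, Multiset.sum_add, ih, map_add, Finsupp.toMultiset_single,
      Multiset.map_nsmul, Multiset.sum_nsmul, Finsupp.weight_single]
    simp [wt]

/-- exponents of weight `k` are the same as partitions of `k` -/
noncomputable def countBEquiv (k : ℕ) :
    {d : ℕ →₀ ℕ | Finsupp.weight wt d = k} ≃ Nat.Partition k where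
  toFun d := ⟨(Finsupp.toMultiset d.1).map (fun i => i + 1), by
    intro i hi
    obtain ⟨j, _, rfl⟩ := Multiset.mem_map.1 hi
    omega, by rw [countB_sum]; exact d.2⟩
  invFun p := ⟨Multiset.toFinsupp (p.parts.map (fun i => i - 1)), by
    show Finsupp.weight wt _ = k
    rw [← countB_sum, Multiset.toFinsupp_toMultiset, Multiset.map_map]
    conv_rhs => rw [← p.parts_sum]
    congr 1
    conv_rhs => rw [← Multiset.map_id p.parts]
    refine Multiset.map_congr rfl fun x hx => ?_
    have := p.parts_pos hx
    simp only [Function.comp, id]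
    omega⟩
  left_inv d := by
    ext1
    show Multiset.toFinsupp (Multiset.map (fun i => i - 1) (Multiset.map (fun i => i + 1) _)) = d.1
    rw [Multiset.map_map]
    have : ((fun i => i - 1) ∘ fun i => i + 1) = (id : ℕ → ℕ) := by
      funext x
      simp
    rw [this, Multiset.map_id, Finsupp.toMultiset_toFinsupp]
  right_inv p := by
    ext1
    show Multiset.map (fun i => i + 1) (Finsupp.toMultiset (Multiset.toFinsupp _)) = p.parts
    rw [Multiset.toFinsupp_toMultiset, Multiset.map_map]
    conv_rhs => rw [← Multiset.map_id p.parts]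
    refine Multiset.map_congr rfl fun x hx => ?_
    have := p.parts_pos hx
    simp only [Function.comp, id]
    omega

noncomputable def countBBasis (k : ℕ) : Module.Basis (Nat.Partition k) ℚ (V k) :=
  ((basisRestrictSupport ℚ {d : ℕ →₀ ℕ | Finsupp.weight wt d = k}).map
    (LinearEquiv.ofEq _ _ (weightedHomogeneousSubmodule_eq_finsupp_supported ℚ wt k).symm)).reindex
    (countBEquiv k)

instance V_finite (k : ℕ) : Module.Finite ℚ (V k) := Module.Finite.of_basis (countBBasis k)

theorem finrank_V (k : ℕ) : Module.finrank ℚ (V k) = Fintype.card (Nat.Partition k) :=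
  Module.finrank_eq_card_basis (countBBasis k)

end W5a2b73
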