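import Mathlib

/-!
# MP_5a2b73_ag (Gorenstein property of `R^*(M_g)`): definitions

Variables: `X i` stands for the class of index `i+1` (weight `i+1`).
The proof is in the table `proofs` (row 343).
-/

open MvPolynomial Finset

namespace W5a2b73

/-- constant coefficient vector field `∑ f_i ∂_i` -/
noncomputable def cd (f : ℕ → ℚ) : Derivation ℚ (MvPolynomial ℕ ℚ) (MvPolynomial ℕ ℚ) :=
  mkDerivation ℚ (fun i => C (f i))

/-- `r_j(c) = ∏_{l<j} (2l+3)/(2c+2l+3)` -/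
noncomputable def rr (j : ℕ) (c : ℚ) : ℚ :=
  ∏ l ∈ range j, (2 * (l : ℚ) + 3) / (2 * c + 2 * (l : ℚ) + 3)

/-- `∇_c = ∑ r_{i+1}(c) ∂_i` -/
noncomputable def nab (c : ℚ) : Derivation ℚ (MvPolynomial ℕ ℚ) (MvPolynomial ℕ ℚ) :=
  cd (fun i => rr (i + 1) c)

/-- `Dop cs P = ∏_{c ∈ cs} (1 - ∇_c) P` -/
noncomputable def Dop : List ℚ → MvPolynomial ℕ ℚ → MvPolynomial ℕ ℚ
  | [], P => P
  | c :: cs, P => Dop cs P - nab c (Dop cs P)

/-- all variables are sent to `X` -/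
noncomputable def ev : MvPolynomial ℕ ℚ →ₐ[ℚ] Polynomial ℚ := aeval (fun _ => Polynomial.X)

/-- `X^n ↦ n!` -/
noncomputable def lap : Polynomial ℚ →ₗ[ℚ] ℚ :=
  Polynomial.lsum (fun n => ((n.factorial : ℚ)) • LinearMap.id)

/-- `Φ_N(cs; P) = 𝓛( X^{N+#cs} ev(∏ (1-∇_c) P) )` -/
noncomputable def Phi (N : ℕ) (cs : List ℚ) (P : MvPolynomial ℕ ℚ) : ℚ :=
  lap (Polynomial.X ^ (N + cs.length) * ev (Dop cs P))

/-- weights -/
def wt : ℕ → ℕ := fun i => i + 1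

/-- `P` is a polynomial in the variables `X 0, ..., X (m-1)` -/
def SV (m : ℕ) (P : MvPolynomial ℕ ℚ) : Prop := ∀ i, m ≤ i → pderiv i P = 0

/-- the position of the `l`-th pole is `-(l + 3/2)` -/
noncomputable def bt (l : ℕ) : ℚ := (l : ℚ) + 3 / 2

/-- residue of `r_{i+1}` at `-(l+3/2)` -/
noncomputable def rho (i l : ℕ) : ℚ :=
  if l ≤ i then (∏ l' ∈ range (i + 1), bt l') *
    Lagrange.nodalWeight (range (i + 1)) (fun l' => - bt l') l else 0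

/-- the residue operator `D_l = ∑_i rho i l ∂_i` -/
noncomputable def dl (l : ℕ) : Derivation ℚ (MvPolynomial ℕ ℚ) (MvPolynomial ℕ ℚ) :=
  cd (fun i => rho i l)

/-- Euler vector field `∑ (i+1) X_i ∂_i` -/
noncomputable def Eul : Derivation ℚ (MvPolynomial ℕ ℚ) (MvPolynomial ℕ ℚ) :=
  mkDerivation ℚ (fun i => ((i : ℚ) + 1) • X i)

/-- `∑_i (2c_i+1) Dop (c_1, .., c_i - 1, .., c_n)` -/
noncomputable def Zop : List ℚ → MvPolynomial ℕ ℚ → MvPolynomial ℕ ℚ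
  | [], _ => 0
  | c :: cs, P => (2 * c + 1) • Dop ((c - 1) :: cs) P + (Zop cs P - nab c (Zop cs P))

/-- real form of a list of natural numbers -/
def toQ (τ : List ℕ) : List ℚ := τ.map (fun x => (x : ℚ))

/-- The condition on the test set `T_k`. -/
def TC (k N : ℕ) (W : ℚ) (P : MvPolynomial ℕ ℚ) : Prop :=
  ∀ τ : List ℕ, (∀ x ∈ τ, 1 ≤ x) → (τ.map (fun x => x + 1)).sum ≤ k →
    Phi N ((W - (τ.sum : ℚ)) :: toQ τ) P = 0

/-! ### link with the tautological ring -/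

/-- `γ_a = (2a+1)!!` -/
def gam (a : ℕ) : ℚ := ((2 * a + 1).doubleFactorial : ℚ)

/-- scaling `X_i ↦ X_i / γ_{i+1}` -/
noncomputable def sc : MvPolynomial ℕ ℚ →ₐ[ℚ] MvPolynomial ℕ ℚ :=
  aeval (fun i => C ((gam (i + 1))⁻¹) * X i)

/-- the vector field `V_i = ∑_j X_{j+i+1} ∂_j` -/
noncomputable def Vf (i : ℕ) : Derivation ℚ (MvPolynomial ℕ ℚ) (MvPolynomial ℕ ℚ) :=
  mkDerivation ℚ (fun j => X (j + i + 1))

/-- the operator `K_i = X_i - V_i` (multiplication by `κ_{i+1}` in the `e`-basis) -/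
noncomputable def kop (i : ℕ) : MvPolynomial ℕ ℚ →ₗ[ℚ] MvPolynomial ℕ ℚ :=
  LinearMap.mulLeft ℚ (X i) - (Vf i).toLinearMap

/-- the functional `φ_a` -/
noncomputable def phiF (N : ℕ) {n : ℕ} (a : Fin n → ℕ) (p : MvPolynomial ℕ ℚ) : ℚ :=
  (∏ i, (gam (a i))⁻¹) * Phi N (List.ofFn (fun i => (a i : ℚ))) (sc p)

/-- the cycle of `i` under the permutation `σ` -/
noncomputable def cyc {n : ℕ} (σ : Equiv.Perm (Fin n)) (i : Fin n) : Finset (Fin n) := by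
  classical exact univ.filter (fun j => σ.SameCycle i j)

/-- the set of cycles of `σ` (fixed points included) -/
noncomputable def cycles {n : ℕ} (σ : Equiv.Perm (Fin n)) : Finset (Finset (Fin n)) :=
  univ.image (cyc σ)

/-- `e_a = ∑_{σ ∈ S_n} ∏_{C cycle of σ} κ_{a(C)}` -/
noncomputable def eCl {R : Type*} [CommRing R] (κ : ℕ → R) {n : ℕ} (a : Fin n → ℕ) : R :=
  ∑ σ : Equiv.Perm (Fin n), ∏ C ∈ cycles σ, κ (∑ j ∈ C, a j)

/-- polynomials of weight `k` in `κ_1, κ_2, ...` (`X i` is `κ_{i+1}`) -/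
noncomputable def V (k : ℕ) : Submodule ℚ (MvPolynomial ℕ ℚ) :=
  weightedHomogeneousSubmodule ℚ wt k

end W5a2b73
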