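import Pool.Agent.W_5a2b73_h94.Defs

/-!
The functional `X^n ↦ n!` and evaluation `X_i ↦ X`.
Hints: `Polynomial.lsum`, linearity and induction on polynomials (`Polynomial.induction_on'`);
`ev_cd_one`, `ev_cd_odd`: compare derivations on generators (both sides are derivations
`MvPolynomial ℕ ℚ → ℚ[X]` along `ev`; the easiest is `MvPolynomial.induction_on`).
-/

open MvPolynomial Finset

namespace W5a2b73

theorem lap_X_pow (n : ℕ) : lap (Polynomial.X ^ n) = (n.factorial : ℚ) := by
  rw [lap, Polynomial.lsum_apply, ← Polynomial.monomial_one_right_eq_X_pow,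
    Polynomial.sum_monomial_index]
  · simp
  · simp

theorem lap_derivative (n : ℕ) (q : Polynomial ℚ) :
    lap (Polynomial.derivative (Polynomial.X ^ (n + 1) * q)) = lap (Polynomial.X ^ (n + 1) * q) := by
  induction q using Polynomial.induction_on' with
  | add p q hp hq => rw [mul_add, map_add, map_add, map_add, hp, hq]
  | monomial m a =>
    rw [← Polynomial.C_mul_X_pow_eq_monomial, mul_left_comm, ← pow_add, Polynomial.derivative_C_mul,
      ← Polynomial.smul_eq_C_mul, ← Polynomial.smul_eq_C_mul, map_smul, map_smul,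
      Polynomial.derivative_X_pow, ← Polynomial.smul_eq_C_mul, map_smul, lap_X_pow, lap_X_pow]
    congr 1
    have h1 : n + 1 + m = (n + m) + 1 := by ring
    rw [h1, Nat.add_sub_cancel, Nat.factorial_succ]
    push_cast
    simp

theorem ev_cd_one (P : MvPolynomial ℕ ℚ) :
    ev (cd (fun _ => 1) P) = Polynomial.derivative (ev P) := by
  induction P using MvPolynomial.induction_on with
  | C a => simp [cd, ev]
  | add p q hp hq => simp only [map_add, hp, hq]
  | mul_X p i hp =>
    have h1 : cd (fun _ => 1) (X i) = 1 := by simp [cd, mkDerivation_X]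
    have h2 : ev (X i) = Polynomial.X := by simp [ev]
    rw [Derivation.leibniz, map_add, smul_eq_mul, smul_eq_mul, map_mul, map_mul, map_mul, hp, h1,
      h2, map_one, Polynomial.derivative_mul, Polynomial.derivative_X]
    ring

theorem ev_cd_odd (P : MvPolynomial ℕ ℚ) :
    Polynomial.X * ev (cd (fun i => 2 * ((i : ℚ) + 1) + 1) P) =
      (2 : ℚ) • ev (Eul P) + Polynomial.X * Polynomial.derivative (ev P) := by
  induction P using MvPolynomial.induction_on with
  | C a => simp [cd, ev, Eul]
  | add p q hp hq =>
    rw [map_add, map_add, map_add, map_add, map_add, mul_add, hp, hq, smul_add, map_add]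
    ring
  | mul_X p i hp =>
    have h1 : cd (fun i => 2 * ((i : ℚ) + 1) + 1) (X i) = C (2 * ((i : ℚ) + 1) + 1) := by
      simp [cd, mkDerivation_X]
    have h2 : ev (X i) = Polynomial.X := by simp [ev]
    have h3 : Eul (X i) = ((i : ℚ) + 1) • X i := by simp [Eul, mkDerivation_X]
    have h4 : ∀ a : ℚ, ev (C a) = Polynomial.C a := by
      intro a
      simp [ev]
    rw [Derivation.leibniz, Derivation.leibniz, map_add, map_add, smul_eq_mul, smul_eq_mul,
      smul_eq_mul, smul_eq_mul, map_mul, map_mul, map_mul, map_mul, map_mul, h1, h3, map_smul, h2,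
      h4, Polynomial.derivative_mul, Polynomial.derivative_X]
    have h0 : (Polynomial.C (2 : ℚ)) = 2 := rfl
    have h5 : Polynomial.C (2 * ((i : ℚ) + 1) + 1)
        = 2 * Polynomial.C ((i : ℚ) + 1) + 1 := by
      rw [map_add, map_mul, map_one, h0]
    rw [h5, Polynomial.smul_eq_C_mul, Polynomial.smul_eq_C_mul]
    rw [Polynomial.smul_eq_C_mul] at hp
    rw [h0] at hp ⊢
    linear_combination Polynomial.X * hp

end W5a2b73
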