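import Pool.Agent.W_5a2b73_h94.Defs

/-!
The rational functions `r_j(c) = ∏_{l<j} (2l+3)/(2c+2l+3)`.
Hints: `rr_shift`: `(2c+1) r_j(c-1) = (2c+2j+1) r_j(c)` by induction on `j`.
`rr_nat`: induction on `j`, `Nat.doubleFactorial_add_two`.
`rr_pf`: `Lagrange.eval_interpolate_not_at_node` (with `r = 1`, `Lagrange.interpolate_one`)
or `Lagrange.sum_nodalWeight...`, `Lagrange.eval_nodal`, for the nodes `- bt l`.
`rho_self_ne`: `Lagrange.nodalWeight_ne_zero`.
-/

open MvPolynomial Finset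

namespace W5a2b73

theorem rr_arg_zero (j : ℕ) : rr j 0 = 1 := by
  unfold rr
  refine Finset.prod_eq_one ?_
  intro l _
  have h : (2 * (l : ℚ) + 3) ≠ 0 := by positivity
  rw [mul_zero, zero_add]
  exact div_self h

theorem rr_arg_neg_one (j : ℕ) : rr j (-1) = 2 * (j : ℚ) + 1 := by
  induction j with
  | zero => simp [rr]
  | succ j ih =>
    have h1 : rr (j + 1) (-1) = rr j (-1) * ((2 * (j : ℚ) + 3) / (2 * (-1) + 2 * (j : ℚ) + 3)) := by
      unfold rr
      rw [Finset.prod_range_succ]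
    rw [h1, ih]
    have h2 : (2 * (-1) + 2 * (j : ℚ) + 3) = 2 * (j : ℚ) + 1 := by ring
    have h3 : (2 * (j : ℚ) + 1) ≠ 0 := by positivity
    rw [h2]
    push_cast
    field_simp
    ring

theorem rr_shift (j : ℕ) (c : ℚ) (hc : ∀ l : ℕ, 2 * c + 2 * (l : ℚ) + 1 ≠ 0) :
    (2 * c + 1) * (rr j (c - 1) - rr j c) = 2 * (j : ℚ) * rr j c := by
  have key : (2 * c + 1) * rr j (c - 1) = (2 * c + 2 * (j : ℚ) + 1) * rr j c := by
    induction j with
    | zero => simp [rr]
    | succ j ih =>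
      have h1 : ∀ x : ℚ, rr (j + 1) x = rr j x * ((2 * (j : ℚ) + 3) / (2 * x + 2 * (j : ℚ) + 3)) := by
        intro x
        unfold rr
        rw [Finset.prod_range_succ]
      rw [h1, h1, ← mul_assoc, ih]
      have h2 : 2 * c + 2 * (j : ℚ) + 1 ≠ 0 := hc j
      have h3 : 2 * c + 2 * (j : ℚ) + 3 ≠ 0 := by
        have := hc (j + 1)
        push_cast at this
        intro h
        apply this
        linarith
      have h4 : 2 * (c - 1) + 2 * (j : ℚ) + 3 = 2 * c + 2 * (j : ℚ) + 1 := by ring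
      rw [h4]
      have e1 : (2 * c + 2 * (j : ℚ) + 1) * ((2 * (j : ℚ) + 3) / (2 * c + 2 * (j : ℚ) + 1)) =
          2 * (j : ℚ) + 3 := mul_div_cancel₀ _ h2
      have e2 : (2 * c + 2 * (j : ℚ) + 3) * ((2 * (j : ℚ) + 3) / (2 * c + 2 * (j : ℚ) + 3)) =
          2 * (j : ℚ) + 3 := mul_div_cancel₀ _ h3
      push_cast
      linear_combination rr j c * e1 - rr j c * e2
  linear_combination key

theorem gam_pos (a : ℕ) : 0 < gam a := by
  unfold gam
  exact_mod_cast Nat.doubleFactorial_pos (2 * a + 1)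

theorem Rr_gam_succ (a : ℕ) : gam (a + 1) = (2 * (a : ℚ) + 3) * gam a := by
  unfold gam
  have h : 2 * (a + 1) + 1 = (2 * a + 1) + 2 := by ring
  rw [h, Nat.doubleFactorial_add_two]
  push_cast
  ring

theorem rr_nat (j c : ℕ) : rr j (c : ℚ) = gam j * gam c / gam (j + c) := by
  induction j with
  | zero =>
    have h0 : gam 0 = 1 := by simp [gam]
    have h1 : gam c ≠ 0 := (gam_pos c).ne'
    rw [h0, zero_add, one_mul, div_self h1]
    simp [rr]
  | succ j ih =>
    have h1 : rr (j + 1) (c : ℚ) =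
        rr j (c : ℚ) * ((2 * (j : ℚ) + 3) / (2 * (c : ℚ) + 2 * (j : ℚ) + 3)) := by
      unfold rr
      rw [Finset.prod_range_succ]
    rw [h1, ih, Rr_gam_succ]
    have h2 : j + 1 + c = (j + c) + 1 := by ring
    rw [h2, Rr_gam_succ]
    have h3 : gam (j + c) ≠ 0 := (gam_pos _).ne'
    have h4 : 2 * (c : ℚ) + 2 * (j : ℚ) + 3 ≠ 0 := by positivity
    have h5 : 2 * ((j + c : ℕ) : ℚ) + 3 ≠ 0 := by positivity
    push_cast at h5 ⊢
    have h6 : 2 * ((j : ℚ) + (c : ℚ)) + 3 = 2 * (c : ℚ) + 2 * (j : ℚ) + 3 := by ring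
    rw [h6]
    field_simp

theorem rr_mul (j b c : ℕ) :
    rr (j + b) (c : ℚ) * rr j (b : ℚ) = rr b (c : ℚ) * rr j ((b + c : ℕ) : ℚ) := by
  rw [rr_nat, rr_nat, rr_nat, rr_nat]
  have h1 : j + b + c = j + (b + c) := by ring
  rw [h1]
  have h2 : gam (j + b) ≠ 0 := (gam_pos _).ne'
  have h3 : gam (b + c) ≠ 0 := (gam_pos _).ne'
  have h4 : gam (j + (b + c)) ≠ 0 := (gam_pos _).ne'
  field_simp

theorem rr_pf (i m : ℕ) (him : i < m) (c : ℚ) (hc : ∀ l < m, c + bt l ≠ 0) :
    rr (i + 1) c = ∑ l ∈ range m, rho i l * (c + bt l)⁻¹ := by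
  have hsub : range (i + 1) ⊆ range m := Finset.range_subset_range.mpr him
  have h1 : ∑ l ∈ range m, rho i l * (c + bt l)⁻¹ =
      ∑ l ∈ range (i + 1), rho i l * (c + bt l)⁻¹ := by
    symm
    refine Finset.sum_subset hsub ?_
    intro l _ hl
    have : ¬ l ≤ i := by
      intro h
      exact hl (Finset.mem_range.mpr (by omega))
    unfold rho
    rw [if_neg this, zero_mul]
  rw [h1]
  have hx : ∀ l ∈ range (i + 1), c ≠ (fun l' => - bt l') l := by
    intro l hl h
    have : c + bt l ≠ 0 := hc l (by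
      have := Finset.mem_range.mp hl
      omega)
    apply this
    simp only at h
    rw [h]
    ring
  have hinj : Set.InjOn (fun l' => - bt l') (range (i + 1) : Set ℕ) := by
    intro a _ b _ hab
    simp only [bt, neg_inj, add_left_inj, Nat.cast_inj] at hab
    exact hab
  have h2 := Lagrange.eval_interpolate_not_at_node (s := range (i + 1))
    (v := fun l' => - bt l') (r := fun _ => (1 : ℚ)) (x := c) hx
  have h3 : Lagrange.interpolate (range (i + 1)) (fun l' => - bt l') (fun _ => (1 : ℚ)) = 1 :=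
    Lagrange.interpolate_one hinj ⟨0, by simp⟩
  rw [h3, Polynomial.eval_one, Lagrange.eval_nodal] at h2
  have h4 : rr (i + 1) c = (∏ l' ∈ range (i + 1), bt l') *
      (∏ l ∈ range (i + 1), (c - - bt l))⁻¹ := by
    unfold rr
    rw [← Finset.prod_inv_distrib, ← Finset.prod_mul_distrib]
    refine Finset.prod_congr rfl ?_
    intro l hl
    have h5 : c + bt l ≠ 0 := hc l (by
      have := Finset.mem_range.mp hl
      omega)
    have h6 : 2 * c + 2 * (l : ℚ) + 3 = 2 * (c + bt l) := by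
      unfold bt
      ring
    have h7 : 2 * (l : ℚ) + 3 = 2 * bt l := by
      unfold bt
      ring
    rw [h6, h7, sub_neg_eq_add]
    field_simp
  have h8 : (∏ l ∈ range (i + 1), (c - - bt l)) ≠ 0 := by
    refine Finset.prod_ne_zero_iff.mpr ?_
    intro l hl
    have h5 : c + bt l ≠ 0 := hc l (by
      have := Finset.mem_range.mp hl
      omega)
    rwa [sub_neg_eq_add]
  have h9 : (∏ l ∈ range (i + 1), (c - - bt l))⁻¹ = ∑ l ∈ range (i + 1),
      Lagrange.nodalWeight (range (i + 1)) (fun l' => - bt l') l * (c - - bt l)⁻¹ * 1 := by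
    rw [inv_eq_iff_eq_inv]
    refine eq_inv_of_mul_eq_one_left ?_
    exact h2.symm
  rw [h4, h9, Finset.mul_sum]
  refine Finset.sum_congr rfl ?_
  intro l hl
  have hl' : l ≤ i := by
    have := Finset.mem_range.mp hl
    omega
  unfold rho
  rw [if_pos hl', sub_neg_eq_add]
  ring

theorem rho_self_ne (i : ℕ) : rho i i ≠ 0 := by
  unfold rho
  rw [if_pos le_rfl]
  refine mul_ne_zero ?_ ?_
  · refine Finset.prod_ne_zero_iff.mpr ?_
    intro l _
    unfold bt
    positivity
  · refine Lagrange.nodalWeight_ne_zero ?_ (by simp)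
    intro a _ b _ hab
    simp only [bt, neg_inj, add_left_inj, Nat.cast_inj] at hab
    exact hab

theorem rho_eq_zero {i l : ℕ} (h : i < l) : rho i l = 0 := by
  unfold rho
  rw [if_neg (by omega)]

end W5a2b73
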