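import Pool.Agent.W_5a2b73_h94.DopL
import Pool.Agent.W_5a2b73_h94.Rr
import Pool.Agent.W_5a2b73_h94.Lap

/-!
Dilaton equation.  `n = cs.length`, `q = ev (Dop cs P)`.  Since `r_j(0) = 1`, `nab 0 = cd 1` and
`Phi N (0::cs) P = lap (X^(N+n+1) (q - q'))`, while
`(X^(N+n+1) q)' = (N+n+1) X^(N+n) q + X^(N+n+1) q'` and `lap (F') = lap F` for `F = X^(N+n+1) q`.

`TC_zero`: by strong induction on the length of `τ`; if `0 ∈ τ`, move it to the front
(`Phi_perm`, `List.perm_cons_erase`) and use the dilaton equation.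
-/

open MvPolynomial Finset

namespace W5a2b73

theorem Phi_zero_cons (N : ℕ) (cs : List ℚ) (P : MvPolynomial ℕ ℚ) :
    Phi N (0 :: cs) P = ((N : ℚ) + cs.length + 1) * Phi N cs P := by
  have hnab : nab 0 = cd (fun _ => 1) := by
    unfold nab
    congr 1
    funext i
    exact rr_arg_zero (i + 1)
  have h1 : ev (Dop (0 :: cs) P) =
      ev (Dop cs P) - Polynomial.derivative (ev (Dop cs P)) := by
    show ev (Dop cs P - nab 0 (Dop cs P)) = _
    rw [map_sub, hnab, ev_cd_one]
  have h2 := lap_derivative (N + cs.length) (ev (Dop cs P))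
  have h3 : Polynomial.derivative (Polynomial.X ^ (N + cs.length + 1) * ev (Dop cs P)) =
      ((N : ℚ) + cs.length + 1) • (Polynomial.X ^ (N + cs.length) * ev (Dop cs P)) +
        Polynomial.X ^ (N + cs.length + 1) * Polynomial.derivative (ev (Dop cs P)) := by
    rw [Polynomial.derivative_mul, Polynomial.derivative_X_pow, Polynomial.smul_eq_C_mul]
    simp only [Nat.add_sub_cancel, Nat.cast_add, Nat.cast_one]
    ring
  rw [h3, map_add, map_smul, smul_eq_mul] at h2
  unfold Phi
  rw [h1, List.length_cons, ← add_assoc, mul_sub, map_sub]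
  linarith

private theorem toQ_eq_map (τ : List ℕ) : toQ τ = τ.map (Nat.cast : ℕ → ℚ) := by
  unfold toQ
  induction τ with
  | nil => rfl
  | cons a l ih =>
    show List.map (fun x => x) ((a : ℚ) :: (l >>= fun a => pure (a : ℚ))) = _
    rw [List.map_cons, List.map_cons]
    congr 1

theorem TC_zero {k N : ℕ} {W : ℚ} {P : MvPolynomial ℕ ℚ} (h : TC k N W P) (τ : List ℕ)
    (hτ : (τ.map (fun x => x + 1)).sum ≤ k) :
    Phi N ((W - (τ.sum : ℚ)) :: toQ τ) P = 0 := by
  induction hn : τ.length generalizing τ with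
  | zero =>
    have hnil : τ = [] := List.length_eq_zero_iff.mp hn
    subst hnil
    exact h [] (by simp) hτ
  | succ n ih =>
    by_cases h0 : 0 ∈ τ
    · have hp : τ.Perm (0 :: τ.erase 0) := List.perm_cons_erase h0
      have hlen : (τ.erase 0).length = n := by
        rw [List.length_erase_of_mem h0, hn]
        rfl
      have hsum : τ.sum = (τ.erase 0).sum := by
        rw [hp.sum_eq]
        simp
      have hmap : (τ.map (fun x => x + 1)).sum =
          1 + ((τ.erase 0).map (fun x => x + 1)).sum := by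
        rw [(hp.map (fun x => x + 1)).sum_eq]
        simp
      have ih' := ih (τ.erase 0) (by omega) hlen
      have hq : ((W - (τ.sum : ℚ)) :: toQ τ).Perm
          ((0 : ℚ) :: (W - ((τ.erase 0).sum : ℚ)) :: toQ (τ.erase 0)) := by
        rw [hsum]
        have h1 : (toQ τ).Perm ((0 : ℚ) :: toQ (τ.erase 0)) := by
          have h2 := hp.map (Nat.cast : ℕ → ℚ)
          rw [List.map_cons, Nat.cast_zero, ← toQ_eq_map, ← toQ_eq_map] at h2
          exact h2
        exact (h1.cons _).trans (List.Perm.swap _ _ _)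
      rw [Phi_perm N hq, Phi_zero_cons, ih', mul_zero]
    · refine h τ ?_ hτ
      intro x hx
      rcases Nat.eq_zero_or_pos x with hx0 | hx0
      · exact absurd (hx0 ▸ hx) h0
      · exact hx0

end W5a2b73
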