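import Pool.Agent.W_5a2b73_h94.Cd

/-!
Basic properties of `Dop` and `Phi` (all easy inductions on the list).
-/

open MvPolynomial Finset

namespace W5a2b73

theorem Dop_append (l₁ l₂ : List ℚ) (P : MvPolynomial ℕ ℚ) :
    Dop (l₁ ++ l₂) P = Dop l₁ (Dop l₂ P) := by
  induction l₁ with
  | nil => rfl
  | cons c cs ih =>
    simp only [List.cons_append, Dop]
    rw [ih]

theorem Dop_add (cs : List ℚ) (P Q : MvPolynomial ℕ ℚ) :
    Dop cs (P + Q) = Dop cs P + Dop cs Q := by
  induction cs with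
  | nil => rfl
  | cons c cs ih =>
    simp only [Dop]
    rw [ih, map_add]
    abel

theorem Dop_smul (cs : List ℚ) (a : ℚ) (P : MvPolynomial ℕ ℚ) :
    Dop cs (a • P) = a • Dop cs P := by
  induction cs with
  | nil => rfl
  | cons c cs ih =>
    simp only [Dop]
    rw [ih, Derivation.map_smul, smul_sub]

theorem Dop_cd (cs : List ℚ) (f : ℕ → ℚ) (P : MvPolynomial ℕ ℚ) :
    Dop cs (cd f P) = cd f (Dop cs P) := by
  induction cs with
  | nil => rfl
  | cons c cs ih =>
    simp only [Dop]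
    rw [ih, map_sub, nab, cd_comm]

theorem SV_Dop {m : ℕ} {P : MvPolynomial ℕ ℚ} (h : SV m P) (cs : List ℚ) : SV m (Dop cs P) := by
  induction cs with
  | nil => exact h
  | cons c cs ih =>
    intro i hi
    simp only [Dop]
    rw [map_sub, ih i hi, nab, SV_cd ih _ i hi, sub_zero]

theorem Dop_perm {l₁ l₂ : List ℚ} (h : l₁.Perm l₂) (P : MvPolynomial ℕ ℚ) :
    Dop l₁ P = Dop l₂ P := by
  induction h with
  | nil => rfl
  | cons x _ ih =>
    simp only [Dop]
    rw [ih]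
  | swap x y l =>
    simp only [Dop]
    rw [map_sub, map_sub, nab, nab, cd_comm]
    abel
  | trans _ _ ih₁ ih₂ => rw [ih₁, ih₂]

theorem Phi_perm (N : ℕ) {l₁ l₂ : List ℚ} (h : l₁.Perm l₂) (P : MvPolynomial ℕ ℚ) :
    Phi N l₁ P = Phi N l₂ P := by
  unfold Phi
  rw [h.length_eq, Dop_perm h]

theorem Phi_add (N : ℕ) (cs : List ℚ) (P Q : MvPolynomial ℕ ℚ) :
    Phi N cs (P + Q) = Phi N cs P + Phi N cs Q := by
  unfold Phi
  rw [Dop_add, map_add, mul_add, map_add]

theorem Phi_smul (N : ℕ) (cs : List ℚ) (a : ℚ) (P : MvPolynomial ℕ ℚ) :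
    Phi N cs (a • P) = a * Phi N cs P := by
  unfold Phi
  rw [Dop_smul, map_smul, mul_smul_comm, map_smul, smul_eq_mul]

end W5a2b73
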