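import Pool.Agent.W_5a2b73_h94.Defs

/-!
Combinatorics of the classes `e_a = ∑_σ ∏_{cycles} κ_{a(C)}`.

`eCl_cons`: use `Equiv.Perm.decomposeFin : Perm (Fin (n+1)) ≃ Fin (n+1) × Perm (Fin n)`.
For `σ = decomposeFin.symm (0, e)`: `σ 0 = 0`, `σ x.succ = (e x).succ`, so
`cycles σ = insert {0} (image (map succ) (cycles e))`.
For `σ = decomposeFin.symm (q.succ, e)`: `σ 0 = q.succ`, `σ x.succ = (e x).succ` if `e x ≠ q`,
`σ x.succ = 0` if `e x = q`; so `cycles σ = (cycles e).image φ` with
`φ C = if q ∈ C then insert 0 (C.map succ) else C.map succ` (injective), and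
`∑_{j ∈ φ C} (Fin.cons b a) j = ∑_{j ∈ C} (Function.update a q (a q + b)) j`.
Helpful: `SameCycle σ x.succ y.succ ↔ SameCycle e x y` and `SameCycle σ 0 y.succ ↔ SameCycle e q y`:
if `π : Fin (n+1) → Fin n` is `0 ↦ q`, `x.succ ↦ x`, then `SameCycle e (π z) (π (σ z))` for all `z`;
conversely `SameCycle σ x.succ (e x).succ`.
-/

open MvPolynomial Finset

namespace W5a2b73

theorem mem_cyc {n : ℕ} (σ : Equiv.Perm (Fin n)) (i j : Fin n) :
    j ∈ cyc σ i ↔ σ.SameCycle i j := by
  unfold cyc
  simp

/-- A function which is invariant under `σ` is constant on the cycles of `σ`. -/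
theorem er_sameCycle_invariant {α β : Type*} (σ : Equiv.Perm α) (ψ : α → β)
    (h : ∀ z, ψ (σ z) = ψ z) {a b : α} (hab : σ.SameCycle a b) : ψ a = ψ b := by
  obtain ⟨i, rfl⟩ := hab
  induction i using Int.induction_on with
  | zero => simp
  | succ i ih =>
    rw [add_comm, zpow_add, zpow_one, Equiv.Perm.mul_apply, h]
    exact ih
  | pred i ih =>
    have h2 := h ((σ ^ (-(i : ℤ) - 1)) a)
    rw [← Equiv.Perm.mul_apply, ← zpow_one_add] at h2
    rw [← h2]
    have h3 : 1 + (-(i : ℤ) - 1) = -(i : ℤ) := by ring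
    rw [h3]
    exact ih

theorem er_sameCycle_of_step {α β : Type*} (σ : Equiv.Perm α) (τ : Equiv.Perm β) (g : α → β)
    (h : ∀ z, τ.SameCycle (g z) (g (σ z))) {a b : α} (hab : σ.SameCycle a b) :
    τ.SameCycle (g a) (g b) := by
  have h1 := er_sameCycle_invariant σ
    (fun z => (Quotient.mk (Equiv.Perm.SameCycle.setoid τ) (g z)))
    (fun z => Quotient.sound (h z).symm) hab
  exact Quotient.exact h1

theorem er_sameCycle_zero_iff {n : ℕ} (e : Equiv.Perm (Fin n)) (x y : Fin n) :
    (Equiv.Perm.decomposeFin.symm (0, e)).SameCycle x.succ y.succ ↔ e.SameCycle x y := by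
  have hs : ∀ z : Fin n, Equiv.Perm.decomposeFin.symm (0, e) z.succ = (e z).succ := by
    intro z
    simp [Equiv.Perm.decomposeFin_symm_apply_succ]
  constructor
  · intro h
    have h1 := er_sameCycle_invariant (Equiv.Perm.decomposeFin.symm (0, e))
      (Fin.cases (none : Option (Quotient (Equiv.Perm.SameCycle.setoid e)))
        (fun z => some (Quotient.mk _ z))) ?_ h
    · simp only [Fin.cases_succ] at h1
      exact Quotient.exact (Option.some_injective _ h1)
    · intro z
      refine Fin.cases ?_ ?_ z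
      · simp
      · intro z
        rw [hs]
        simp only [Fin.cases_succ]
        congr 1
        exact Quotient.sound (Equiv.Perm.sameCycle_apply_left.2 (Equiv.Perm.SameCycle.refl _ _))
  · intro h
    refine er_sameCycle_of_step e _ Fin.succ (fun z => ?_) h
    rw [← hs]
    exact Equiv.Perm.sameCycle_apply_right.2 (Equiv.Perm.SameCycle.refl _ _)

theorem er_not_sameCycle_zero {n : ℕ} (e : Equiv.Perm (Fin n)) (y : Fin n) :
    ¬ (Equiv.Perm.decomposeFin.symm (0, e)).SameCycle 0 y.succ := by
  intro h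
  have h0 : Equiv.Perm.decomposeFin.symm (0, e) 0 = 0 := by simp
  have h1 := er_sameCycle_invariant (Equiv.Perm.decomposeFin.symm (0, e))
    (fun z : Fin (n + 1) => decide (z = 0)) ?_ h
  · simp at h1
  · intro z
    have h2 : Equiv.Perm.decomposeFin.symm (0, e) z = 0 ↔ z = 0 := by
      constructor
      · intro h3
        rw [← h0] at h3
        exact (Equiv.Perm.decomposeFin.symm (0, e)).injective h3
      · rintro rfl
        exact h0
    simp only [h2]

theorem cycles_zero {n : ℕ} (e : Equiv.Perm (Fin n)) :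
    cycles (Equiv.Perm.decomposeFin.symm (0, e)) =
      insert {0} ((cycles e).image (fun C => C.map (Fin.succEmb n))) := by
  have h0 : cyc (Equiv.Perm.decomposeFin.symm (0, e)) 0 = {0} := by
    ext z
    rw [mem_cyc, Finset.mem_singleton]
    refine Fin.cases ?_ ?_ z
    · simp only [iff_true]
      exact Equiv.Perm.SameCycle.refl _ _
    · intro y
      simp only [er_not_sameCycle_zero, Fin.succ_ne_zero]
  have hs : ∀ x : Fin n, cyc (Equiv.Perm.decomposeFin.symm (0, e)) x.succ =
      (cyc e x).map (Fin.succEmb n) := by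
    intro x
    ext z
    rw [mem_cyc]
    refine Fin.cases ?_ ?_ z
    · simp only [Finset.mem_map, Fin.coe_succEmb, Fin.succ_ne_zero, and_false, exists_false,
        iff_false]
      exact fun h => er_not_sameCycle_zero e x h.symm
    · intro y
      rw [er_sameCycle_zero_iff]
      simp only [Finset.mem_map, Fin.coe_succEmb, Fin.succ_inj, exists_eq_right, mem_cyc]
  unfold cycles
  ext C
  simp only [Finset.mem_image, Finset.mem_univ, true_and, Finset.mem_insert, exists_exists_eq_and]
  constructor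
  · rintro ⟨z, rfl⟩
    revert z
    intro z
    refine Fin.cases ?_ ?_ z
    · exact Or.inl h0
    · intro x
      exact Or.inr ⟨x, (hs x).symm⟩
  · rintro (rfl | ⟨x, rfl⟩)
    · exact ⟨0, h0⟩
    · exact ⟨x.succ, hs x⟩

section succ

variable {n : ℕ} (q : Fin n) (e : Equiv.Perm (Fin n))

theorem er_dec_zero : Equiv.Perm.decomposeFin.symm (q.succ, e) 0 = q.succ := by simp

theorem er_dec_succ_of_ne {x : Fin n} (h : e x ≠ q) :
    Equiv.Perm.decomposeFin.symm (q.succ, e) x.succ = (e x).succ := by
  rw [Equiv.Perm.decomposeFin_symm_apply_succ]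
  exact Equiv.swap_apply_of_ne_of_ne (Fin.succ_ne_zero _) (by simpa using h)

theorem er_dec_succ_of_eq {x : Fin n} (h : e x = q) :
    Equiv.Perm.decomposeFin.symm (q.succ, e) x.succ = 0 := by
  rw [Equiv.Perm.decomposeFin_symm_apply_succ, h]
  exact Equiv.swap_apply_right _ _

theorem er_sameCycle_zero_q :
    (Equiv.Perm.decomposeFin.symm (q.succ, e)).SameCycle 0 q.succ := by
  have h := (Equiv.Perm.sameCycle_apply_right (f := Equiv.Perm.decomposeFin.symm (q.succ, e))
    (x := 0) (y := 0)).2 (Equiv.Perm.SameCycle.refl _ _)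
  rwa [er_dec_zero q e] at h

theorem er_sameCycle_step_right (σ : Equiv.Perm (Fin (n + 1))) {x y : Fin (n + 1)} (h : σ x = y) :
    σ.SameCycle x y := by
  rw [← h, Equiv.Perm.sameCycle_apply_right]

theorem er_sameCycle_dec_step (x : Fin n) :
    (Equiv.Perm.decomposeFin.symm (q.succ, e)).SameCycle x.succ (e x).succ := by
  by_cases h : e x = q
  · rw [h]
    exact (er_sameCycle_step_right _ (er_dec_succ_of_eq q e h)).trans (er_sameCycle_zero_q q e)
  · exact er_sameCycle_step_right _ (er_dec_succ_of_ne q e h)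

theorem er_sameCycle_succ_of {x y : Fin n} (h : e.SameCycle x y) :
    (Equiv.Perm.decomposeFin.symm (q.succ, e)).SameCycle x.succ y.succ :=
  er_sameCycle_of_step e _ Fin.succ (er_sameCycle_dec_step q e) h

/-- `0` is glued to `q`. -/
def erGlue : Fin (n + 1) → Fin n := Fin.cases q id

theorem er_sameCycle_glue {z w : Fin (n + 1)}
    (h : (Equiv.Perm.decomposeFin.symm (q.succ, e)).SameCycle z w) :
    e.SameCycle (erGlue q z) (erGlue q w) := by
  refine er_sameCycle_of_step _ e (erGlue q) (fun z => ?_) h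
  refine Fin.cases ?_ ?_ z
  · rw [er_dec_zero]
    exact Equiv.Perm.SameCycle.refl _ _
  · intro x
    by_cases h : e x = q
    · rw [er_dec_succ_of_eq q e h]
      show e.SameCycle x q
      rw [← h, Equiv.Perm.sameCycle_apply_right]
    · rw [er_dec_succ_of_ne q e h]
      show e.SameCycle x (e x)
      rw [Equiv.Perm.sameCycle_apply_right]

theorem er_sameCycle_succ_iff (x y : Fin n) :
    (Equiv.Perm.decomposeFin.symm (q.succ, e)).SameCycle x.succ y.succ ↔ e.SameCycle x y :=
  ⟨fun h => er_sameCycle_glue q e h, fun h => er_sameCycle_succ_of q e h⟩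

theorem er_sameCycle_zero_succ_iff (x : Fin n) :
    (Equiv.Perm.decomposeFin.symm (q.succ, e)).SameCycle x.succ 0 ↔ e.SameCycle x q := by
  constructor
  · exact fun h => er_sameCycle_glue q e h
  · intro h
    exact (er_sameCycle_succ_of q e h).trans (er_sameCycle_zero_q q e).symm

theorem er_cyc_succ (x : Fin n) : cyc (Equiv.Perm.decomposeFin.symm (q.succ, e)) x.succ =
    if q ∈ cyc e x then insert 0 ((cyc e x).map (Fin.succEmb n))
      else (cyc e x).map (Fin.succEmb n) := by
  ext z
  rw [mem_cyc]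
  refine Fin.cases ?_ ?_ z
  · rw [er_sameCycle_zero_succ_iff, ← mem_cyc]
    split_ifs with h
    · simp [h]
    · simp only [h, Finset.mem_map, Fin.coe_succEmb, Fin.succ_ne_zero, and_false,
        exists_false]
  · intro y
    rw [er_sameCycle_succ_iff, ← mem_cyc]
    split_ifs with h
    · simp only [Finset.mem_insert, Fin.succ_ne_zero, false_or, Finset.mem_map, Fin.coe_succEmb,
        Fin.succ_inj, exists_eq_right]
    · simp only [Finset.mem_map, Fin.coe_succEmb, Fin.succ_inj, exists_eq_right]

theorem er_cyc_zero : cyc (Equiv.Perm.decomposeFin.symm (q.succ, e)) 0 =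
    cyc (Equiv.Perm.decomposeFin.symm (q.succ, e)) q.succ := by
  ext z
  rw [mem_cyc, mem_cyc]
  exact ⟨fun h => (er_sameCycle_zero_q q e).symm.trans h, fun h => (er_sameCycle_zero_q q e).trans h⟩

end succ

theorem cycles_succ {n : ℕ} (q : Fin n) (e : Equiv.Perm (Fin n)) :
    cycles (Equiv.Perm.decomposeFin.symm (q.succ, e)) =
      (cycles e).image (fun C => if q ∈ C then insert 0 (C.map (Fin.succEmb n))
        else C.map (Fin.succEmb n)) := by
  unfold cycles
  ext C
  simp only [Finset.mem_image, Finset.mem_univ, true_and, exists_exists_eq_and]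
  constructor
  · rintro ⟨z, rfl⟩
    refine Fin.cases ?_ ?_ z
    · exact ⟨q, by rw [er_cyc_zero, er_cyc_succ]⟩
    · intro x
      exact ⟨x, by rw [er_cyc_succ]⟩
  · rintro ⟨x, rfl⟩
    exact ⟨x.succ, by rw [er_cyc_succ]⟩

end W5a2b73
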