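import Pool.Agent.W_5a2b73_h94.ERecA

/-!
Combinatorics of the classes `e_a = ∑_σ ∏_{cycles} κ_{a(C)}`.

`eCl_cons`: use `Equiv.Perm.decomposeFin : Perm (Fin (n+1)) ≃ Fin (n+1) × Perm (Fin n)`.
For `σ = decomposeFin.symm (0, e)`: `σ 0 = 0`, `σ x.succ = (e x).succ`, so
`cycles σ = insert {0} (image (map succ) (cycles e))`.
For `σ = decomposeFin.symm (q.succ, e)`: `σ 0 = q.succ`, `σ x.succ = (e x).succ` if `e x ≠ q`,
`σ x.succ = 0` if `e x = q`; so `cycles σ = (cycles e).image φ` with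
`φ C = if q ∈ C then insert 0 (C.map succ) else C.map succ` (injective), and
`∑_{j ∈ φ C} (Fin.cons b a) j = ∑_{j ∈ C} (Function.update a q (a q + b)) j`.
Helpful: `SameCycle σ x.succ y.succ ↔ SameCycle e x y` and `SameCycle σ 0 y.succ ↔ SameCycle e q y`:
if `π : Fin (n+1) → Fin n` is `0 ↦ q`, `x.succ ↦ x`, then `SameCycle e (π z) (π (σ z))` for all `z`;
conversely `SameCycle σ x.succ (e x).succ`.
-/

open MvPolynomial Finset

namespace W5a2b73

theorem ERecB_mem_phi {n : ℕ} (q : Fin n) (C : Finset (Fin n)) (x : Fin n) :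
    x.succ ∈ (if q ∈ C then insert 0 (C.map (Fin.succEmb n)) else C.map (Fin.succEmb n)) ↔
      x ∈ C := by
  have h : x.succ ∈ C.map (Fin.succEmb n) ↔ x ∈ C := by
    rw [Finset.mem_map]
    constructor
    · rintro ⟨y, hy, hxy⟩
      rw [Fin.coe_succEmb, Fin.succ_inj] at hxy
      rwa [← hxy]
    · intro hx
      exact ⟨x, hx, rfl⟩
  split_ifs
  · rw [Finset.mem_insert, h]
    simp [Fin.succ_ne_zero]
  · exact h

theorem ERecB_phi_inj {n : ℕ} (q : Fin n) : Function.Injective (fun C : Finset (Fin n) =>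
    if q ∈ C then insert 0 (C.map (Fin.succEmb n)) else C.map (Fin.succEmb n)) := by
  intro C C' h
  ext x
  have h1 := ERecB_mem_phi q C x
  have h2 := ERecB_mem_phi q C' x
  rw [← h1, ← h2]
  exact iff_of_eq (congrArg (fun D : Finset (Fin (n + 1)) => x.succ ∈ D) h)

theorem ERecB_sum_map {n : ℕ} (b : ℕ) (a : Fin n → ℕ) (C : Finset (Fin n)) :
    ∑ j ∈ C.map (Fin.succEmb n), (Fin.cons b a : Fin (n + 1) → ℕ) j = ∑ j ∈ C, a j := by
  rw [Finset.sum_map]
  rfl

theorem ERecB_zero_notMem {n : ℕ} (C : Finset (Fin n)) :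
    (0 : Fin (n + 1)) ∉ C.map (Fin.succEmb n) := by
  rw [Finset.mem_map]
  rintro ⟨y, -, hy⟩
  exact Fin.succ_ne_zero y hy

theorem ERecB_sum_phi {n : ℕ} (b : ℕ) (a : Fin n → ℕ) (q : Fin n) (C : Finset (Fin n)) :
    ∑ j ∈ (if q ∈ C then insert 0 (C.map (Fin.succEmb n)) else C.map (Fin.succEmb n)),
      (Fin.cons b a : Fin (n + 1) → ℕ) j = ∑ j ∈ C, Function.update a q (a q + b) j := by
  by_cases hq : q ∈ C
  · rw [if_pos hq, Finset.sum_insert (ERecB_zero_notMem C), ERecB_sum_map, Fin.cons_zero,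
      Finset.sum_update_of_mem hq, ← Finset.add_sum_erase C a hq, Finset.sdiff_singleton_eq_erase]
    ring
  · rw [if_neg hq, ERecB_sum_map]
    refine Finset.sum_congr rfl fun j hj => ?_
    rw [Function.update_of_ne]
    rintro rfl
    exact hq hj

theorem eCl_zero {R : Type*} [CommRing R] (κ : ℕ → R) (a : Fin 0 → ℕ) : eCl κ a = 1 := by
  unfold eCl cycles
  simp

theorem eCl_cons {R : Type*} [CommRing R] (κ : ℕ → R) {n : ℕ} (b : ℕ) (a : Fin n → ℕ) :
    eCl κ (Fin.cons b a : Fin (n + 1) → ℕ) =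
      κ b * eCl κ a + ∑ i, eCl κ (Function.update a i (a i + b)) := by
  classical
  have h0 : eCl κ (Fin.cons b a : Fin (n + 1) → ℕ) =
      ∑ p : Fin (n + 1) × Equiv.Perm (Fin n),
        ∏ C ∈ cycles (Equiv.Perm.decomposeFin.symm p),
          κ (∑ j ∈ C, (Fin.cons b a : Fin (n + 1) → ℕ) j) := by
    unfold eCl
    exact (Equiv.sum_comp Equiv.Perm.decomposeFin.symm (fun σ : Equiv.Perm (Fin (n + 1)) =>
      ∏ C ∈ cycles σ, κ (∑ j ∈ C, (Fin.cons b a : Fin (n + 1) → ℕ) j))).symm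
  rw [h0, Fintype.sum_prod_type, Fin.sum_univ_succ]
  congr 1
  · unfold eCl
    rw [Finset.mul_sum]
    refine Finset.sum_congr rfl fun e _ => ?_
    rw [cycles_zero, Finset.prod_insert, Finset.sum_singleton, Fin.cons_zero,
      Finset.prod_image (fun C _ C' _ h => Finset.map_injective _ h)]
    · congr 1
      refine Finset.prod_congr rfl fun C _ => ?_
      rw [ERecB_sum_map]
    · intro h
      obtain ⟨C, -, hC⟩ := Finset.mem_image.1 h
      apply ERecB_zero_notMem C
      rw [hC]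
      exact Finset.mem_singleton_self _
  · refine Finset.sum_congr rfl fun q _ => ?_
    unfold eCl
    refine Finset.sum_congr rfl fun e _ => ?_
    rw [cycles_succ, Finset.prod_image (fun C _ C' _ h => ERecB_phi_inj q h)]
    refine Finset.prod_congr rfl fun C _ => ?_
    rw [ERecB_sum_phi]

end W5a2b73
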