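import Pool.Agent.W_5a2b73_h94.ERecA

/-!
Combinatorics of the classes `e_a = ∑_σ ∏_{cycles} κ_{a(C)}`.

`eCl_cons`: use `Equiv.Perm.decomposeFin : Perm (Fin (n+1)) ≃ Fin (n+1) × Perm (Fin n)`.
For `σ = decomposeFin.symm (0, e)`: `σ 0 = 0`, `σ x.succ = (e x).succ`, so
`cycles σ = insert {0} (image (map succ) (cycles e))`.
For `σ = decomposeFin.symm (q.succ, e)`: `σ 0 = q.succ`, `σ x.succ = (e x).succ` if `e x ≠ q`,
`σ x.succ = 0` if `e x = q`; so `cycles σ = (cycles e).image φ` with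
`φ C = if q ∈ C then insert 0 (C.map succ) else C.map succ` (injective), and
`∑_{j ∈ φ C} (Fin.cons b a) j = ∑_{j ∈ C} (Function.update a q (a q + b)) j`.
Helpful: `SameCycle σ x.succ y.succ ↔ SameCycle e x y` and `SameCycle σ 0 y.succ ↔ SameCycle e q y`:
if `π : Fin (n+1) → Fin n` is `0 ↦ q`, `x.succ ↦ x`, then `SameCycle e (π z) (π (σ z))` for all `z`;
conversely `SameCycle σ x.succ (e x).succ`.
-/

open MvPolynomial Finset

namespace W5a2b73

theorem ERecC_cyc_eq {n : ℕ} (σ : Equiv.Perm (Fin n)) (i j : Fin n) :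
    cyc σ j = cyc σ i ↔ j ∈ cyc σ i := by
  constructor
  · intro h
    rw [← h, mem_cyc]
  · intro h
    rw [mem_cyc] at h
    ext x
    rw [mem_cyc, mem_cyc]
    exact ⟨fun h1 => h.trans h1, fun h1 => h.symm.trans h1⟩

theorem ERecC_mem_cycles {n : ℕ} {σ : Equiv.Perm (Fin n)} {C : Finset (Fin n)}
    (hC : C ∈ cycles σ) : ∃ i, i ∈ C ∧ cyc σ i = C := by
  unfold cycles at hC
  obtain ⟨i, -, rfl⟩ := Finset.mem_image.1 hC
  exact ⟨i, (mem_cyc σ i i).2 (Equiv.Perm.SameCycle.refl _ _), rfl⟩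

theorem ERecC_one_le {n : ℕ} {σ : Equiv.Perm (Fin n)} {C : Finset (Fin n)} (hC : C ∈ cycles σ)
    {a : Fin n → ℕ} (ha : ∀ i, 1 ≤ a i) : 1 ≤ ∑ j ∈ C, a j := by
  obtain ⟨i, hi, -⟩ := ERecC_mem_cycles hC
  exact (ha i).trans (Finset.single_le_sum (fun j _ => Nat.zero_le _) hi)

theorem ERecC_sum {n : ℕ} (σ : Equiv.Perm (Fin n)) (a : Fin n → ℕ) :
    ∑ C ∈ cycles σ, ∑ j ∈ C, a j = ∑ j, a j := by
  classical
  have h1 : ∀ j ∈ (univ : Finset (Fin n)), cyc σ j ∈ cycles σ := fun j _ =>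
    Finset.mem_image_of_mem _ (Finset.mem_univ j)
  rw [← Finset.sum_fiberwise_of_maps_to h1]
  refine Finset.sum_congr rfl fun C hC => ?_
  refine Finset.sum_congr ?_ fun _ _ => rfl
  obtain ⟨i, -, rfl⟩ := ERecC_mem_cycles hC
  ext j
  rw [Finset.mem_filter, ERecC_cyc_eq]
  simp

theorem eCl_map {R S : Type*} [CommRing R] [CommRing S] (f : R →+* S) (κ : ℕ → R) {n : ℕ}
    (a : Fin n → ℕ) : f (eCl κ a) = eCl (fun i => f (κ i)) a := by
  unfold eCl
  rw [map_sum]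
  refine Finset.sum_congr rfl fun σ _ => ?_
  rw [map_prod]

/-- only the values of `κ` at the positive integers matter -/
theorem eCl_congr {R : Type*} [CommRing R] {κ κ' : ℕ → R} (h : ∀ i, 1 ≤ i → κ i = κ' i) {n : ℕ}
    (a : Fin n → ℕ) (ha : ∀ i, 1 ≤ a i) : eCl κ a = eCl κ' a := by
  unfold eCl
  refine Finset.sum_congr rfl fun σ _ => Finset.prod_congr rfl fun C hC => ?_
  exact h _ (ERecC_one_le hC ha)

/-- `e_a` as a polynomial in `κ_1 = X 0, κ_2 = X 1, ...` has weight `∑ a_i` -/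
theorem eCl_mem_V {n : ℕ} (a : Fin n → ℕ) (ha : ∀ i, 1 ≤ a i) :
    eCl (fun i => (X (i - 1) : MvPolynomial ℕ ℚ)) a ∈ V (∑ i, a i) := by
  unfold eCl V
  refine Submodule.sum_mem _ fun σ _ => ?_
  rw [mem_weightedHomogeneousSubmodule, ← ERecC_sum σ a]
  refine IsWeightedHomogeneous.prod _ _ _ fun C hC => ?_
  have h1 := ERecC_one_le hC ha
  have h2 := isWeightedHomogeneous_X ℚ wt ((∑ j ∈ C, a j) - 1)
  have h3 : wt ((∑ j ∈ C, a j) - 1) = ∑ j ∈ C, a j := Nat.sub_add_cancel h1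
  rw [h3] at h2
  exact h2

end W5a2b73
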