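import Pool.Agent.W_5a2b73_h94.LinkA

/-!
Existence of a functional on `ℚ[κ_1, κ_2, ...]` with Faber's formula.
-/

open MvPolynomial Finset

namespace W5a2b73

/-- the functional `P ↦ φ_∅(P(K)·1)` -/
noncomputable def epsU (N : ℕ) : MvPolynomial ℕ ℚ →ₗ[ℚ] ℚ where
  toFun p := phiF N (fun i : Fin 0 => i.elim0) (U p)
  map_add' p q := by simp [phiF, map_add, Phi_add]
  map_smul' r p := by simp [phiF, map_smul, Phi_smul]

theorem epsU_mul_eCl (N : ℕ) : ∀ (n : ℕ) (a : Fin n → ℕ), (∀ i, 1 ≤ a i) →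
    ∀ p : MvPolynomial ℕ ℚ,
      epsU N (p * eCl (fun i => (X (i - 1) : MvPolynomial ℕ ℚ)) a) = phiF N a (U p) := by
  intro n
  induction n with
  | zero =>
    intro a _ p
    have ha : a = fun i : Fin 0 => i.elim0 := by ext i; exact i.elim0
    subst ha
    rw [eCl_zero, mul_one]
    rfl
  | succ n ih =>
    intro a ha p
    obtain ⟨b, t, rfl⟩ : ∃ b t, a = (Fin.cons b t : Fin (n + 1) → ℕ) :=
      ⟨a 0, Fin.tail a, (Fin.cons_self_tail a).symm⟩
    have hb : 1 ≤ b := by simpa using ha 0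
    have ht : ∀ i, 1 ≤ t i := fun i => by simpa using ha i.succ
    obtain ⟨i, rfl⟩ : ∃ i, b = i + 1 := ⟨b - 1, by omega⟩
    have hup : ∀ s : Fin n, ∀ j, 1 ≤ Function.update t s (t s + (i + 1)) j := by
      intro s j
      by_cases hj : j = s
      · subst hj; simp only [Function.update_self]; omega
      · simp [Function.update_of_ne hj, ht j]
    rw [eCl_cons, mul_add, map_add, mul_sum, map_sum]
    have h1 : p * ((fun i => (X (i - 1) : MvPolynomial ℕ ℚ)) (i + 1) *
        eCl (fun i => (X (i - 1) : MvPolynomial ℕ ℚ)) t) =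
        (X i * p) * eCl (fun i => (X (i - 1) : MvPolynomial ℕ ℚ)) t := by
      simp only [Nat.add_sub_cancel]; ring
    rw [h1, ih t ht, U_X_mul, phiF_kop]
    rw [Finset.sum_congr rfl (fun s _ => ih _ (hup s) p)]
    ring

theorem exists_faber (g : ℕ) :
    ∃ ε : MvPolynomial ℕ ℚ →ₗ[ℚ] ℚ, Faber g (fun i => (X (i - 1) : MvPolynomial ℕ ℚ)) ε 1 := by
  refine ⟨epsU (2 * g - 3), ?_⟩
  intro n a ha _
  have h := epsU_mul_eCl (2 * g - 3) n a ha 1
  rw [one_mul, U_one, phiF_one] at h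
  rw [h, one_mul, div_eq_mul_inv, mul_comm, ← Finset.prod_inv_distrib]
  simp only [gam]

end W5a2b73
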