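import Pool.Agent.W_5a2b73_h94.FinDefs
import Pool.Agent.W_5a2b73_h94.CountB

/-!
Final assembly.

`ker_bound`: the left kernel `𝒦 ⊂ V k`; the linear map `𝒦 → (B → ℚ)`,
`P ↦ ((m,τ) ↦ Phi (N+1) ((w - τ.sum + bt m) :: toQ τ.toList) (pderiv m (sc (U P))))` is injective by
`thmB` (`TC_of_pairing`, `Phi_perm` for lists with the same multiset), so
`finrank 𝒦 ≤ B.card ≤ #Partition (2k-3-w)`, and `2k-3-w = 3k-g-1`.
-/

open MvPolynomial Finset Module

namespace W5a2b73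

variable {R : Type*} [CommRing R] [Algebra ℚ R]

theorem mem_Ker {κ : ℕ → R} {ε : R →ₗ[ℚ] ℚ} {k l : ℕ} (P : V k) :
    P ∈ Ker κ ε k l ↔ ∀ Q ∈ V l, ε (kev κ P * kev κ Q) = 0 := by
  unfold Ker
  rw [LinearMap.mem_ker]
  constructor
  · intro h Q hQ
    exact LinearMap.congr_fun h ⟨Q, hQ⟩
  · intro h
    ext Q
    exact h Q.1 Q.2

private noncomputable def finAMap (κ : ℕ → R) (k : ℕ) : V k →ₗ[ℚ] Rk κ k :=
  LinearMap.codRestrict (Rk κ k) ((kev κ).toLinearMap ∘ₗ (V k).subtype)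
    (fun P => Submodule.mem_map_of_mem P.2)

private theorem finAMap_surj (κ : ℕ → R) (k : ℕ) : LinearMap.range (finAMap κ k) = ⊤ := by
  rw [LinearMap.range_eq_top]
  intro y
  obtain ⟨P, hP, hy⟩ := y.2
  exact ⟨⟨P, hP⟩, Subtype.ext hy⟩

private theorem finA_ker {κ : ℕ → R} {ε : R →ₗ[ℚ] ℚ} {k l : ℕ} :
    Ker κ ε k l = LinearMap.ker ((pairing κ ε k l) ∘ₗ finAMap κ k) := by
  ext P
  rw [mem_Ker, LinearMap.mem_ker]
  constructor
  · intro h
    ext y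
    obtain ⟨Q, hQ, hy⟩ := y.2
    show ε (kev κ P * y.1) = 0
    rw [← hy]
    exact h Q hQ
  · intro h Q hQ
    exact LinearMap.congr_fun h ⟨kev κ Q, Submodule.mem_map_of_mem hQ⟩

theorem rank_eq {κ : ℕ → R} {ε : R →ₗ[ℚ] ℚ} {k l : ℕ} :
    finrank ℚ (LinearMap.range (pairing κ ε k l)) + finrank ℚ (Ker κ ε k l) =
      Fintype.card (Nat.Partition k) := by
  rw [← finrank_V k, finA_ker, ← LinearMap.finrank_range_add_finrank_ker
    ((pairing κ ε k l) ∘ₗ finAMap κ k)]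
  congr 1
  rw [LinearMap.range_comp, finAMap_surj, Submodule.map_top]

end W5a2b73
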