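import Pool.Agent.W_5a2b73_h94.KopU

/-!
The operators `K_i = X_i - V_i`, `V_i = ∑_j X_{j+i+1} ∂_j`, and the map `U(P) = P(K)·1`.

* `kop_comm`: `V_i (X_j) = X_{j+i+1} = V_j (X_i)` and `V_i V_j = V_j V_i` (derivations, compare on `X_l`).
* `exists_U`: the operators `kop i` commute, so `Algebra.adjoin ℚ (Set.range kop)` inside
  `Module.End ℚ (MvPolynomial ℕ ℚ)` is a commutative ring (`Algebra.adjoinCommRingOfComm`), take
  `aeval` into it and evaluate at `1`.
* `U_mem_V`: induction on monomials: `kop i` maps `V k` to `V (k+i+1)`.
* `U_injective`: `U P - P` has total degree `< totalDegree P` (or `U P = P` for `P` constant):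
  by induction on monomials, `V_i` does not raise the total degree.
-/

open MvPolynomial Finset

namespace W5a2b73

private lemma totalDegree_Vf_monomial (i : ℕ) (s : ℕ →₀ ℕ) (r : ℚ) :
    (Vf i (monomial s r)).totalDegree ≤ s.sum (fun _ e => e) := by
  unfold Vf
  rw [mkDerivation_monomial]
  refine (totalDegree_smul_le _ _).trans ?_
  unfold Finsupp.sum
  refine totalDegree_finsetSum_le ?_
  intro j hj
  simp only [smul_eq_mul]
  refine (totalDegree_mul _ _).trans ?_
  refine (add_le_add (totalDegree_monomial_le _ _) (totalDegree_X _).le).trans ?_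
  have h1 : s = (s - Finsupp.single j 1) + Finsupp.single j 1 := by
    rw [tsub_add_cancel_of_le]
    rw [Finsupp.single_le_iff]
    exact Nat.one_le_iff_ne_zero.mpr (Finsupp.mem_support_iff.mp hj)
  have h2 : (s.sum fun _ e => e) = ((s - Finsupp.single j 1).sum fun _ e => e) + 1 := by
    conv_lhs => rw [h1]
    rw [Finsupp.sum_add_index' (fun _ => rfl) (fun _ _ _ => rfl)]
    simp
  have h3 : (∑ a ∈ s.support, s a) = s.sum fun _ e => e := rfl
  rw [h3, h2]
  exact le_rfl

private lemma totalDegree_Vf_le (i : ℕ) (p : MvPolynomial ℕ ℚ) :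
    (Vf i p).totalDegree ≤ p.totalDegree := by
  conv_lhs => rw [p.as_sum]
  rw [map_sum]
  refine totalDegree_finsetSum_le ?_
  intro s hs
  refine (totalDegree_Vf_monomial i s _).trans ?_
  exact le_totalDegree hs

private lemma U_sub_monomial (n : ℕ) : ∀ (s : ℕ →₀ ℕ) (r : ℚ), s.sum (fun _ e => e) ≤ n →
    (U (monomial s r) - monomial s r).totalDegree ≤ n - 1 ∧
      (n = 0 → U (monomial s r) = monomial s r) := by
  have hC : ∀ r : ℚ, U (C r) = C r := by
    intro r
    have : (C r : MvPolynomial ℕ ℚ) = r • (1 : MvPolynomial ℕ ℚ) := by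
      rw [smul_eq_C_mul, mul_one]
    rw [this, map_smul, U_one]
  have h0 : ∀ (s : ℕ →₀ ℕ) (r : ℚ), s = 0 → U (monomial s r) = monomial s r := by
    rintro s r rfl
    exact hC r
  induction n with
  | zero =>
    intro s r hs
    have hs0 : s = 0 := by
      ext a
      have h := Nat.le_zero.mp hs
      by_contra hne
      have ha : a ∈ s.support := Finsupp.mem_support_iff.mpr hne
      have : s a ≤ s.sum (fun _ e => e) :=
        Finset.single_le_sum (f := fun a => s a) (fun _ _ => Nat.zero_le _) ha
      rw [h] at this
      exact hne (Nat.le_zero.mp this)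
    rw [h0 s r hs0]
    simp
  | succ n ih =>
    intro s r hs
    refine ⟨?_, fun h => absurd h (Nat.succ_ne_zero n)⟩
    by_cases hs0 : s = 0
    · rw [h0 s r hs0]; simp
    · obtain ⟨j, hj⟩ : ∃ j, j ∈ s.support := by
        by_contra hne
        push Not at hne
        exact hs0 (by ext a; simpa using hne a)
      have h1 : s = Finsupp.single j 1 + (s - Finsupp.single j 1) := by
        rw [add_tsub_cancel_of_le]
        rw [Finsupp.single_le_iff]
        exact Nat.one_le_iff_ne_zero.mpr (Finsupp.mem_support_iff.mp hj)
      set t := s - Finsupp.single j 1 with ht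
      have h2 : (s.sum fun _ e => e) = 1 + (t.sum fun _ e => e) := by
        conv_lhs => rw [h1]
        rw [Finsupp.sum_add_index' (fun _ => rfl) (fun _ _ _ => rfl)]
        simp
      have ht' : (t.sum fun _ e => e) ≤ n := by omega
      have hm : (monomial s r : MvPolynomial ℕ ℚ) = X j * monomial t r := by
        rw [h1, X, monomial_mul, one_mul]
      rw [hm, U_X_mul, kop_apply]
      obtain ⟨a1, a2⟩ := ih t r ht'
      have hU : (U (monomial t r)).totalDegree ≤ n := by
        have : U (monomial t r) = (U (monomial t r) - monomial t r) + monomial t r := by ring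
        rw [this]
        refine (totalDegree_add _ _).trans ?_
        refine max_le (a1.trans (Nat.sub_le _ _)) ?_
        exact (totalDegree_monomial_le _ _).trans ht'
      have e : X j * U (monomial t r) - Vf j (U (monomial t r)) - X j * monomial t r
          = X j * (U (monomial t r) - monomial t r) - Vf j (U (monomial t r)) := by ring
      rw [e]
      refine (totalDegree_sub _ _).trans ?_
      refine max_le ?_ ((totalDegree_Vf_le _ _).trans (by simpa using hU))
      rcases Nat.eq_zero_or_pos n with hn | hn
      · rw [a2 hn]; simp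
      · refine (totalDegree_mul _ _).trans ?_
        have := add_le_add (totalDegree_X (R := ℚ) j).le a1
        refine this.trans ?_
        omega

private lemma U_sub_le (n : ℕ) (p : MvPolynomial ℕ ℚ) (hp : p.totalDegree ≤ n) :
    (U p - p).totalDegree ≤ n - 1 ∧ (n = 0 → U p = p) := by
  have key : ∀ s ∈ p.support, s.sum (fun _ e => e) ≤ n := fun s hs => (le_totalDegree hs).trans hp
  constructor
  · have e : U p - p = ∑ s ∈ p.support, (U (monomial s (coeff s p)) - monomial s (coeff s p)) := by
      rw [Finset.sum_sub_distrib, ← map_sum, ← p.as_sum]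
    rw [e]
    exact totalDegree_finsetSum_le fun s hs => (U_sub_monomial n s _ (key s hs)).1
  · intro hn
    conv_lhs => rw [p.as_sum]
    rw [map_sum]
    conv_rhs => rw [p.as_sum]
    exact Finset.sum_congr rfl fun s hs => (U_sub_monomial n s _ (key s hs)).2 hn

theorem U_injective : Function.Injective U := by
  rw [injective_iff_map_eq_zero]
  have key : ∀ n : ℕ, ∀ p : MvPolynomial ℕ ℚ, p.totalDegree ≤ n → U p = 0 → p = 0 := by
    intro n
    induction n with
    | zero =>
      intro p hp h
      rw [← (U_sub_le 0 p hp).2 rfl, h]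
    | succ n ih =>
      intro p hp h
      have h1 := (U_sub_le (n + 1) p hp).1
      rw [h, zero_sub, totalDegree_neg] at h1
      exact ih p (by simpa using h1) h
  intro p hp
  exact key _ p le_rfl hp

end W5a2b73
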