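import Pool.Agent.W_5a2b73_h94.Defs
import Pool.Agent.W_5a2b73_h94.Rr

/-! The scaling `sc`: `X_i ↦ X_i / γ_{i+1}` (inverse: `X_i ↦ γ_{i+1} X_i`). -/

open MvPolynomial Finset

namespace W5a2b73

private theorem Sc_gam_ne (a : ℕ) : gam a ≠ 0 := by
  unfold gam
  have h : 0 < (2 * a + 1).doubleFactorial := Nat.doubleFactorial_pos _
  positivity

private theorem Sc_monomial (d : ℕ →₀ ℕ) (c : ℚ) :
    sc (monomial d c) = monomial d (c * d.prod (fun i e => ((gam (i + 1))⁻¹) ^ e)) := by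
  unfold sc
  rw [aeval_monomial, monomial_eq (s := d) (a := c * d.prod (fun i e => ((gam (i + 1))⁻¹) ^ e))]
  simp only [Finsupp.prod, mul_pow, Finset.prod_mul_distrib, map_mul, map_prod, map_pow]
  rw [← mul_assoc]
  rfl

theorem sc_mem_V {k : ℕ} {P : MvPolynomial ℕ ℚ} (h : P ∈ V k) : sc P ∈ V k := by
  classical
  unfold V at h ⊢
  have hP : sc P = ∑ d ∈ P.support, monomial d
      (coeff d P * d.prod (fun i e => ((gam (i + 1))⁻¹) ^ e)) := by
    conv_lhs => rw [P.as_sum]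
    rw [map_sum]
    exact Finset.sum_congr rfl fun d _ => Sc_monomial d _
  rw [hP]
  refine Submodule.sum_mem _ fun d hd => ?_
  rw [mem_weightedHomogeneousSubmodule]
  rw [mem_weightedHomogeneousSubmodule] at h
  exact isWeightedHomogeneous_monomial _ _ _ (h (mem_support_iff.mp hd))

theorem sc_injective : Function.Injective sc := by
  have key : (aeval (fun i => C (gam (i + 1)) * X i) :
      MvPolynomial ℕ ℚ →ₐ[ℚ] MvPolynomial ℕ ℚ).comp sc = AlgHom.id ℚ _ := by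
    apply MvPolynomial.algHom_ext
    intro i
    have hg : gam (i + 1) ≠ 0 := Sc_gam_ne _
    simp only [sc, AlgHom.comp_apply, aeval_X, map_mul, AlgHom.id_apply]
    rw [show (aeval (fun i => C (gam (i + 1)) * X i) :
      MvPolynomial ℕ ℚ →ₐ[ℚ] MvPolynomial ℕ ℚ) (C ((gam (i + 1))⁻¹)) = C ((gam (i + 1))⁻¹) from
        by rw [aeval_C]; rfl]
    rw [← mul_assoc, ← C_mul, inv_mul_cancel₀ hg, C_1, one_mul]
  intro P Q h
  have h1 := congrArg (aeval (fun i => C (gam (i + 1)) * X i) :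
      MvPolynomial ℕ ℚ →ₐ[ℚ] MvPolynomial ℕ ℚ) h
  have h2 : ∀ R : MvPolynomial ℕ ℚ, (aeval (fun i => C (gam (i + 1)) * X i) :
      MvPolynomial ℕ ℚ →ₐ[ℚ] MvPolynomial ℕ ℚ) (sc R) = R := by
    intro R
    have := congrArg (fun f : MvPolynomial ℕ ℚ →ₐ[ℚ] MvPolynomial ℕ ℚ => f R) key
    simpa using this
  rw [h2, h2] at h1
  exact h1

end W5a2b73
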