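import Pool.Agent.W_5a2b73_h94.LinkA
import Pool.Agent.W_5a2b73_h94.Dil
import Pool.Agent.W_5a2b73_h94.Sc

/-!
Link between the pairing on the tautological ring and the functionals `φ_a`.
`link`: by linearity it is enough to treat monomials (every `P ∈ V k` is a combination of monomials
of weight `k`); induction on the monomial (`X i * P`):
`ε(κ_b P e_a) = ε(P (e_{(b,a)} - ∑_t e_{a[t]+b})) = c (φ_{(b,a)}(U P) - ∑_t φ_{a[t]+b}(U P))
 = c φ_a(kop i (U P)) = c φ_a(U (X_i P))` (`eCl_cons`, `phiF_kop`, `U_X_mul`).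
`TC_of_phi`: the test lists of `TC` have `W - τ.sum ≥ 0`; if it is `0` use the dilaton equation.
-/

open MvPolynomial Finset

namespace W5a2b73

private theorem linkB_toQ (τ : List ℕ) : toQ τ = τ.map (Nat.cast : ℕ → ℚ) := by
  unfold toQ
  induction τ with
  | nil => rfl
  | cons a τ ih =>
    simp only [List.bind_eq_flatMap, List.flatMap_cons, List.map_append, List.map_cons]
    simp only [List.bind_eq_flatMap] at ih
    rw [ih]
    rfl

private theorem linkB_Phi {R : Type*} [CommRing R] [Algebra ℚ R] {g : ℕ} {κ : ℕ → R}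
    {ε : R →ₗ[ℚ] ℚ} {c : ℚ} (hc : c ≠ 0) (hF : Faber g κ ε c) {k w : ℕ}
    (hkw : k + w = g - 2) {P : MvPolynomial ℕ ℚ} (hP : P ∈ V k)
    (h : ∀ Q ∈ V w, ε (kev κ P * kev κ Q) = 0) (l : List ℕ) (hl : ∀ x ∈ l, 1 ≤ x)
    (hs : l.sum = w) : Phi (2 * g - 3) (toQ l) (sc (U P)) = 0 := by
  have ha : ∀ i, 1 ≤ l.get i := fun i => hl _ (List.get_mem l i)
  have hsum : ∑ i, l.get i = w := by
    rw [← hs, ← List.sum_ofFn, List.ofFn_get]
  have hmem := eCl_mem_V l.get ha
  rw [hsum] at hmem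
  have h1 := h _ hmem
  have h2 : kev κ (eCl (fun i => (X (i - 1) : MvPolynomial ℕ ℚ)) l.get) = eCl κ l.get := by
    have h3 := eCl_map (kev κ).toRingHom (fun i => (X (i - 1) : MvPolynomial ℕ ℚ)) l.get
    have h4 : (fun i => (kev κ).toRingHom (X (i - 1) : MvPolynomial ℕ ℚ)) =
        fun i => κ (i - 1 + 1) := by
      funext i
      exact aeval_X _ _
    rw [h4] at h3
    refine h3.trans (eCl_congr (fun i hi => ?_) _ ha)
    rw [Nat.sub_add_cancel hi]
  rw [h2, link hF hP l.get ha (by rw [hsum, hkw])] at h1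
  have h5 := (mul_eq_zero.1 h1).resolve_left hc
  have hne : (∏ i, (gam (l.get i))⁻¹) ≠ 0 := by
    refine Finset.prod_ne_zero_iff.2 fun i _ => inv_ne_zero ?_
    unfold gam
    exact_mod_cast (Nat.doubleFactorial_pos _).ne'
  have h6 := (mul_eq_zero.1 h5).resolve_left hne
  have h7 : List.ofFn (fun i => ((l.get i : ℕ) : ℚ)) = toQ l := by
    have : (fun i => ((l.get i : ℕ) : ℚ)) = (fun x : ℕ => (x : ℚ)) ∘ l.get := rfl
    rw [this, ← List.map_ofFn, List.ofFn_get, linkB_toQ]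
  rw [h7] at h6
  exact h6

/-- if `P` (weight `k`) pairs to zero with all polynomials of weight `w = g - 2 - k`, then
`sc (U P)` satisfies the test condition -/
theorem TC_of_pairing {R : Type*} [CommRing R] [Algebra ℚ R] {g : ℕ} {κ : ℕ → R}
    {ε : R →ₗ[ℚ] ℚ} {c : ℚ} (hg : 2 ≤ g) (hc : c ≠ 0) (hF : Faber g κ ε c) {k w : ℕ}
    (hkw : k + w = g - 2) (hw : k ≤ w + 1) {P : MvPolynomial ℕ ℚ} (hP : P ∈ V k)
    (h : ∀ Q ∈ V w, ε (kev κ P * kev κ Q) = 0) :
    TC k (2 * w + 2 * k + 1) (w : ℚ) (sc (U P)) := by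
  intro τ hτ hτk
  have hN : 2 * w + 2 * k + 1 = 2 * g - 3 := by omega
  have hsum : (τ.map (fun x => x + 1)).sum = τ.sum + τ.length := by
    clear hτ hτk
    induction τ with
    | nil => rfl
    | cons x τ ih => simp only [List.map_cons, List.sum_cons, List.length_cons, ih]; omega
  have hle : τ.sum ≤ w := by
    rcases τ.eq_nil_or_concat with h0 | ⟨l, b, h0⟩
    · subst h0; simp
    · have : 1 ≤ τ.length := by rw [h0]; simp
      omega
  rw [hN]
  rcases Nat.eq_or_lt_of_le hle with h0 | h0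
  · have h1 : (w : ℚ) - (τ.sum : ℚ) = 0 := by rw [h0, sub_self]
    rw [h1, Phi_zero_cons, linkB_Phi hc hF hkw hP h τ hτ h0, mul_zero]
  · have h1 := linkB_Phi hc hF hkw hP h ((w - τ.sum) :: τ) (by
      intro x hx
      rcases List.mem_cons.1 hx with hx | hx
      · omega
      · exact hτ x hx) (by
      rw [List.sum_cons]
      omega)
    have h2 : toQ ((w - τ.sum) :: τ) = ((w : ℚ) - (τ.sum : ℚ)) :: toQ τ := by
      rw [linkB_toQ, linkB_toQ, List.map_cons, Nat.cast_sub hle]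
    rw [h2] at h1
    exact h1

end W5a2b73
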