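import Pool.Agent.W_5a2b73_h94.ThmA

/-!
The two main algebraic theorems.

`thmA`: strong induction on `k + m`.
* `m = 0`: `V_SV_zero`; for `k = 0`, `P = C a` and `TC` with `τ = []` gives `a (N+1)! = 0`.
* `m + 1` with `m + 1 > k`: `SV_of_V` gives `SV m P` (`SV k P` and `k ≤ m`); induction.
* `m + 1 ≤ k`: put `P' = pderiv m P ∈ V (k-(m+1))` (`pderiv_mem_V`), `SV (m+1) P'` (`pderiv_cd`,
  `pderiv_eq_cd`), `ω' = ω + 2m + 3`, `N' = N + 1`.  `TC (k-(m+1)) (N+1) (ω'/2) P'` is `step` for
  every `τ` (if `τ ≠ []` then `τ.sum + 2 ≤ ... ≤ k - m`; if `ω` is odd the numbers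
  `ω/2 - τ.sum - i - j` are not integers; if `ω` is even,
  `ω/2 - τ.sum ≥ k + m - 1 - τ.sum > 2m - 1`).  By induction `P' = 0`, so `SV m P`; induction again.

`thmB`: show `SV m P` for `m = k, k-1, ..., 0` by descending induction: `TC` for `pderiv m P` holds by
`step` (if `w - τ.sum > 2m-1`) or by `hbad`; then `thmA` with `(k-(m+1), m+1, 2w+2m+3)` (odd).
-/

open MvPolynomial Finset

namespace W5a2b73

theorem thmB (k N w : ℕ) (hw : k ≤ w + 1) (hN : N = 2 * w + 2 * k + 1)
    (P : MvPolynomial ℕ ℚ) (hV : P ∈ V k) (hT : TC k N (w : ℚ) P)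
    (hbad : ∀ m < k, ∀ τ : List ℕ, (∀ x ∈ τ, 1 ≤ x) →
      (τ.map (fun x => x + 1)).sum + (m + 1) ≤ k → w + 1 ≤ τ.sum + 2 * m →
      Phi (N + 1) (((w : ℚ) - (τ.sum : ℚ) + bt m) :: toQ τ) (pderiv m P) = 0) :
    P = 0 := by
  have key : ∀ n : ℕ, n ≤ k → SV (k - n) P := by
    intro n
    induction n with
    | zero =>
      intro _ i hi
      exact SV_of_V hV i (by omega)
    | succ n ih =>
      intro hn
      obtain ⟨m, hm⟩ : ∃ m, k - n = m + 1 := ⟨k - n - 1, by omega⟩
      have hS : SV (m + 1) P := by rw [← hm]; exact ih (by omega)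
      have hmk : m + 1 ≤ k := by omega
      have hm' : k - (n + 1) = m := by omega
      rw [hm']
      have hP' : pderiv m P = 0 := by
        refine thmA (k - (m + 1)) (m + 1) (N + 1) (2 * (w : ℤ) + 2 * m + 3) ?_ (by omega)
          (pderiv m P) (pderiv_mem_V hV hmk) ?_ ?_
        · refine Or.inl ⟨⟨(w : ℤ) + m + 1, by ring⟩, by omega⟩
        · intro i hi
          rw [pderiv_eq_cd m P, pderiv_cd, hS i hi, map_zero]
        · intro τ hτ hτk
          have hcast : (((2 * (w : ℤ) + 2 * m + 3 : ℤ) : ℚ) / 2 - (τ.sum : ℚ)) =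
              ((w : ℚ) - (τ.sum : ℚ) + bt m) := by
            rw [bt]; push_cast; ring
          rw [hcast]
          by_cases hb : w + 1 ≤ τ.sum + 2 * m
          · exact hbad m (by omega) τ hτ (by omega) hb
          · have hle : τ.sum + 2 * m ≤ w := by omega
            have hleQ : ((τ.sum : ℚ) + 2 * (m : ℚ)) ≤ (w : ℚ) := by exact_mod_cast hle
            have hm0 : (0 : ℚ) ≤ (m : ℚ) := Nat.cast_nonneg m
            refine step (k := k) (m := m) (N := N) (W := (w : ℚ)) (P := P)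
              (by rw [hN]; push_cast; ring) hV hS hT τ hτ (by omega) (by linarith) ?_
            intro i j hi hij hj heq
            have h1 : i + j ≤ 2 * (m : ℤ) - 1 := by omega
            have h2 : ((i + j : ℤ) : ℚ) ≤ ((2 * (m : ℤ) - 1 : ℤ) : ℚ) := by exact_mod_cast h1
            push_cast at h2
            linarith
      intro i hi
      rcases Nat.eq_or_lt_of_le hi with h | h
      · rw [← h]; exact hP'
      · exact hS i h
  have hS0 : SV 0 P := by
    have h := key k le_rfl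
    rwa [Nat.sub_self] at h
  refine thmA k 0 N (2 * (w : ℤ)) ?_ (by omega) P hV hS0 ?_
  · refine Or.inr ⟨⟨(w : ℤ), by ring⟩, ?_⟩
    omega
  · have : (((2 * (w : ℤ) : ℤ) : ℚ) / 2) = (w : ℚ) := by push_cast; ring
    rw [this]
    exact hT

end W5a2b73
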