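import Pool.Agent.W_5a2b73_h94.FinA
import Pool.Agent.W_5a2b73_h94.LinkB
import Pool.Agent.W_5a2b73_h94.CountA
import Pool.Agent.W_5a2b73_h94.ThmB
import Pool.Agent.W_5a2b73_h94.KopI
import Pool.Agent.W_5a2b73_h94.Sc

/-!
Final assembly.

`ker_bound`: the left kernel `𝒦 ⊂ V k`; the linear map `𝒦 → (B → ℚ)`,
`P ↦ ((m,τ) ↦ Phi (N+1) ((w - τ.sum + bt m) :: toQ τ.toList) (pderiv m (sc (U P))))` is injective by
`thmB` (`TC_of_pairing`, `Phi_perm` for lists with the same multiset), so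
`finrank 𝒦 ≤ B.card ≤ #Partition (2k-3-w)`, and `2k-3-w = 3k-g-1`.
-/

open MvPolynomial Finset Module

namespace W5a2b73

variable {R : Type*} [CommRing R] [Algebra ℚ R]

private theorem finB_toQ (τ : List ℕ) : toQ τ = τ.map (Nat.cast : ℕ → ℚ) := by
  unfold toQ
  induction τ with
  | nil => rfl
  | cons a τ ih =>
    simp only [List.bind_eq_flatMap, List.flatMap_cons, List.map_append, List.map_cons]
    simp only [List.bind_eq_flatMap] at ih
    rw [ih]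
    rfl

private noncomputable def finBPhi (N : ℕ) (cs : List ℚ) : MvPolynomial ℕ ℚ →ₗ[ℚ] ℚ where
  toFun := Phi N cs
  map_add' := Phi_add N cs
  map_smul' := Phi_smul N cs

private theorem finB_inj {E F : Type*} [AddCommGroup E] [Module ℚ E] [AddCommGroup F]
    [Module ℚ F] (f : E →ₗ[ℚ] F) (h : ∀ x, f x = 0 → x = 0) : Function.Injective f :=
  (injective_iff_map_eq_zero f).2 h

theorem eq_zero_of_mem_Ker {g : ℕ} (hg : 2 ≤ g) {κ : ℕ → R} {ε : R →ₗ[ℚ] ℚ} {c : ℚ}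
    (hc : c ≠ 0) (hF : Faber g κ ε c) {k w : ℕ} (hkw : k + w = g - 2) (hw : k ≤ w + 1)
    {P : MvPolynomial ℕ ℚ} (hP : P ∈ V k) (h : ∀ Q ∈ V w, ε (kev κ P * kev κ Q) = 0)
    (hbad : ∀ m < k, ∀ τ : List ℕ, (∀ x ∈ τ, 1 ≤ x) →
      (τ.map (fun x => x + 1)).sum + (m + 1) ≤ k → w + 1 ≤ τ.sum + 2 * m →
      Phi (2 * w + 2 * k + 1 + 1) (((w : ℚ) - (τ.sum : ℚ) + bt m) :: toQ τ)
        (pderiv m (sc (U P))) = 0) : P = 0 := by
  have h1 := thmB k (2 * w + 2 * k + 1) w hw rfl (sc (U P)) (sc_mem_V (U_mem_V hP))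
    (TC_of_pairing hg hc hF hkw hw hP h) hbad
  have h2 : U P = 0 := sc_injective (by rw [h1, map_zero])
  exact U_injective (by rw [h2, map_zero])

theorem finB_no_bad {g : ℕ} (hg : 2 ≤ g) {κ : ℕ → R} {ε : R →ₗ[ℚ] ℚ} {c : ℚ}
    (hc : c ≠ 0) (hF : Faber g κ ε c) {k w : ℕ} (hkw : k + w = g - 2) (hw : k ≤ w + 1)
    (hk : 2 * k ≤ w + 2)
    {P : MvPolynomial ℕ ℚ} (hP : P ∈ V k) (h : ∀ Q ∈ V w, ε (kev κ P * kev κ Q) = 0) :
    P = 0 :=
  eq_zero_of_mem_Ker hg hc hF hkw hw hP h fun m hm τ hτ h1 h2 =>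
    absurd h2 (no_bad k w m τ hk hm hτ h1)

theorem ker_bound {g : ℕ} (hg : 2 ≤ g) {κ : ℕ → R} {ε : R →ₗ[ℚ] ℚ} {c : ℚ} (hc : c ≠ 0)
    (hF : Faber g κ ε c) {k : ℕ} (hk : 2 * k + 1 ≤ g) :
    finrank ℚ (Ker κ ε k (g - 2 - k)) ≤ defect g k := by
  have hkw : k + (g - 2 - k) = g - 2 := by omega
  have hw : k ≤ g - 2 - k + 1 := by omega
  generalize hwd : g - 2 - k = w at hkw hw
  unfold defect
  split_ifs with h3
  · obtain ⟨B, hB1, hB2⟩ := bad_card k w (by omega)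
    have hdeg : 2 * k - 3 - w = 3 * k - g - 1 := by omega
    rw [hdeg] at hB2
    refine le_trans ?_ hB2
    let f : Ker κ ε k w →ₗ[ℚ] (B → ℚ) := LinearMap.pi fun b =>
      finBPhi (2 * w + 2 * k + 1 + 1) (((w : ℚ) - (b.1.2.sum : ℚ) + bt b.1.1) ::
        toQ b.1.2.toList) ∘ₗ (pderiv b.1.1).toLinearMap ∘ₗ sc.toLinearMap ∘ₗ U ∘ₗ
        (V k).subtype ∘ₗ (Ker κ ε k w).subtype
    have hf : Function.Injective f := by
      refine finB_inj (E := Ker κ ε k w) (F := B → ℚ) f fun P hP => ?_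
      have hP2 := (mem_Ker P.1).1 P.2
      have h0 : (P.1.1 : MvPolynomial ℕ ℚ) = 0 := by
        refine eq_zero_of_mem_Ker hg hc hF hkw hw P.1.2 hP2 fun m hm τ hτ h1 h2 => ?_
        have hmem := hB1 m (τ : Multiset ℕ) hm (by simpa using hτ)
          (by rw [Multiset.map_coe, Multiset.sum_coe]; exact h1)
          (by rw [Multiset.sum_coe]; exact h2)
        have h4 := congrFun hP ⟨(m, (τ : Multiset ℕ)), hmem⟩
        have h5 : Phi (2 * w + 2 * k + 1 + 1) (((w : ℚ) - ((τ : Multiset ℕ).sum : ℚ) + bt m) ::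
            toQ (τ : Multiset ℕ).toList) (pderiv m (sc (U P.1.1))) = 0 := h4
        have h6 : ((((w : ℚ) - (τ.sum : ℚ) + bt m) :: toQ τ)).Perm
            (((w : ℚ) - ((τ : Multiset ℕ).sum : ℚ) + bt m) :: toQ (τ : Multiset ℕ).toList) := by
          rw [Multiset.sum_coe, finB_toQ, finB_toQ]
          refine List.Perm.cons _ (List.Perm.map _ ?_)
          rw [← Multiset.coe_eq_coe, Multiset.coe_toList]
        rw [Phi_perm _ h6]
        exact h5
      exact Subtype.ext (Subtype.ext h0)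
    refine (LinearMap.finrank_le_finrank_of_injective hf).trans ?_
    rw [Module.finrank_fintype_fun_eq_card, Fintype.card_coe]
  · have : Ker κ ε k w = ⊥ := by
      rw [eq_bot_iff]
      intro P hP
      have h0 := finB_no_bad hg hc hF hkw hw (by omega) P.2 ((mem_Ker P).1 hP)
      rw [Submodule.mem_bot]
      exact Subtype.ext h0
    rw [this, finrank_bot]

end W5a2b73
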