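import Pool.Agent.W_5a2b73_h94.FinB

/-!
Final assembly.

`ker_bound`: the left kernel `𝒦 ⊂ V k`; the linear map `𝒦 → (B → ℚ)`,
`P ↦ ((m,τ) ↦ Phi (N+1) ((w - τ.sum + bt m) :: toQ τ.toList) (pderiv m (sc (U P))))` is injective by
`thmB` (`TC_of_pairing`, `Phi_perm` for lists with the same multiset), so
`finrank 𝒦 ≤ B.card ≤ #Partition (2k-3-w)`, and `2k-3-w = 3k-g-1`.
-/

open MvPolynomial Finset Module

namespace W5a2b73

variable {R : Type*} [CommRing R] [Algebra ℚ R]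

/-- Part 1: `3k ≤ g`. -/
theorem part1 {g : ℕ} (hg : 2 ≤ g) {κ : ℕ → R} {ε : R →ₗ[ℚ] ℚ} {c : ℚ} (hc : c ≠ 0)
    (hF : Faber g κ ε c) {k : ℕ} (hk : 3 * k ≤ g) (P : MvPolynomial ℕ ℚ) (hP : P ∈ V k)
    (h : ∀ Q ∈ V (g - 2 - k), ε (kev κ P * kev κ Q) = 0) : P = 0 :=
  finB_no_bad hg hc hF (w := g - 2 - k) (by omega) (by omega) (by omega) hP h

/-- Part 2: the rank of the pairing in all degrees up to the middle. -/
theorem part2 {g : ℕ} (hg : 2 ≤ g) {κ : ℕ → R} {ε : R →ₗ[ℚ] ℚ} {c : ℚ} (hc : c ≠ 0)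
    (hF : Faber g κ ε c) {k : ℕ} (hk : 2 * k + 1 ≤ g) :
    Fintype.card (Nat.Partition k) ≤
      finrank ℚ (LinearMap.range (pairing κ ε k (g - 2 - k))) + defect g k := by
  rw [← rank_eq (κ := κ) (ε := ε) (k := k) (l := g - 2 - k)]
  exact Nat.add_le_add_left (ker_bound hg hc hF hk) _

end W5a2b73
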