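import Pool.Agent.W_5a2b73_h94.FinC

/-!
Final assembly.

`ker_bound`: the left kernel `𝒦 ⊂ V k`; the linear map `𝒦 → (B → ℚ)`,
`P ↦ ((m,τ) ↦ Phi (N+1) ((w - τ.sum + bt m) :: toQ τ.toList) (pderiv m (sc (U P))))` is injective by
`thmB` (`TC_of_pairing`, `Phi_perm` for lists with the same multiset), so
`finrank 𝒦 ≤ B.card ≤ #Partition (2k-3-w)`, and `2k-3-w = 3k-g-1`.
-/

open MvPolynomial Finset Module

namespace W5a2b73

variable {R : Type*} [CommRing R] [Algebra ℚ R]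

/-- Part 3: with the generation theorem (Morita, Ionel), `R^k → (R^{g-2-k})^∨` is injective for
`3k ≤ g + 2`. -/
theorem part3 {g : ℕ} (hg : 2 ≤ g) {κ : ℕ → R} {ε : R →ₗ[ℚ] ℚ} {c : ℚ} (hc : c ≠ 0)
    (hF : Faber g κ ε c)
    (hgen : ∀ i, g < 3 * i → ∃ P ∈ V i, (∀ j ∈ P.vars, 3 * (j + 1) ≤ g) ∧ κ i = kev κ P)
    {k : ℕ} (hk : 2 * k + 1 ≤ g) (hk3 : 3 * k ≤ g + 2) :
    Function.Injective (pairing κ ε k (g - 2 - k)) := by
  rw [injective_iff_map_eq_zero]
  rintro ⟨x, hx⟩ hx0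
  obtain ⟨P, hP, rfl⟩ := Submodule.mem_map.1 hx
  have hPQ : ∀ Q ∈ V (g - 2 - k), ε (kev κ P * kev κ Q) = 0 := by
    intro Q hQ
    have hQ' : (kev κ).toLinearMap Q ∈ Rk κ (g - 2 - k) := Submodule.mem_map_of_mem hQ
    have h1 := LinearMap.congr_fun hx0 ⟨(kev κ).toLinearMap Q, hQ'⟩
    exact h1
  suffices hz : kev κ P = 0 by
    apply Subtype.ext
    exact hz
  by_cases hg3 : 3 * k ≤ g
  · rw [part1 hg hc hF hg3 P hP hPQ, map_zero]
  · push Not at hg3
    have hk0 : 1 ≤ k := by omega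
    obtain ⟨P₀, hP₀, hvars, hκ⟩ := hgen k hg3
    have hfr : finrank ℚ (Ker κ ε k (g - 2 - k)) ≤ 1 := by
      have h1 := ker_bound hg hc hF hk
      have h2 : defect g k = 1 := by
        unfold defect
        rw [if_pos hg3]
        rcases (show 3 * k - g - 1 = 0 ∨ 3 * k - g - 1 = 1 by omega) with h | h
        · rw [h]; rfl
        · rw [h]; rfl
      omega
    have hXV : (X (k - 1) : MvPolynomial ℕ ℚ) ∈ V k := by
      have h1 : IsWeightedHomogeneous wt (X (k - 1) : MvPolynomial ℕ ℚ) (wt (k - 1)) :=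
        isWeightedHomogeneous_X ℚ wt (k - 1)
      have h2 : wt (k - 1) = k := by unfold wt; omega
      rw [h2] at h1
      exact h1
    have hA : (X (k - 1) - P₀ : MvPolynomial ℕ ℚ) ∈ V k := Submodule.sub_mem _ hXV hP₀
    have hkA : kev κ (X (k - 1) - P₀) = 0 := by
      have h1 : kev κ (X (k - 1) : MvPolynomial ℕ ℚ) = κ k := by
        unfold kev
        rw [aeval_X]
        congr 1
        omega
      rw [map_sub, h1, hκ, sub_self]
    have hA0 : (X (k - 1) - P₀ : MvPolynomial ℕ ℚ) ≠ 0 := by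
      intro h0
      have h1 : (X (k - 1) : MvPolynomial ℕ ℚ) = P₀ := sub_eq_zero.1 h0
      have h2 : k - 1 ∈ P₀.vars := by
        rw [← h1, vars_X]
        exact Finset.mem_singleton_self _
      have h3 := hvars _ h2
      omega
    have hAK : (⟨X (k - 1) - P₀, hA⟩ : V k) ∈ Ker κ ε k (g - 2 - k) := by
      rw [mem_Ker]
      intro Q _
      show ε (kev κ (X (k - 1) - P₀) * kev κ Q) = 0
      rw [hkA, zero_mul, map_zero]
    have hPK : (⟨P, hP⟩ : V k) ∈ Ker κ ε k (g - 2 - k) := by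
      rw [mem_Ker]
      exact hPQ
    have hfree : Module.Free ℚ (Ker κ ε k (g - 2 - k)) := Module.Free.of_divisionRing ℚ (Ker κ ε k (g - 2 - k))
    have hex := (finrank_le_one_iff (K := ℚ) (V := Ker κ ε k (g - 2 - k))).1 hfr
    obtain ⟨v, hv⟩ := hex
    obtain ⟨a, ha⟩ := hv ⟨_, hAK⟩
    obtain ⟨b, hb⟩ := hv ⟨_, hPK⟩
    have ha' : a • ((v : V k) : MvPolynomial ℕ ℚ) = X (k - 1) - P₀ :=
      congrArg (fun z : Ker κ ε k (g - 2 - k) => ((z : V k) : MvPolynomial ℕ ℚ)) ha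
    have hb' : b • ((v : V k) : MvPolynomial ℕ ℚ) = P :=
      congrArg (fun z : Ker κ ε k (g - 2 - k) => ((z : V k) : MvPolynomial ℕ ℚ)) hb
    have ha0 : a ≠ 0 := by
      rintro rfl
      rw [zero_smul] at ha'
      exact hA0 ha'.symm
    have hv0 : kev κ ((v : V k) : MvPolynomial ℕ ℚ) = 0 := by
      have h1 : a • kev κ ((v : V k) : MvPolynomial ℕ ℚ) = 0 := by
        rw [← map_smul, ha', hkA]
      have h2 : a⁻¹ • (a • kev κ ((v : V k) : MvPolynomial ℕ ℚ)) = 0 := by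
        rw [h1, smul_zero]
      rwa [smul_smul, inv_mul_cancel₀ ha0, one_smul] at h2
    rw [← hb', map_smul, hv0, smul_zero]

end W5a2b73
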