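import Pool.Agent.W_5a2b73_h94.LinkA

/-!
Final assembly.

`ker_bound`: the left kernel `𝒦 ⊂ V k`; the linear map `𝒦 → (B → ℚ)`,
`P ↦ ((m,τ) ↦ Phi (N+1) ((w - τ.sum + bt m) :: toQ τ.toList) (pderiv m (sc (U P))))` is injective by
`thmB` (`TC_of_pairing`, `Phi_perm` for lists with the same multiset), so
`finrank 𝒦 ≤ B.card ≤ #Partition (2k-3-w)`, and `2k-3-w = 3k-g-1`.
-/

open MvPolynomial Finset Module

namespace W5a2b73

variable {R : Type*} [CommRing R] [Algebra ℚ R]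

/-- `R^k`: the classes of degree `k`, i.e. polynomials of weight `k` in the `κ_i` -/
noncomputable def Rk (κ : ℕ → R) (k : ℕ) : Submodule ℚ R := (V k).map (kev κ).toLinearMap

/-- the pairing `R^k → (R^l)^∨`, `x ↦ (y ↦ ε(xy))` -/
noncomputable def pairing (κ : ℕ → R) (ε : R →ₗ[ℚ] ℚ) (k l : ℕ) :
    Rk κ k →ₗ[ℚ] Dual ℚ (Rk κ l) :=
  ((LinearMap.mul ℚ R).compr₂ ε).domRestrict₁₂ (Rk κ k) (Rk κ l)

/-- number of partitions of `3k - g - 1` (zero if this is negative) -/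
def defect (g k : ℕ) : ℕ := if g < 3 * k then Fintype.card (Nat.Partition (3 * k - g - 1)) else 0

/-- left kernel on polynomials -/
noncomputable def Ker (κ : ℕ → R) (ε : R →ₗ[ℚ] ℚ) (k l : ℕ) : Submodule ℚ (V k) :=
  LinearMap.ker (((LinearMap.mul ℚ R).compr₂ ε).compl₁₂ ((kev κ).toLinearMap ∘ₗ (V k).subtype)
    ((kev κ).toLinearMap ∘ₗ (V l).subtype))

end W5a2b73
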