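import Pool.Agent.W_5a2b73_h94.Defs

/-!
The operators `K_i = X_i - V_i`, `V_i = ∑_j X_{j+i+1} ∂_j`, and the map `U(P) = P(K)·1`.

* `kop_comm`: `V_i (X_j) = X_{j+i+1} = V_j (X_i)` and `V_i V_j = V_j V_i` (derivations, compare on `X_l`).
* `exists_U`: the operators `kop i` commute, so `Algebra.adjoin ℚ (Set.range kop)` inside
  `Module.End ℚ (MvPolynomial ℕ ℚ)` is a commutative ring (`Algebra.adjoinCommRingOfComm`), take
  `aeval` into it and evaluate at `1`.
* `U_mem_V`: induction on monomials: `kop i` maps `V k` to `V (k+i+1)`.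
* `U_injective`: `U P - P` has total degree `< totalDegree P` (or `U P = P` for `P` constant):
  by induction on monomials, `V_i` does not raise the total degree.
-/

open MvPolynomial Finset

namespace W5a2b73

theorem kop_apply (i : ℕ) (p : MvPolynomial ℕ ℚ) : kop i p = X i * p - Vf i p := by
  simp [kop]

private theorem Vf_X (i j : ℕ) : Vf i (X j) = X (j + i + 1) := by
  unfold Vf
  exact mkDerivation_X ℚ (fun j => (X (j + i + 1) : MvPolynomial ℕ ℚ)) j

private theorem Vf_comm (i j : ℕ) (p : MvPolynomial ℕ ℚ) : Vf i (Vf j p) = Vf j (Vf i p) := by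
  have h : ⁅Vf i, Vf j⁆ = (0 : Derivation ℚ (MvPolynomial ℕ ℚ) (MvPolynomial ℕ ℚ)) := by
    apply derivation_ext
    intro l
    rw [Derivation.commutator_apply, Vf_X, Vf_X, Vf_X, Vf_X, Derivation.zero_apply]
    have : l + j + 1 + i + 1 = l + i + 1 + j + 1 := by ring
    rw [this, sub_self]
  have h2 := congrArg (fun D : Derivation ℚ (MvPolynomial ℕ ℚ) (MvPolynomial ℕ ℚ) => D p) h
  simp only [Derivation.commutator_apply, Derivation.zero_apply] at h2
  exact sub_eq_zero.mp h2

theorem kop_comm (i j : ℕ) (p : MvPolynomial ℕ ℚ) : kop i (kop j p) = kop j (kop i p) := by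
  rw [kop_apply, kop_apply, kop_apply, kop_apply, map_sub, map_sub, Derivation.leibniz,
    Derivation.leibniz, Vf_X, Vf_X, Vf_comm i j]
  simp only [smul_eq_mul]
  have : j + i + 1 = i + j + 1 := by ring
  rw [this]
  ring

private theorem weight_sub_single {d : ℕ →₀ ℕ} {j : ℕ} (hj : j ∈ d.support) :
    Finsupp.weight wt (d - Finsupp.single j 1) + (j + 1) = Finsupp.weight wt d := by
  have h1 : Finsupp.single j 1 ≤ d := by
    rw [Finsupp.single_le_iff]
    exact Nat.one_le_iff_ne_zero.mpr (Finsupp.mem_support_iff.mp hj)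
  have h2 : (d - Finsupp.single j 1) + Finsupp.single j 1 = d := tsub_add_cancel_of_le h1
  conv_rhs => rw [← h2]
  rw [map_add, Finsupp.weight_single]
  simp [wt]

private theorem Vf_monomial (i : ℕ) (d : ℕ →₀ ℕ) (a : ℚ) :
    Vf i (monomial d a) ∈ V (Finsupp.weight wt d + (i + 1)) := by
  rw [Vf, mkDerivation_monomial]
  refine Submodule.smul_mem _ _ ?_
  rw [Finsupp.sum]
  refine Submodule.sum_mem _ (fun j hj => ?_)
  rw [smul_eq_mul]
  rw [V, mem_weightedHomogeneousSubmodule]
  have h1 : IsWeightedHomogeneous wt (monomial (d - Finsupp.single j 1) ((d j : ℕ) : ℚ))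
      (Finsupp.weight wt (d - Finsupp.single j 1)) := isWeightedHomogeneous_monomial _ _ _ rfl
  have h2 : IsWeightedHomogeneous wt (X (j + i + 1) : MvPolynomial ℕ ℚ) (wt (j + i + 1)) :=
    isWeightedHomogeneous_X _ _ _
  have h3 := h1.mul h2
  have h4 : Finsupp.weight wt (d - Finsupp.single j 1) + wt (j + i + 1)
      = Finsupp.weight wt d + (i + 1) := by
    rw [← weight_sub_single hj]
    simp only [wt]
    ring
  rw [h4] at h3
  exact h3

private theorem Vf_mem_V {i k : ℕ} {p : MvPolynomial ℕ ℚ} (h : p ∈ V k) :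
    Vf i p ∈ V (k + (i + 1)) := by
  rw [← support_sum_monomial_coeff p, map_sum]
  refine Submodule.sum_mem _ (fun d hd => ?_)
  have h1 : Finsupp.weight wt d = k := by
    rw [V, mem_weightedHomogeneousSubmodule] at h
    exact h (mem_support_iff.mp hd)
  have h2 := Vf_monomial i d (coeff d p)
  rw [h1] at h2
  exact h2

theorem kop_mem_V {i k : ℕ} {p : MvPolynomial ℕ ℚ} (h : p ∈ V k) : kop i p ∈ V (k + (i + 1)) := by
  rw [kop_apply]
  refine Submodule.sub_mem _ ?_ (Vf_mem_V h)
  rw [V, mem_weightedHomogeneousSubmodule] at h ⊢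
  have h2 : IsWeightedHomogeneous wt (X i : MvPolynomial ℕ ℚ) (wt i) :=
    isWeightedHomogeneous_X _ _ _
  have h3 := h2.mul h
  have h4 : wt i + k = k + (i + 1) := by
    simp only [wt]
    ring
  rw [h4] at h3
  exact h3

end W5a2b73
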