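import Pool.Agent.W_5a2b73_h94.KopA

/-!
The operators `K_i = X_i - V_i`, `V_i = ∑_j X_{j+i+1} ∂_j`, and the map `U(P) = P(K)·1`.

* `kop_comm`: `V_i (X_j) = X_{j+i+1} = V_j (X_i)` and `V_i V_j = V_j V_i` (derivations, compare on `X_l`).
* `exists_U`: the operators `kop i` commute, so `Algebra.adjoin ℚ (Set.range kop)` inside
  `Module.End ℚ (MvPolynomial ℕ ℚ)` is a commutative ring (`Algebra.adjoinCommRingOfComm`), take
  `aeval` into it and evaluate at `1`.
* `U_mem_V`: induction on monomials: `kop i` maps `V k` to `V (k+i+1)`.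
* `U_injective`: `U P - P` has total degree `< totalDegree P` (or `U P = P` for `P` constant):
  by induction on monomials, `V_i` does not raise the total degree.
-/

open MvPolynomial Finset

namespace W5a2b73

private theorem exists_G {A : Type*} [Ring A] [Algebra ℚ A] (f : ℕ → A)
    (hc : ∀ i j, f i * f j = f j * f i) :
    ∃ G : MvPolynomial ℕ ℚ →ₗ[ℚ] A, G 1 = 1 ∧ ∀ i p, G (X i * p) = f i * G p := by
  have hcomm : ∀ a ∈ Set.range f, ∀ b ∈ Set.range f, a * b = b * a := by
    rintro _ ⟨i, rfl⟩ _ ⟨j, rfl⟩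
    exact hc i j
  have := Algebra.isMulCommutative_adjoin ℚ hcomm
  letI : CommRing (Algebra.adjoin ℚ (Set.range f)) := by
    open scoped IsMulCommutative in exact inferInstance
  let F : MvPolynomial ℕ ℚ →ₐ[ℚ] (Algebra.adjoin ℚ (Set.range f)) :=
    aeval (fun i => (⟨f i, Algebra.subset_adjoin ⟨i, rfl⟩⟩ : (Algebra.adjoin ℚ (Set.range f))))
  refine ⟨(Subalgebra.val (Algebra.adjoin ℚ (Set.range f))).toLinearMap ∘ₗ F.toLinearMap, ?_, ?_⟩
  · have h1 : F 1 = 1 := map_one F
    change ((F 1 : Algebra.adjoin ℚ (Set.range f)) : A) = 1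
    rw [h1]
    rfl
  · intro i p
    have h1 : F (X i * p) = F (X i) * F p := map_mul F _ _
    have h2 : F (X i) = ⟨f i, Algebra.subset_adjoin ⟨i, rfl⟩⟩ := aeval_X _ _
    change ((F (X i * p) : Algebra.adjoin ℚ (Set.range f)) : A)
      = f i * ((F p : Algebra.adjoin ℚ (Set.range f)) : A)
    rw [h1, h2]
    rfl

theorem exists_U : ∃ U : MvPolynomial ℕ ℚ →ₗ[ℚ] MvPolynomial ℕ ℚ,
    U 1 = 1 ∧ ∀ i p, U (X i * p) = kop i (U p) := by
  obtain ⟨G, h1, h2⟩ := exists_G (A := Module.End ℚ (MvPolynomial ℕ ℚ)) kop (by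
    intro i j
    apply LinearMap.ext
    intro p
    exact kop_comm i j p)
  refine ⟨(LinearMap.applyₗ (1 : MvPolynomial ℕ ℚ)) ∘ₗ G, ?_, ?_⟩
  · rw [LinearMap.comp_apply, h1]
    rfl
  · intro i p
    rw [LinearMap.comp_apply, h2]
    rfl

/-- `U P = P(K) · 1` -/
noncomputable def U : MvPolynomial ℕ ℚ →ₗ[ℚ] MvPolynomial ℕ ℚ := exists_U.choose

theorem U_one : U 1 = 1 := exists_U.choose_spec.1

theorem U_X_mul (i : ℕ) (p : MvPolynomial ℕ ℚ) : U (X i * p) = kop i (U p) :=
  exists_U.choose_spec.2 i p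

private theorem U_monomial_mul (d : ℕ →₀ ℕ) : ∀ (k : ℕ) (p : MvPolynomial ℕ ℚ), U p ∈ V k →
    U (monomial d 1 * p) ∈ V (k + Finsupp.weight wt d) := by
  induction d using Finsupp.induction_linear with
  | zero =>
    intro k p hp
    have h1 : (monomial (0 : ℕ →₀ ℕ) (1 : ℚ)) * p = p := by
      change 1 * p = p
      rw [one_mul]
    rw [h1, map_zero, add_zero]
    exact hp
  | add d e hd he =>
    intro k p hp
    have h1 : (monomial (d + e) (1 : ℚ)) * p = monomial d 1 * (monomial e 1 * p) := by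
      rw [← mul_assoc, monomial_mul, one_mul]
    rw [h1, map_add]
    have h2 := hd _ _ (he _ _ hp)
    have h3 : k + Finsupp.weight wt e + Finsupp.weight wt d
        = k + (Finsupp.weight wt d + Finsupp.weight wt e) := by ring
    rw [h3] at h2
    exact h2
  | single i n =>
    induction n with
    | zero =>
      intro k p hp
      have h1 : (monomial (Finsupp.single i 0) (1 : ℚ)) * p = p := by
        rw [Finsupp.single_zero]
        change 1 * p = p
        rw [one_mul]
      rw [h1, Finsupp.single_zero, map_zero, add_zero]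
      exact hp
    | succ n ih =>
      intro k p hp
      have h1 : (monomial (Finsupp.single i (n + 1)) (1 : ℚ)) * p
          = X i * (monomial (Finsupp.single i n) 1 * p) := by
        rw [← mul_assoc, X, monomial_mul, one_mul, ← Finsupp.single_add, add_comm 1 n]
      rw [h1, U_X_mul]
      have h2 := kop_mem_V (i := i) (ih _ _ hp)
      have h3 : k + Finsupp.weight wt (Finsupp.single i n) + (i + 1)
          = k + Finsupp.weight wt (Finsupp.single i (n + 1)) := by
        rw [Finsupp.weight_single, Finsupp.weight_single]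
        simp only [wt, smul_eq_mul]
        ring
      rw [h3] at h2
      exact h2

theorem U_mem_V {k : ℕ} {P : MvPolynomial ℕ ℚ} (h : P ∈ V k) : U P ∈ V k := by
  rw [← support_sum_monomial_coeff P, map_sum]
  refine Submodule.sum_mem _ (fun d hd => ?_)
  have h1 : Finsupp.weight wt d = k := by
    rw [V, mem_weightedHomogeneousSubmodule] at h
    exact h (mem_support_iff.mp hd)
  have h0 : U 1 ∈ V 0 := by
    rw [U_one, V, mem_weightedHomogeneousSubmodule]
    exact isWeightedHomogeneous_one _ _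
  have h2 := U_monomial_mul d 0 1 h0
  rw [mul_one, zero_add, h1] at h2
  have h3 : (monomial d (coeff d P) : MvPolynomial ℕ ℚ) = (coeff d P) • monomial d 1 := by
    rw [smul_monomial, smul_eq_mul, mul_one]
  rw [h3, map_smul]
  exact Submodule.smul_mem _ _ h2

end W5a2b73
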