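import Pool.Agent.W_5a2b73_h94.PhiC
import Pool.Agent.W_5a2b73_h94.KopU
import Pool.Agent.W_5a2b73_h94.ERecB
import Pool.Agent.W_5a2b73_h94.ERecC

/-!
Link between the pairing on the tautological ring and the functionals `φ_a`.
`link`: by linearity it is enough to treat monomials (every `P ∈ V k` is a combination of monomials
of weight `k`); induction on the monomial (`X i * P`):
`ε(κ_b P e_a) = ε(P (e_{(b,a)} - ∑_t e_{a[t]+b})) = c (φ_{(b,a)}(U P) - ∑_t φ_{a[t]+b}(U P))
 = c φ_a(kop i (U P)) = c φ_a(U (X_i P))` (`eCl_cons`, `phiF_kop`, `U_X_mul`).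
`TC_of_phi`: the test lists of `TC` have `W - τ.sum ≥ 0`; if it is `0` use the dilaton equation.
-/

open MvPolynomial Finset

namespace W5a2b73

/-- Faber's intersection number formula: `ε(e_a) = c (2g-3+n)! / ∏ (2a_i+1)!!` for all
`a_1, ..., a_n ≥ 1` with sum `g - 2`. -/
def Faber {R : Type*} [CommRing R] [Algebra ℚ R] (g : ℕ) (κ : ℕ → R) (ε : R →ₗ[ℚ] ℚ) (c : ℚ) :
    Prop :=
  ∀ (n : ℕ) (a : Fin n → ℕ), (∀ i, 1 ≤ a i) → ∑ i, a i = g - 2 →
    ε (eCl κ a) = c * ((2 * g - 3 + n).factorial : ℚ) / ∏ i, ((2 * a i + 1).doubleFactorial : ℚ)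

/-- evaluation of polynomials in `κ_1, κ_2, ...` -/
noncomputable def kev {R : Type*} [CommRing R] [Algebra ℚ R] (κ : ℕ → R) :
    MvPolynomial ℕ ℚ →ₐ[ℚ] R := aeval (fun i => κ (i + 1))

private theorem phiF_add' (N : ℕ) {n : ℕ} (a : Fin n → ℕ) (p q : MvPolynomial ℕ ℚ) :
    phiF N a (p + q) = phiF N a p + phiF N a q := by
  simp only [phiF, map_add, Phi_add, mul_add]

private theorem phiF_smul' (N : ℕ) {n : ℕ} (a : Fin n → ℕ) (r : ℚ) (p : MvPolynomial ℕ ℚ) :
    phiF N a (r • p) = r * phiF N a p := by
  simp only [phiF, map_smul, Phi_smul]; ring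

private theorem phiF_zero' (N : ℕ) {n : ℕ} (a : Fin n → ℕ) :
    phiF N a (0 : MvPolynomial ℕ ℚ) = 0 := by
  have h := phiF_smul' N a 0 (0 : MvPolynomial ℕ ℚ)
  rw [zero_smul, zero_mul] at h
  exact h

private theorem link_mon {R : Type*} [CommRing R] [Algebra ℚ R] {g : ℕ} {κ : ℕ → R}
    {ε : R →ₗ[ℚ] ℚ} {c : ℚ} (hF : Faber g κ ε c) : ∀ (m : ℕ) (s : ℕ →₀ ℕ),
    s.sum (fun _ e => e) = m → ∀ {n : ℕ} (a : Fin n → ℕ), (∀ i, 1 ≤ a i) →
    Finsupp.weight wt s + ∑ i, a i = g - 2 →
    ε (kev κ (monomial s 1) * eCl κ a) = c * phiF (2 * g - 3) a (U (monomial s 1)) := by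
  intro m
  induction m with
  | zero =>
    intro s hs n a ha hk
    have hs0 : s = 0 := by
      ext i
      by_contra hne
      have h1 : i ∈ s.support := Finsupp.mem_support_iff.2 (by simpa using hne)
      have h2 : s i ≤ s.sum (fun _ e => e) :=
        Finset.single_le_sum (f := fun j => s j) (fun j _ => Nat.zero_le _) h1
      rw [hs] at h2
      exact hne (by simpa using Nat.le_zero.1 h2)
    subst hs0
    have h1 : (monomial (0 : ℕ →₀ ℕ) (1 : ℚ)) = 1 := rfl
    rw [h1, map_one, one_mul, U_one, phiF_one]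
    have h2 : ∑ i, a i = g - 2 := by simpa using hk
    rw [hF n a ha h2]
    simp only [gam]
    rw [Finset.prod_inv_distrib]
    rw [div_eq_mul_inv]
    ring
  | succ m ih =>
    intro s hs n a ha hk
    have hne : s ≠ 0 := by
      rintro rfl
      simp at hs
    obtain ⟨i, hi⟩ : ∃ i, s i ≠ 0 := by
      by_contra hcon
      push Not at hcon
      exact hne (Finsupp.ext (by simpa using hcon))
    obtain ⟨t, rfl⟩ : ∃ t : ℕ →₀ ℕ, s = Finsupp.single i 1 + t := by
      refine ⟨s - Finsupp.single i 1, ?_⟩
      rw [add_comm]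
      exact (tsub_add_cancel_of_le (Finsupp.single_le_iff.2 (Nat.one_le_iff_ne_zero.2 hi))).symm
    have ht : t.sum (fun _ e => e) = m := by
      rw [Finsupp.sum_add_index' (fun _ => rfl) (fun _ _ _ => rfl),
        Finsupp.sum_single_index rfl] at hs
      omega
    have hw : Finsupp.weight wt (Finsupp.single i 1 + t) = (i + 1) + Finsupp.weight wt t := by
      rw [map_add, Finsupp.weight_single]
      simp [wt]
    have hM : (monomial (Finsupp.single i 1 + t) (1 : ℚ)) = X i * monomial t 1 := by
      rw [X, monomial_mul, one_mul]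
    rw [hw] at hk
    have hcons : ε (kev κ (monomial t 1) * eCl κ (Fin.cons (i + 1) a : Fin (n + 1) → ℕ)) =
        c * phiF (2 * g - 3) (Fin.cons (i + 1) a : Fin (n + 1) → ℕ) (U (monomial t 1)) := by
      apply ih t ht
      · intro j
        refine Fin.cases ?_ (fun j => ?_) j
        · simp
        · simpa using ha j
      · rw [Fin.sum_univ_succ]
        simp only [Fin.cons_zero, Fin.cons_succ]
        omega
    have hupd : ∀ j : Fin n, ε (kev κ (monomial t 1) *
          eCl κ (Function.update a j (a j + (i + 1)))) =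
        c * phiF (2 * g - 3) (Function.update a j (a j + (i + 1))) (U (monomial t 1)) := by
      intro j
      apply ih t ht
      · intro l
        by_cases hl : l = j
        · subst hl
          rw [Function.update_self]
          have := ha l
          omega
        · rw [Function.update_of_ne hl]
          exact ha l
      · have h3 : ∑ l, Function.update a j (a j + (i + 1)) l = ∑ l, a l + (i + 1) := by
          rw [← Finset.add_sum_erase _ _ (Finset.mem_univ j), Function.update_self,
            ← Finset.add_sum_erase (Finset.univ) a (Finset.mem_univ j)]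
          have h4 : ∑ x ∈ Finset.univ.erase j, Function.update a j (a j + (i + 1)) x =
              ∑ x ∈ Finset.univ.erase j, a x := by
            apply Finset.sum_congr rfl
            intro x hx
            rw [Function.update_of_ne (Finset.ne_of_mem_erase hx)]
          rw [h4]
          ring
        rw [h3]
        omega
    have hk1 : kev κ (X i * monomial t 1) = κ (i + 1) * kev κ (monomial t 1) := by
      rw [map_mul]
      congr 1
      simp [kev]
    rw [hM, hk1, U_X_mul, phiF_kop]
    have hrec : κ (i + 1) * kev κ (monomial t 1) * eCl κ a =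
        kev κ (monomial t 1) * eCl κ (Fin.cons (i + 1) a : Fin (n + 1) → ℕ) -
          ∑ j, kev κ (monomial t 1) * eCl κ (Function.update a j (a j + (i + 1))) := by
      rw [eCl_cons, mul_add, Finset.mul_sum]
      ring
    rw [hrec, map_sub, map_sum, hcons, Finset.sum_congr rfl (fun j _ => hupd j), ← Finset.mul_sum,
      mul_sub]

theorem link {R : Type*} [CommRing R] [Algebra ℚ R] {g : ℕ} {κ : ℕ → R} {ε : R →ₗ[ℚ] ℚ} {c : ℚ}
    (hF : Faber g κ ε c) {k : ℕ} {P : MvPolynomial ℕ ℚ} (hP : P ∈ V k) {n : ℕ} (a : Fin n → ℕ)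
    (ha : ∀ i, 1 ≤ a i) (hk : k + ∑ i, a i = g - 2) :
    ε (kev κ P * eCl κ a) = c * phiF (2 * g - 3) a (U P) := by
  have hw : ∀ s ∈ P.support, Finsupp.weight wt s = k := by
    intro s hs
    have h1 : IsWeightedHomogeneous wt P k := (mem_weightedHomogeneousSubmodule ℚ wt k P).1 hP
    exact h1 (mem_support_iff.1 hs)
  have key : ∀ S : Finset (ℕ →₀ ℕ), S ⊆ P.support →
      ε (kev κ (∑ s ∈ S, monomial s (coeff s P)) * eCl κ a) =
        c * phiF (2 * g - 3) a (U (∑ s ∈ S, monomial s (coeff s P))) := by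
    intro S
    induction S using Finset.induction_on with
    | empty =>
      intro _
      simp [phiF_zero']
    | insert s S hs ih =>
      intro hS
      rw [Finset.sum_insert hs]
      have h1 : (monomial s (coeff s P)) = (coeff s P) • (monomial s (1 : ℚ)) := by
        rw [smul_monomial, smul_eq_mul, mul_one]
      rw [h1, map_add, add_mul, map_add, ih (fun x hx => hS (Finset.mem_insert_of_mem hx)),
        map_add, phiF_add', map_smul, map_smul, phiF_smul', smul_mul_assoc, map_smul, smul_eq_mul,
        link_mon hF _ s rfl a ha (by rw [hw s (hS (Finset.mem_insert_self _ _))]; exact hk)]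
      ring
  have h2 := key P.support (Finset.Subset.refl _)
  rw [← MvPolynomial.as_sum P] at h2
  exact h2

end W5a2b73
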