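import Pool.Agent.W_5a2b73_h94.DopL
import Pool.Agent.W_5a2b73_h94.Rr

/-!
Partial fractions.  For `SV m F` (`cd_eq_sum`, `rr_pf`)
`nab c F = ∑_{l<m} (c + bt l)⁻¹ • dl l F`.
With `Q = Dop cs P` (`SV_Dop`), `w = c0 + c1` and `1/((c0+β)(c1+β')) = (1/(w+β+β')) (1/(c0+β) + 1/(c1+β'))`:
`(1-∇_{c0})(1-∇_{c1}) Q = Q - ∑_l (1/(c0+β_l) + 1/(c1+β_l)) (D_l Q - ∇_{w+β_l} D_l Q)`.
-/

open MvPolynomial Finset

namespace W5a2b73

theorem nab_eq_sum {m : ℕ} {P : MvPolynomial ℕ ℚ} (h : SV m P) (c : ℚ)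
    (hc : ∀ l < m, c + bt l ≠ 0) :
    nab c P = ∑ l ∈ range m, (c + bt l)⁻¹ • dl l P := by
  have h1 : ∀ l, dl l P = ∑ i ∈ range m, rho i l • pderiv i P := fun l => cd_eq_sum h _
  have h2 : nab c P = ∑ i ∈ range m, rr (i + 1) c • pderiv i P := cd_eq_sum h _
  rw [h2]
  simp_rw [h1, Finset.smul_sum]
  rw [Finset.sum_comm]
  apply Finset.sum_congr rfl
  intro i hi
  rw [rr_pf i m (mem_range.mp hi) c hc, Finset.sum_smul]
  apply Finset.sum_congr rfl
  intro l _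
  rw [smul_smul, mul_comm]

theorem Dop_two {m : ℕ} {Q : MvPolynomial ℕ ℚ} (h : SV m Q) (c0 c1 : ℚ)
    (h0 : ∀ l < m, c0 + bt l ≠ 0) (h1 : ∀ l < m, c1 + bt l ≠ 0)
    (h2 : ∀ l < m, ∀ l' < m, c0 + c1 + bt l + bt l' ≠ 0) :
    Dop [c0, c1] Q = Q - ∑ l ∈ range m, ((c0 + bt l)⁻¹ + (c1 + bt l)⁻¹) •
      (dl l Q - nab (c0 + c1 + bt l) (dl l Q)) := by
  have hD : ∀ l, SV m (dl l Q) := fun l => SV_cd h _
  have e0 : Dop [c0, c1] Q = Q - nab c1 Q - (nab c0 Q - nab c0 (nab c1 Q)) := by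
    simp only [Dop, map_sub]
  have e1 := nab_eq_sum h c1 h1
  have e2 := nab_eq_sum h c0 h0
  have e3 : nab c0 (nab c1 Q) = ∑ l ∈ range m, ∑ l' ∈ range m,
      ((c1 + bt l)⁻¹ * (c0 + bt l')⁻¹) • dl l' (dl l Q) := by
    rw [e1, map_sum]
    apply Finset.sum_congr rfl
    intro l _
    rw [Derivation.map_smul, nab_eq_sum (hD l) c0 h0, Finset.smul_sum]
    apply Finset.sum_congr rfl
    intro l' _
    rw [smul_smul]
  have e4 : ∀ l ∈ range m, nab (c0 + c1 + bt l) (dl l Q) = ∑ l' ∈ range m,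
      (c0 + c1 + bt l + bt l')⁻¹ • dl l' (dl l Q) := by
    intro l hl
    exact nab_eq_sum (hD l) _ (h2 l (mem_range.mp hl))
  have e5 : ∑ l ∈ range m, ((c0 + bt l)⁻¹ + (c1 + bt l)⁻¹) • nab (c0 + c1 + bt l) (dl l Q) =
      ∑ l ∈ range m, ∑ l' ∈ range m,
      ((c1 + bt l)⁻¹ * (c0 + bt l')⁻¹) • dl l' (dl l Q) := by
    have e6 : ∑ l ∈ range m, ((c0 + bt l)⁻¹ + (c1 + bt l)⁻¹) • nab (c0 + c1 + bt l) (dl l Q) =
        ∑ l ∈ range m, ∑ l' ∈ range m,
          ((c0 + bt l)⁻¹ * (c0 + c1 + bt l + bt l')⁻¹) • dl l' (dl l Q) +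
        ∑ l ∈ range m, ∑ l' ∈ range m,
          ((c1 + bt l)⁻¹ * (c0 + c1 + bt l + bt l')⁻¹) • dl l' (dl l Q) := by
      rw [← Finset.sum_add_distrib]
      apply Finset.sum_congr rfl
      intro l hl
      rw [e4 l hl, add_smul, Finset.smul_sum, Finset.smul_sum]
      simp only [smul_smul]
    have e7 : ∑ l ∈ range m, ∑ l' ∈ range m,
          ((c0 + bt l)⁻¹ * (c0 + c1 + bt l + bt l')⁻¹) • dl l' (dl l Q) =
        ∑ l ∈ range m, ∑ l' ∈ range m,
          ((c0 + bt l')⁻¹ * (c0 + c1 + bt l + bt l')⁻¹) • dl l' (dl l Q) := by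
      rw [Finset.sum_comm]
      apply Finset.sum_congr rfl
      intro l _
      apply Finset.sum_congr rfl
      intro l' _
      have h3 : dl l (dl l' Q) = dl l' (dl l Q) := cd_comm _ _ _
      have h4 : c0 + c1 + bt l' + bt l = c0 + c1 + bt l + bt l' := by ring
      rw [h3, h4]
    rw [e6, e7, ← Finset.sum_add_distrib]
    apply Finset.sum_congr rfl
    intro l hl
    rw [← Finset.sum_add_distrib]
    apply Finset.sum_congr rfl
    intro l' hl'
    rw [← add_smul]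
    congr 1
    have a1 := h1 l (mem_range.mp hl)
    have a0 := h0 l' (mem_range.mp hl')
    have a2 := h2 l (mem_range.mp hl) l' (mem_range.mp hl')
    field_simp
    ring
  simp only [smul_sub, Finset.sum_sub_distrib]
  rw [e5, e0, e3, e1, e2]
  simp only [add_smul, Finset.sum_add_distrib]
  abel

theorem Phi_pf {m : ℕ} (N : ℕ) {P : MvPolynomial ℕ ℚ} (h : SV m P) (cs : List ℚ) (c0 c1 : ℚ)
    (h0 : ∀ l < m, c0 + bt l ≠ 0) (h1 : ∀ l < m, c1 + bt l ≠ 0)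
    (h2 : ∀ l < m, ∀ l' < m, c0 + c1 + bt l + bt l' ≠ 0) :
    Phi N (c0 :: c1 :: cs) P =
      lap (Polynomial.X ^ (N + cs.length + 2) * ev (Dop cs P)) -
      ∑ l ∈ range m, ((c0 + bt l)⁻¹ + (c1 + bt l)⁻¹) *
        Phi (N + 1) ((c0 + c1 + bt l) :: cs) (dl l P) := by
  have hQ : SV m (Dop cs P) := SV_Dop h cs
  have e1 : Dop (c0 :: c1 :: cs) P = Dop [c0, c1] (Dop cs P) := by
    rw [← Dop_append]
    rfl
  have e2 : ∀ l, Phi (N + 1) ((c0 + c1 + bt l) :: cs) (dl l P) =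
      lap (Polynomial.X ^ (N + cs.length + 2) *
        ev (dl l (Dop cs P) - nab (c0 + c1 + bt l) (dl l (Dop cs P)))) := by
    intro l
    have e3 : Dop cs (dl l P) = dl l (Dop cs P) := Dop_cd cs _ P
    have e4 : Dop ((c0 + c1 + bt l) :: cs) (dl l P) =
        dl l (Dop cs P) - nab (c0 + c1 + bt l) (dl l (Dop cs P)) := by
      rw [← e3]
      rfl
    have e5 : N + 1 + ((c0 + c1 + bt l) :: cs).length = N + cs.length + 2 := by
      simp only [List.length_cons]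
      ring
    unfold Phi
    rw [e4, e5]
  have e6 : N + (c0 :: c1 :: cs).length = N + cs.length + 2 := by
    simp only [List.length_cons]
    ring
  have e7 : Phi N (c0 :: c1 :: cs) P =
      lap (Polynomial.X ^ (N + cs.length + 2) * ev (Dop [c0, c1] (Dop cs P))) := by
    unfold Phi
    rw [e1, e6]
  rw [e7, Dop_two hQ c0 c1 h0 h1 h2]
  simp only [e2]
  rw [map_sub, map_sum, mul_sub, map_sub, Finset.mul_sum, map_sum]
  congr 1
  apply Finset.sum_congr rfl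
  intro l _
  rw [map_smul, mul_smul_comm, map_smul, smul_eq_mul]

theorem dl_top {m : ℕ} {P : MvPolynomial ℕ ℚ} (h : SV (m + 1) P) :
    dl m P = rho m m • pderiv m P := by
  have h1 : dl m P = ∑ i ∈ range (m + 1), rho i m • pderiv i P := cd_eq_sum h _
  rw [h1, Finset.sum_range_succ, Finset.sum_eq_zero, zero_add]
  intro i hi
  rw [rho_eq_zero (mem_range.mp hi), zero_smul]

end W5a2b73
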