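import Pool.Agent.W_5a2b73_h94.DopL
import Pool.Agent.W_5a2b73_h94.Rr
import Pool.Agent.W_5a2b73_h94.Lap
import Pool.Agent.W_5a2b73_h94.KopA

/-!
The recursion for the functionals `φ_a`.  Put `b = i + 1` and
`K'_b F = X_i F - ∑_j r_{j+1}(b) X_{j+i+1} ∂_j F` (`kop'`).
* `sc (kop i p) = (gam b)⁻¹ • K'_b (sc p)`
* `ev (K'_b F) = X * ev (F - nab b F)`.
* `nab c (K'_b F) = K'_b (nab c F) + r_b(c) (F - nab (b+c) F)` for natural `c` (`rr_mul`).
-/

open MvPolynomial Finset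

namespace W5a2b73

/-- `V'_b = ∑_j r_{j+1}(b) X_{j+b} ∂_j`, `b = i + 1` -/
noncomputable def Vf' (i : ℕ) : Derivation ℚ (MvPolynomial ℕ ℚ) (MvPolynomial ℕ ℚ) :=
  mkDerivation ℚ (fun j => C (rr (j + 1) ((i + 1 : ℕ) : ℚ)) * X (j + i + 1))

/-- `K'_b`, `b = i+1` -/
noncomputable def kop' (i : ℕ) (F : MvPolynomial ℕ ℚ) : MvPolynomial ℕ ℚ := X i * F - Vf' i F

theorem Vf'_X (i j : ℕ) :
    Vf' i (X j) = C (rr (j + 1) ((i + 1 : ℕ) : ℚ)) * X (j + i + 1) := by
  rw [Vf', mkDerivation_X]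

theorem Vf_X (i j : ℕ) : Vf i (X j) = X (j + i + 1) := by
  rw [Vf, mkDerivation_X]

theorem sc_X (i : ℕ) : sc (X i) = C ((gam (i + 1))⁻¹) * X i := by
  rw [sc, aeval_X]

theorem sc_Vf (i : ℕ) (p : MvPolynomial ℕ ℚ) :
    sc (Vf i p) = (gam (i + 1))⁻¹ • Vf' i (sc p) := by
  induction p using MvPolynomial.induction_on with
  | C a => simp [sc]
  | add p q hp hq => rw [map_add, map_add, map_add, map_add, smul_add, hp, hq]
  | mul_X p j hp =>
    rw [Derivation.leibniz, map_add, smul_eq_mul, smul_eq_mul, map_mul, map_mul, hp, map_mul,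
      Derivation.leibniz, Vf_X, sc_X, sc_X, Derivation.leibniz, Vf'_X]
    have h1 : Vf' i (C ((gam (j + 1))⁻¹) : MvPolynomial ℕ ℚ) = 0 := derivation_C _ _
    rw [h1]
    have h2 : (gam (j + i + 1 + 1))⁻¹ =
        (gam (i + 1))⁻¹ * (gam (j + 1))⁻¹ * rr (j + 1) ((i + 1 : ℕ) : ℚ) := by
      rw [rr_nat]
      have e : j + 1 + (i + 1) = j + i + 1 + 1 := by ring
      rw [e]
      have g1 := (gam_pos (j + 1)).ne'
      have g2 := (gam_pos (i + 1)).ne'
      have g3 := (gam_pos (j + i + 1 + 1)).ne'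
      field_simp
    rw [h2]
    simp only [smul_eq_mul, MvPolynomial.smul_eq_C_mul, map_mul]
    ring

theorem sc_kop (i : ℕ) (p : MvPolynomial ℕ ℚ) :
    sc (kop i p) = (gam (i + 1))⁻¹ • kop' i (sc p) := by
  rw [kop_apply, map_sub, sc_Vf, kop', smul_sub, map_mul, sc_X]
  simp only [MvPolynomial.smul_eq_C_mul]
  ring

theorem nab_X (c : ℚ) (j : ℕ) : nab c (X j) = C (rr (j + 1) c) := by
  rw [nab, cd_X]

theorem ev_X (j : ℕ) : ev (X j) = Polynomial.X := by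
  rw [ev, aeval_X]

theorem ev_C (a : ℚ) : ev (C a) = Polynomial.C a := by
  rw [ev, aeval_C]; rfl

theorem ev_Vf' (i : ℕ) (F : MvPolynomial ℕ ℚ) :
    ev (Vf' i F) = Polynomial.X * ev (nab ((i + 1 : ℕ) : ℚ) F) := by
  induction F using MvPolynomial.induction_on with
  | C a => simp
  | add p q hp hq => rw [map_add, map_add, map_add, map_add, mul_add, hp, hq]
  | mul_X p j hp =>
    rw [Derivation.leibniz, Derivation.leibniz, map_add, map_add, smul_eq_mul, smul_eq_mul,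
      smul_eq_mul, smul_eq_mul, map_mul, map_mul, map_mul, map_mul, hp, Vf'_X, nab_X, map_mul,
      ev_X, ev_X, ev_C]
    ring

theorem ev_kop' (i : ℕ) (F : MvPolynomial ℕ ℚ) :
    ev (kop' i F) = Polynomial.X * ev (F - nab ((i + 1 : ℕ) : ℚ) F) := by
  rw [kop', map_sub, map_mul, ev_X, ev_Vf', map_sub, mul_sub]

theorem nab_Vf' (i c : ℕ) (F : MvPolynomial ℕ ℚ) :
    nab (c : ℚ) (Vf' i F) = Vf' i (nab (c : ℚ) F) +
      rr (i + 1) (c : ℚ) • nab ((c + (i + 1) : ℕ) : ℚ) F := by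
  induction F using MvPolynomial.induction_on with
  | C a => simp
  | add p q hp hq =>
    simp only [map_add, smul_add, hp, hq]
    abel
  | mul_X p j hp =>
    have h2 := rr_mul (j + 1) (i + 1) c
    have e : j + 1 + (i + 1) = j + i + 1 + 1 := by ring
    have e' : i + 1 + c = c + (i + 1) := by ring
    rw [e, e'] at h2
    simp only [Derivation.leibniz, smul_eq_mul, map_add, hp, Vf'_X, nab_X,
      derivation_C, MvPolynomial.smul_eq_C_mul, mul_zero, add_zero]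
    have h3 : (C (rr (j + i + 1 + 1) (c : ℚ)) : MvPolynomial ℕ ℚ) *
        C (rr (j + 1) ((i + 1 : ℕ) : ℚ)) =
        C (rr (i + 1) (c : ℚ)) * C (rr (j + 1) ((c + (i + 1) : ℕ) : ℚ)) := by
      rw [← map_mul, ← map_mul, h2]
    linear_combination p * h3

theorem nab_kop' (i c : ℕ) (F : MvPolynomial ℕ ℚ) :
    nab (c : ℚ) (kop' i F) = kop' i (nab (c : ℚ) F) +
      rr (i + 1) (c : ℚ) • (F - nab ((c + (i + 1) : ℕ) : ℚ) F) := by
  rw [kop', map_sub, nab_Vf', kop', Derivation.leibniz, nab_X, smul_sub, smul_eq_mul, smul_eq_mul,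
    MvPolynomial.smul_eq_C_mul F]
  ring

end W5a2b73
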