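import Pool.Agent.W_5a2b73_h94.PhiA

/-!
`Dop cs (K'_b F) = K'_b (Dop cs F) - ∑_t r_b(c_t) Dop (cs with c_t replaced by c_t + b) F`
for `cs = List.ofFn (fun i => (a i : ℚ))` by induction on `n`.
-/

open MvPolynomial Finset

namespace W5a2b73

theorem kop'_sub (i : ℕ) (F G : MvPolynomial ℕ ℚ) : kop' i (F - G) = kop' i F - kop' i G := by
  rw [kop', kop', kop', map_sub]; ring

theorem Dop_kop' (i : ℕ) {n : ℕ} (a : Fin n → ℕ) (F : MvPolynomial ℕ ℚ) :
    Dop (List.ofFn (fun t => (a t : ℚ))) (kop' i F) =
      kop' i (Dop (List.ofFn (fun t => (a t : ℚ))) F) -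
      ∑ t, rr (i + 1) (a t : ℚ) •
        Dop (List.ofFn (fun s => ((Function.update a t (a t + (i + 1)) s : ℕ) : ℚ))) F := by
  induction n with
  | zero => simp [Dop]
  | succ n ih =>
    have ih' := ih (fun t => a t.succ)
    rw [List.ofFn_succ, Dop, ih', Dop, Fin.sum_univ_succ]
    have h0 : (List.ofFn (fun s => ((Function.update a 0 (a 0 + (i + 1)) s : ℕ) : ℚ))) =
        ((a 0 + (i + 1) : ℕ) : ℚ) :: List.ofFn (fun t : Fin n => (a t.succ : ℚ)) := by
      rw [List.ofFn_succ]
      simp
    have hs : ∀ t : Fin n,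
        (List.ofFn (fun s => ((Function.update a t.succ (a t.succ + (i + 1)) s : ℕ) : ℚ))) =
        (a 0 : ℚ) :: List.ofFn (fun s : Fin n =>
          ((Function.update (fun t => a t.succ) t (a t.succ + (i + 1)) s : ℕ) : ℚ)) := by
      intro t
      rw [List.ofFn_succ]
      have hA : (fun s : Fin n =>
          ((Function.update a t.succ (a t.succ + (i + 1)) s.succ : ℕ) : ℚ)) = (fun s : Fin n =>
          ((Function.update (fun t => a t.succ) t (a t.succ + (i + 1)) s : ℕ) : ℚ)) := by
        ext s
        by_cases h : s = t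
        · subst h; simp
        · have : s.succ ≠ t.succ := fun e => h (Fin.succ_injective _ e)
          simp [Function.update_of_ne this, Function.update_of_ne h]
      rw [hA, Function.update_of_ne (Fin.succ_ne_zero t).symm]
    rw [h0]
    simp only [hs, Dop, map_sub, map_sum, nab_kop', kop'_sub, smul_sub, Finset.sum_sub_distrib,
      Derivation.map_smul]
    abel

end W5a2b73
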