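import Pool.Agent.W_5a2b73_h94.PhiB

/-!
The recursion for the functionals `φ_a`.  Put `b = i + 1` and
`K'_b F = X_i F - ∑_j r_{j+1}(b) X_{j+i+1} ∂_j F` (`kop'`).
* `sc (kop i p) = (gam b)⁻¹ • K'_b (sc p)` (`rr_nat`: `r_{j+1}(b) = γ_{j+1} γ_b / γ_{j+1+b}`;
  both sides: check that `F ↦ sc (Vf i p)` ... on monomials / products, or use that
  `p ↦ sc (Vf i p)` and `p ↦ (gam b)⁻¹ • V'_b (sc p)` are derivations along `sc`).
* `ev (K'_b F) = X * ev (F - nab b F)`.
* `nab c (K'_b F) = K'_b (nab c F) + r_b(c) (F - nab (b+c) F)` for natural `c` (`rr_mul`).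
* hence `Dop cs (K'_b F) = K'_b (Dop cs F) - ∑_t r_b(c_t) Dop (cs with c_t replaced by c_t + b) F`
  for `cs = List.ofFn (fun i => (a i : ℚ))` by induction on `n` (`List.ofFn_succ`, `Fin.sum_univ_succ`).
* normalisation: `(γ_b)⁻¹ (γ_{c})⁻¹ r_b(c) = (γ_{c+b})⁻¹` (`rr_nat`).
-/

open MvPolynomial Finset

namespace W5a2b73

private theorem phiC_Dop_one (cs : List ℚ) : Dop cs 1 = 1 := by
  induction cs with
  | nil => rfl
  | cons c cs ih =>
    show Dop cs 1 - nab c (Dop cs 1) = 1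
    rw [ih, Derivation.map_one_eq_zero, sub_zero]

private theorem phiC_Phi_kop' (N i : ℕ) {n : ℕ} (a : Fin n → ℕ) (F : MvPolynomial ℕ ℚ) :
    Phi N (List.ofFn (fun t => (a t : ℚ))) (kop' i F) =
      Phi N (((i + 1 : ℕ) : ℚ) :: List.ofFn (fun t => (a t : ℚ))) F -
      ∑ t, rr (i + 1) (a t : ℚ) *
        Phi N (List.ofFn (fun s => ((Function.update a t (a t + (i + 1)) s : ℕ) : ℚ))) F := by
  unfold Phi
  rw [Dop_kop', map_sub, mul_sub, map_sub, ev_kop', map_sum, mul_sum, map_sum]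
  congr 1
  · simp only [List.length_ofFn, List.length_cons, Dop]
    rw [← mul_assoc, ← pow_succ, add_assoc]
  · refine Finset.sum_congr rfl fun t _ => ?_
    rw [map_smul, mul_smul_comm, map_smul, smul_eq_mul]
    simp only [List.length_ofFn]

private theorem phiC_coef {n : ℕ} (a : Fin n → ℕ) (t : Fin n) (b : ℕ) :
    (∏ i, (gam (a i))⁻¹) * ((gam b)⁻¹ * rr b (a t : ℚ)) =
      ∏ i, (gam (Function.update a t (a t + b) i))⁻¹ := by
  rw [← Finset.mul_prod_erase univ (fun i => (gam (a i))⁻¹) (Finset.mem_univ t),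
    ← Finset.mul_prod_erase univ (fun i => (gam (Function.update a t (a t + b) i))⁻¹)
      (Finset.mem_univ t)]
  have h1 : ∏ x ∈ univ.erase t, (gam (Function.update a t (a t + b) x))⁻¹ =
      ∏ x ∈ univ.erase t, (gam (a x))⁻¹ := by
    refine Finset.prod_congr rfl fun x hx => ?_
    rw [Function.update_of_ne (Finset.ne_of_mem_erase hx)]
  have h2 : (gam (a t))⁻¹ * ((gam b)⁻¹ * rr b (a t : ℚ)) = (gam (a t + b))⁻¹ := by
    rw [rr_nat, add_comm b (a t)]
    have e1 := (gam_pos (a t)).ne'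
    have e2 := (gam_pos b).ne'
    have e3 := (gam_pos (a t + b)).ne'
    field_simp
  rw [h1, Function.update_self, ← h2]
  ring

theorem phiF_kop (N i : ℕ) {n : ℕ} (a : Fin n → ℕ) (p : MvPolynomial ℕ ℚ) :
    phiF N a (kop i p) = phiF N (Fin.cons (i + 1) a : Fin (n + 1) → ℕ) p -
      ∑ t, phiF N (Function.update a t (a t + (i + 1))) p := by
  have hc : ∀ t : Fin n, (∏ i, (gam (a i))⁻¹) * ((gam (i + 1))⁻¹ * rr (i + 1) (a t : ℚ)) =
      ∏ i', (gam (Function.update a t (a t + (i + 1)) i'))⁻¹ := fun t => phiC_coef a t (i + 1)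
  unfold phiF
  rw [sc_kop, Phi_smul, phiC_Phi_kop', Fin.prod_univ_succ]
  simp only [Fin.cons_zero, Fin.cons_succ]
  rw [List.ofFn_succ]
  simp only [Fin.cons_zero, Fin.cons_succ]
  rw [mul_sub, mul_sub, Finset.mul_sum, Finset.mul_sum]
  congr 1
  · ring
  · refine Finset.sum_congr rfl fun t _ => ?_
    rw [← hc t]
    ring

theorem phiF_one (N : ℕ) {n : ℕ} (a : Fin n → ℕ) :
    phiF N a 1 = (∏ i, (gam (a i))⁻¹) * ((N + n).factorial : ℚ) := by
  unfold phiF Phi
  rw [map_one, phiC_Dop_one, map_one, mul_one, lap_X_pow, List.length_ofFn]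

end W5a2b73
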