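import Pool.Agent.W_5a2b73_h94.StrB

/-!
String equation.
`Eul_Dop` by induction on `cs`: with `f_i = (i+1) r_{i+1}(c)` one has (`Eul_cd`)
`Eul (F - nab c F) = Eul F - nab c (Eul F) + cd f F` and (`rr_shift` with `j = i+1`)
`2 cd f F = (2c+1) (nab (c-1) F - nab c F) = (2c+1) ((F - nab c F) - (F - nab (c-1) F))`.
`Phi_neg_one`: `nab (-1) = cd (2(i+1)+1)` (`rr_arg_neg_one`), use `ev_cd_odd`, `lap_derivative`,
`Eul_Dop`: with `Q = Dop cs P`, `q = ev Q`, `n = cs.length`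
`Phi N (-1::cs) P = lap (X^(N+n+1) q) - lap (X^(N+n) (2 ev (Eul Q) + X q'))`.
`Zop_zero`: induction on `cs`, generalizing `pre`
(`Dop pre (Zop (c::cs) P) = (2c+1) Dop (pre ++ (c-1)::cs) P + Dop (pre ++ [c]) (Zop cs P)`).
-/

open MvPolynomial Finset

namespace W5a2b73

private theorem StrC_toQ (τ : List ℕ) : toQ τ = List.map (fun x : ℕ => (x : ℚ)) τ := by
  induction τ with
  | nil => rfl
  | cons x τ ih =>
    have h1 : toQ (x :: τ) = (x : ℚ) :: toQ τ := rfl
    rw [h1, ih, List.map_cons]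

private theorem StrC_sum (τ : List ℕ) : (toQ τ).sum = (τ.sum : ℚ) := by
  induction τ with
  | nil => simp [toQ]
  | cons x τ ih =>
    have h1 : toQ (x :: τ) = (x : ℚ) :: toQ τ := rfl
    rw [h1, List.sum_cons, ih, List.sum_cons]
    push_cast
    ring

/-- string equation at the points used in the proof -/
theorem string_step {k N : ℕ} {W : ℚ} {P : MvPolynomial ℕ ℚ} (hN : (N : ℚ) = 2 * W + 2 * k + 1)
    (hV : P ∈ V k) (hT : TC k N W P) (τ : List ℕ) (hτ : ∀ x ∈ τ, 1 ≤ x)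
    (hτk : (τ.map (fun x => x + 1)).sum ≤ k) (hpos : 0 ≤ W - (τ.sum : ℚ)) :
    Phi N ((W - (τ.sum : ℚ) + 1) :: (-1) :: toQ τ) P = 0 := by
  have hW : (0 : ℚ) < W - (τ.sum : ℚ) + 1 := by linarith
  have hperm : Phi N ((W - (τ.sum : ℚ) + 1) :: (-1) :: toQ τ) P =
      Phi N ((-1) :: (W - (τ.sum : ℚ) + 1) :: toQ τ) P := Phi_perm N (List.Perm.swap _ _ _) P
  have hne : ∀ c ∈ (W - (τ.sum : ℚ) + 1) :: toQ τ, ∀ l : ℕ, 2 * c + 2 * (l : ℚ) + 1 ≠ 0 := by
    intro c hc l
    have hc0 : 0 ≤ c := by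
      rcases List.mem_cons.1 hc with rfl | hc
      · exact hW.le
      · rw [StrC_toQ] at hc
        obtain ⟨x, _, rfl⟩ := List.mem_map.1 hc
        exact Nat.cast_nonneg x
    have hl : (0 : ℚ) ≤ (l : ℚ) := Nat.cast_nonneg l
    have : 0 < 2 * c + 2 * (l : ℚ) + 1 := by positivity
    exact this.ne'
  rw [hperm, Phi_neg_one N hV _ hne, List.sum_cons, StrC_sum]
  have hz := Zop_zero N P [] ((W - (τ.sum : ℚ) + 1) :: toQ τ) ?_
  · have h1 : (N : ℚ) + 1 - 2 * k - 2 * (W - (τ.sum : ℚ) + 1 + (τ.sum : ℚ)) = 0 := by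
      rw [hN]
      ring
    rw [h1, zero_mul, zero_add]
    simpa [Dop] using hz
  · intro l₁ l₂ c hc
    rw [List.nil_append]
    rcases l₁ with _ | ⟨d, l₁⟩
    · rw [List.nil_append] at hc
      obtain ⟨rfl, rfl⟩ := List.cons_eq_cons.1 hc
      rw [List.nil_append, add_sub_cancel_right]
      exact hT τ hτ hτk
    · rw [List.cons_append] at hc
      obtain ⟨hd, hc2⟩ := List.cons_eq_cons.1 hc
      clear hc
      subst hd
      rw [StrC_toQ] at hc2
      obtain ⟨t₁, t', rfl, rfl, ht'⟩ := List.map_eq_append_iff.1 hc2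
      obtain ⟨x, t₂, rfl, rfl, rfl⟩ := List.map_eq_cons_iff.1 ht'
      have hx : 1 ≤ x := hτ x (by simp)
      obtain ⟨y, rfl⟩ : ∃ y, x = y + 1 := ⟨x - 1, by omega⟩
      have h2 := TC_zero hT (t₁ ++ y :: t₂) (by
        simp only [List.map_append, List.map_cons, List.sum_append, List.sum_cons] at hτk ⊢
        omega)
      have h3 : W - (((t₁ ++ y :: t₂).sum : ℕ) : ℚ) =
          W - (((t₁ ++ (y + 1) :: t₂).sum : ℕ) : ℚ) + 1 := by
        simp only [List.sum_append, List.sum_cons]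
        push_cast
        ring
      have h4 : toQ (t₁ ++ y :: t₂) =
          List.map (fun x : ℕ => (x : ℚ)) t₁ ++ (((y + 1 : ℕ) : ℚ) - 1) ::
            List.map (fun x : ℕ => (x : ℚ)) t₂ := by
        rw [StrC_toQ, List.map_append, List.map_cons]
        congr 2
        push_cast
        ring
      rw [h3, h4] at h2
      exact h2

end W5a2b73
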