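import Pool.Agent.W_5a2b73_h94.Defs

/-!
Interpolation lemma.  Put `z(c) = c (w - c)`, `ζ_l = bt l * (w + bt l)`; then
`(w - c + bt l) (c + bt l) = z(c) + ζ_l` and
`(w-c+bt l)⁻¹ + (c+bt l)⁻¹ = (w + 2 bt l) / (z(c) + ζ_l)`.
The polynomial `F(z) = κ ∏_l (z + ζ_l) - ∑_l (w + 2 bt l) ρ_l ∏_{l' ≠ l} (z + ζ_{l'})` has degree
`≤ m` and vanishes at the `m + 1` distinct points `z(c)`, `c = -1, ..., m-1`
(`z(i) - z(j) = (i - j)(w - i - j)`), so `F = 0`; evaluate at `z = -ζ_l`
(`ζ_l - ζ_{l'} = (bt l - bt l')(w + bt l + bt l')`, `w + 2 bt l ≠ 0`).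
Hint: `Polynomial.eq_zero_of_degree_lt_of_eval_finset_eq_zero` or
`Polynomial.eq_zero_of_natDegree_lt_card_of_eval_eq_zero'`.
-/

open Finset

namespace W5a2b73

theorem uniq (m : ℕ) (κ w : ℚ) (ρ : ℕ → ℚ)
    (h1 : ∀ c : ℤ, -1 ≤ c → c < m → ∀ l < m, w - (c : ℚ) + bt l ≠ 0)
    (h2 : ∀ i j : ℤ, -1 ≤ i → i < j → j < m → w ≠ (i : ℚ) + (j : ℚ))
    (h3 : ∀ l < m, ∀ l' < m, w + bt l + bt l' ≠ 0)
    (h : ∀ c : ℤ, -1 ≤ c → c < m →
      κ - ∑ l ∈ range m, ((w - (c : ℚ) + bt l)⁻¹ + ((c : ℚ) + bt l)⁻¹) * ρ l = 0) :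
    ∀ l < m, ρ l = 0 := by
  classical
  set ζ : ℕ → ℚ := fun l => bt l * (w + bt l) with hζ
  set z : ℕ → ℚ := fun k => ((k : ℚ) - 1) * (w - ((k : ℚ) - 1)) with hz
  set F : Polynomial ℚ := Polynomial.C κ * ∏ l ∈ range m, (Polynomial.X + Polynomial.C (ζ l)) -
    ∑ l ∈ range m, Polynomial.C ((w + 2 * bt l) * ρ l) *
      ∏ l' ∈ (range m).erase l, (Polynomial.X + Polynomial.C (ζ l')) with hF
  have hprod : ∀ (s : Finset ℕ) (a : ℚ), (Polynomial.C a *
      ∏ l ∈ s, (Polynomial.X + Polynomial.C (ζ l))).degree ≤ ((s.card : ℕ) : WithBot ℕ) := by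
    intro s a
    rw [Polynomial.degree_mul, Polynomial.degree_prod]
    have h1 : ∀ l ∈ s, (Polynomial.X + Polynomial.C (ζ l)).degree = (1 : WithBot ℕ) :=
      fun l _ => Polynomial.degree_X_add_C _
    rw [Finset.sum_congr rfl h1]
    have h2 : (Polynomial.C a).degree ≤ (0 : WithBot ℕ) := Polynomial.degree_C_le
    calc (Polynomial.C a).degree + ∑ _l ∈ s, (1 : WithBot ℕ) ≤ 0 + ∑ _l ∈ s, (1 : WithBot ℕ) :=
          add_le_add_left h2 _
      _ = _ := by simp
  have hdeg : F.degree < (((range (m + 1)).card : ℕ) : WithBot ℕ) := by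
    have hm : F.degree ≤ ((m : ℕ) : WithBot ℕ) := by
      rw [hF]
      refine (Polynomial.degree_sub_le _ _).trans (max_le ?_ ?_)
      · have := hprod (range m) κ
        rwa [card_range] at this
      · refine (Polynomial.degree_sum_le _ _).trans ?_
        refine Finset.sup_le fun l hl => ?_
        refine (hprod _ _).trans ?_
        exact_mod_cast (Finset.card_le_card (Finset.erase_subset l (range m))).trans
          (card_range m).le
    refine lt_of_le_of_lt hm ?_
    rw [card_range]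
    exact_mod_cast Nat.lt_succ_self m
  have hinj : Set.InjOn z (range (m + 1)) := by
    have key : ∀ i j : ℕ, i < j → j < m + 1 → z i ≠ z j := by
      intro i j hij hj heq
      have h4 := h2 ((i : ℤ) - 1) ((j : ℤ) - 1) (by omega) (by omega) (by omega)
      push_cast at h4
      have h5 : ((i : ℚ) - j) * (w - ((i : ℚ) - 1 + ((j : ℚ) - 1))) = 0 := by
        have : z i - z j = 0 := sub_eq_zero.2 heq
        rw [hz] at this
        simp only at this
        rw [← this]
        ring
      rcases mul_eq_zero.1 h5 with h6 | h6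
      · have : (i : ℚ) < j := by exact_mod_cast hij
        linarith
      · exact h4 (by linarith)
    intro i hi j hj heq
    have hi' : i < m + 1 := by simpa using hi
    have hj' : j < m + 1 := by simpa using hj
    rcases lt_trichotomy i j with hlt | hlt | hlt
    · exact absurd heq (key i j hlt hj')
    · exact hlt
    · exact absurd heq.symm (key j i hlt hi')
  have hbt : ∀ l : ℕ, (3 : ℚ) / 2 ≤ bt l := by
    intro l
    unfold bt
    have : (0 : ℚ) ≤ l := Nat.cast_nonneg l
    linarith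
  have heval : ∀ k ∈ range (m + 1), F.eval (z k) = 0 := by
    intro k hk
    have hk' : k < m + 1 := by simpa using hk
    have hc := h ((k : ℤ) - 1) (by omega) (by omega)
    push_cast at hc
    have hk0 : (0 : ℚ) ≤ k := Nat.cast_nonneg k
    have hA : ∀ l < m, w - ((k : ℚ) - 1) + bt l ≠ 0 := by
      intro l hl
      have := h1 ((k : ℤ) - 1) (by omega) (by omega) l hl
      push_cast at this
      exact this
    have hB : ∀ l : ℕ, ((k : ℚ) - 1) + bt l ≠ 0 := by
      intro l
      have := hbt l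
      intro h0
      linarith
    have hAB : ∀ l, (w - ((k : ℚ) - 1) + bt l) * (((k : ℚ) - 1) + bt l) = z k + ζ l := by
      intro l
      rw [hz, hζ]
      ring
    have hne : ∀ l < m, z k + ζ l ≠ 0 := fun l hl => by
      rw [← hAB]
      exact mul_ne_zero (hA l hl) (hB l)
    have hterm : ∀ l ∈ range m, (w + 2 * bt l) * ρ l * ∏ l' ∈ (range m).erase l, (z k + ζ l') =
        ((w - ((k : ℚ) - 1) + bt l)⁻¹ + (((k : ℚ) - 1) + bt l)⁻¹) * ρ l *
          ∏ l' ∈ range m, (z k + ζ l') := by
      intro l hl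
      have hl' : l < m := by simpa using hl
      rw [← Finset.mul_prod_erase (range m) (fun l' => z k + ζ l') hl]
      have e1 : ((w - ((k : ℚ) - 1) + bt l)⁻¹ + (((k : ℚ) - 1) + bt l)⁻¹) * (z k + ζ l) =
          w + 2 * bt l := by
        rw [← hAB]
        have := hA l hl'
        have := hB l
        field_simp
        ring
      rw [← e1]
      ring
    have h7 : F.eval (z k) = (κ - ∑ l ∈ range m, ((w - ((k : ℚ) - 1) + bt l)⁻¹ +
        (((k : ℚ) - 1) + bt l)⁻¹) * ρ l) * ∏ l' ∈ range m, (z k + ζ l') := by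
      rw [hF]
      simp only [Polynomial.eval_sub, Polynomial.eval_mul, Polynomial.eval_C,
        Polynomial.eval_prod, Polynomial.eval_add, Polynomial.eval_X, Polynomial.eval_finsetSum]
      rw [Finset.sum_congr rfl hterm, sub_mul, Finset.sum_mul]
    rw [h7, hc, zero_mul]
  have hF0 : F = 0 := Polynomial.eq_zero_of_degree_lt_of_eval_index_eq_zero _ hinj hdeg heval
  intro l hl
  have h8 : F.eval (-ζ l) = 0 := by rw [hF0, Polynomial.eval_zero]
  rw [hF] at h8
  simp only [Polynomial.eval_sub, Polynomial.eval_mul, Polynomial.eval_C,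
    Polynomial.eval_prod, Polynomial.eval_add, Polynomial.eval_X, Polynomial.eval_finsetSum] at h8
  have hlm : l ∈ range m := by simpa using hl
  rw [Finset.prod_eq_zero hlm (neg_add_cancel (ζ l)), mul_zero, zero_sub, neg_eq_zero,
    Finset.sum_eq_single l] at h8
  · rcases mul_eq_zero.1 h8 with h9 | h9
    · rcases mul_eq_zero.1 h9 with h10 | h10
      · exact absurd h10 (by have := h3 l hl l hl; intro h0; exact this (by linarith))
      · exact h10
    · rw [Finset.prod_eq_zero_iff] at h9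
      obtain ⟨l', hl', h10⟩ := h9
      have hl1 : l' ≠ l := (Finset.mem_erase.1 hl').1
      have hl2 : l' < m := by simpa using (Finset.mem_erase.1 hl').2
      have h11 : (bt l' - bt l) * (w + bt l + bt l') = 0 := by
        rw [← h10, hζ]
        ring
      rcases mul_eq_zero.1 h11 with h12 | h12
      · exfalso
        unfold bt at h12
        apply hl1
        have : (l' : ℚ) = l := by linarith
        exact_mod_cast this
      · exact absurd h12 (h3 l hl l' hl2)
  · intro b hb hbl
    rw [Finset.prod_eq_zero (Finset.mem_erase.2 ⟨Ne.symm hbl, hlm⟩) (neg_add_cancel (ζ l)),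
      mul_zero]
  · intro h0
    exact absurd hlm h0

end W5a2b73
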