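import Pool.Agent.W_5a2b73_h94.PF
import Pool.Agent.W_5a2b73_h94.StrC
import Pool.Agent.W_5a2b73_h94.Uniq

/-!
The step lemma.  With `w' = W - τ.sum` and `f(c) = Phi N ((w' - c) :: c :: toQ τ) P`:
`f(c) = 0` for `c = -1` (`string_step`), `c = 0` (`Phi_perm`, `Phi_zero_cons`, `TC`), and
`c = 1, ..., m` (`TC` for the list `c :: τ`).  Then `Phi_pf` (with `m + 1` poles, `SV (m+1) P`) and
`uniq` (with `m + 1` in place of `m`), `dl_top`, `rho_self_ne`, `Phi_smul`.
-/

open MvPolynomial Finset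

namespace W5a2b73

theorem step {k m N : ℕ} {W : ℚ} {P : MvPolynomial ℕ ℚ} (hN : (N : ℚ) = 2 * W + 2 * k + 1)
    (hV : P ∈ V k) (hS : SV (m + 1) P) (hT : TC k N W P) (τ : List ℕ) (hτ : ∀ x ∈ τ, 1 ≤ x)
    (hτk : (τ.map (fun x => x + 1)).sum + (m + 1) ≤ k) (hpos : (m : ℚ) ≤ W - (τ.sum : ℚ))
    (hd : ∀ i j : ℤ, -1 ≤ i → i < j → j ≤ m → W - (τ.sum : ℚ) ≠ (i : ℚ) + (j : ℚ)) :
    Phi (N + 1) ((W - (τ.sum : ℚ) + bt m) :: toQ τ) (pderiv m P) = 0 := by
  have hbt : ∀ l : ℕ, (3 : ℚ) / 2 ≤ bt l := by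
    intro l
    unfold bt
    have : (0 : ℚ) ≤ l := Nat.cast_nonneg l
    linarith
  have hm0 : (0 : ℚ) ≤ (m : ℚ) := Nat.cast_nonneg m
  generalize hw : W - (τ.sum : ℚ) = w at hpos hd ⊢
  have hf : ∀ c : ℤ, -1 ≤ c → c < ((m + 1 : ℕ) : ℤ) →
      Phi N ((w - (c : ℚ)) :: (c : ℚ) :: toQ τ) P = 0 := by
    intro c hc1 hc2
    rcases lt_or_ge c 0 with hc | hc
    · have hc3 : c = -1 := by omega
      subst hc3
      have h1 := string_step hN hV hT τ hτ (by omega) (by rw [hw]; linarith)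
      rw [hw] at h1
      have h2 : w - (((-1 : ℤ)) : ℚ) = w + 1 := by
        push_cast
        ring
      have h3 : (((-1 : ℤ)) : ℚ) = -1 := by push_cast; ring
      rw [h2, h3]
      exact h1
    · obtain ⟨n, rfl⟩ := Int.eq_ofNat_of_zero_le hc
      have h1 := TC_zero hT (n :: τ) (by
        simp only [List.map_cons, List.sum_cons]
        omega)
      have h2 : W - (((n :: τ).sum : ℕ) : ℚ) = w - (((n : ℤ)) : ℚ) := by
        rw [← hw, List.sum_cons]
        push_cast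
        ring
      have h3 : toQ (n :: τ) = (((n : ℤ)) : ℚ) :: toQ τ := by
        have h4 : toQ (n :: τ) = ((n : ℕ) : ℚ) :: toQ τ := rfl
        rw [h4, Int.cast_natCast]
      rw [h2, h3] at h1
      exact h1
  have hc0 : ∀ c : ℤ, -1 ≤ c → c < ((m + 1 : ℕ) : ℤ) → ∀ l < m + 1,
      w - (c : ℚ) + bt l ≠ 0 := by
    intro c hc1 hc2 l _
    have h1 : (c : ℚ) ≤ m := by
      have : c ≤ (m : ℤ) := by
        push_cast at hc2
        omega
      exact_mod_cast this
    have h2 := hbt l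
    intro h0
    linarith
  have hc1' : ∀ c : ℤ, -1 ≤ c → ∀ l < m + 1, (c : ℚ) + bt l ≠ 0 := by
    intro c hc1 l _
    have h1 : (-1 : ℚ) ≤ (c : ℚ) := by exact_mod_cast hc1
    have h2 := hbt l
    intro h0
    linarith
  have hc2' : ∀ l < m + 1, ∀ l' < m + 1, w + bt l + bt l' ≠ 0 := by
    intro l _ l' _
    have h1 := hbt l
    have h2 := hbt l'
    intro h0
    linarith
  have key := uniq (m + 1)
    (lap (Polynomial.X ^ (N + (toQ τ).length + 2) * ev (Dop (toQ τ) P))) w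
    (fun l => Phi (N + 1) ((w + bt l) :: toQ τ) (dl l P)) hc0
    (by
      intro i j hi hij hj
      exact hd i j hi hij (by push_cast at hj; omega))
    hc2'
    (by
      intro c h1 h2
      have h3 := hf c h1 h2
      have h4 : w - (c : ℚ) + (c : ℚ) = w := by ring
      rw [Phi_pf N hS (toQ τ) (w - (c : ℚ)) (c : ℚ) (hc0 c h1 h2) (hc1' c h1)
        (by rw [h4]; exact hc2'), h4] at h3
      exact h3)
    m (Nat.lt_succ_self m)
  beta_reduce at key
  rw [dl_top hS, Phi_smul] at key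
  exact (mul_eq_zero.1 key).resolve_left (rho_self_ne m)

end W5a2b73
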