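import Pool.Agent.W_5a2b73_h94.FinD
import Pool.Agent.W_5a2b73_h94.Exist

/-!
Short forms for the final statement.
-/

open MvPolynomial Finset Module

namespace W5a2b73

variable {R : Type*} [CommRing R] [Algebra ℚ R]

/-- No non-zero element of `W` is orthogonal to `R^l`. -/
def LeftNondeg (κ : ℕ → R) (ε : R →ₗ[ℚ] ℚ) (W : Submodule ℚ R) (l : ℕ) : Prop :=
  ∀ x ∈ W, (∀ y ∈ Rk κ l, ε (x * y) = 0) → x = 0

/-- The classes `κ_i` with `3i > g` are polynomials of weight `i` in the `κ_j` with `3j ≤ g`. -/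
def Generated (g : ℕ) (κ : ℕ → R) : Prop :=
  ∀ i, g < 3 * i → ∃ P ∈ V i, (∀ j ∈ P.vars, 3 * (j + 1) ≤ g) ∧ κ i = kev κ P

theorem leftNondeg_of_injective {κ : ℕ → R} {ε : R →ₗ[ℚ] ℚ} {k l : ℕ}
    (h : Function.Injective (pairing κ ε k l)) : LeftNondeg κ ε (Rk κ k) l := by
  intro x hx hxy
  have h1 : pairing κ ε k l ⟨x, hx⟩ = 0 := by
    ext ⟨y, hy⟩
    exact hxy y hy
  have h2 := (injective_iff_map_eq_zero _).1 h _ h1
  exact congrArg Subtype.val h2

theorem exists_leftNondeg (κ : ℕ → R) (ε : R →ₗ[ℚ] ℚ) (k l : ℕ) :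
    ∃ W ≤ Rk κ k, finrank ℚ W = finrank ℚ (LinearMap.range (pairing κ ε k l)) ∧
      LeftNondeg κ ε W l := by
  obtain ⟨W', hW'⟩ := Submodule.exists_isCompl (LinearMap.ker (pairing κ ε k l))
  refine ⟨W'.map (Rk κ k).subtype, Submodule.map_subtype_le _ _, ?_, ?_⟩
  · have e1 : finrank ℚ (W'.map (Rk κ k).subtype) = finrank ℚ W' :=
      (Submodule.equivMapOfInjective _ (Rk κ k).subtype_injective W').finrank_eq.symm
    have e2 : finrank ℚ (LinearMap.range (pairing κ ε k l)) = finrank ℚ W' := by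
      have q1 := (LinearMap.quotKerEquivRange (pairing κ ε k l)).finrank_eq
      have q2 := (Submodule.quotientEquivOfIsCompl _ _ hW').finrank_eq
      rw [← q1, q2]
    rw [e1, e2]
  · intro x hx hxy
    obtain ⟨x', hx', rfl⟩ := hx
    have h1 : x' ∈ LinearMap.ker (pairing κ ε k l) := by
      rw [LinearMap.mem_ker]
      ext ⟨y, hy⟩
      exact hxy y hy
    have h2 : x' ∈ LinearMap.ker (pairing κ ε k l) ⊓ W' := ⟨h1, hx'⟩
    rw [hW'.inf_eq_bot, Submodule.mem_bot] at h2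
    rw [h2, map_zero]

end W5a2b73
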