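import Pool.Agent.W_5a2b73_h94.Dil

/-!
String equation.
`Eul_Dop` by induction on `cs`: with `f_i = (i+1) r_{i+1}(c)` one has (`Eul_cd`)
`Eul (F - nab c F) = Eul F - nab c (Eul F) + cd f F` and (`rr_shift` with `j = i+1`)
`2 cd f F = (2c+1) (nab (c-1) F - nab c F) = (2c+1) ((F - nab c F) - (F - nab (c-1) F))`.
`Phi_neg_one`: `nab (-1) = cd (2(i+1)+1)` (`rr_arg_neg_one`), use `ev_cd_odd`, `lap_derivative`,
`Eul_Dop`: with `Q = Dop cs P`, `q = ev Q`, `n = cs.length`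
`Phi N (-1::cs) P = lap (X^(N+n+1) q) - lap (X^(N+n) (2 ev (Eul Q) + X q'))`.
`Zop_zero`: induction on `cs`, generalizing `pre`
(`Dop pre (Zop (c::cs) P) = (2c+1) Dop (pre ++ (c-1)::cs) P + Dop (pre ++ [c]) (Zop cs P)`).
-/

open MvPolynomial Finset

namespace W5a2b73

theorem Eul_Dop {k : ℕ} {P : MvPolynomial ℕ ℚ} (h : P ∈ V k) (cs : List ℚ)
    (hcs : ∀ c ∈ cs, ∀ l : ℕ, 2 * c + 2 * (l : ℚ) + 1 ≠ 0) :
    (2 : ℚ) • Eul (Dop cs P) =
      (2 * (k : ℚ) + 2 * cs.sum + cs.length) • Dop cs P - Zop cs P := by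
  induction cs with
  | nil =>
    have e := Eul_of_V h
    simp only [Dop, Zop, List.sum_nil, List.length_nil]
    rw [e, smul_smul]
    simp
  | cons c cs ih =>
    have hc : ∀ l : ℕ, 2 * c + 2 * (l : ℚ) + 1 ≠ 0 := hcs c List.mem_cons_self
    have ih' := ih (fun x hx => hcs x (List.mem_cons_of_mem _ hx))
    obtain ⟨F, hF⟩ : ∃ F, F = Dop cs P := ⟨_, rfl⟩
    obtain ⟨Z, hZ⟩ : ∃ Z, Z = Zop cs P := ⟨_, rfl⟩
    obtain ⟨A, hA⟩ : ∃ A : ℚ, A = 2 * (k : ℚ) + 2 * cs.sum + cs.length := ⟨_, rfl⟩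
    rw [← hF, ← hZ, ← hA] at ih'
    have e1 : Dop (c :: cs) P = F - nab c F := by rw [hF]; rfl
    have e2 : Dop ((c - 1) :: cs) P = F - nab (c - 1) F := by rw [hF]; rfl
    have e3 : Zop (c :: cs) P = (2 * c + 1) • (F - nab (c - 1) F) + (Z - nab c Z) := by
      rw [← e2, hZ]
      rfl
    have e4 : Eul (nab c F) = nab c (Eul F) -
        cd (fun i => ((i : ℚ) + 1) * rr (i + 1) c) F := Eul_cd (fun i => rr (i + 1) c) F
    have e5 : (2 : ℚ) • cd (fun i => ((i : ℚ) + 1) * rr (i + 1) c) F =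
        (2 * c + 1) • (nab (c - 1) F - nab c F) := by
      have h1 : (2 : ℚ) • (fun i : ℕ => ((i : ℚ) + 1) * rr (i + 1) c) +
          (2 * c + 1) • (fun i : ℕ => rr (i + 1) c) =
          (2 * c + 1) • (fun i : ℕ => rr (i + 1) (c - 1)) := by
        funext i
        have := rr_shift (i + 1) c hc
        simp only [Pi.add_apply, Pi.smul_apply, smul_eq_mul]
        push_cast at this
        linarith
      have h2 : (2 : ℚ) • cd (fun i : ℕ => ((i : ℚ) + 1) * rr (i + 1) c) F +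
          (2 * c + 1) • nab c F = (2 * c + 1) • nab (c - 1) F := by
        unfold nab
        rw [← cd_smul, ← cd_smul, ← cd_smul, ← cd_add, h1]
      rw [smul_sub, ← h2]
      abel
    have e6 : nab c ((2 : ℚ) • Eul F) = A • nab c F - nab c Z := by
      rw [ih', map_sub, Derivation.map_smul]
    rw [Derivation.map_smul] at e6
    rw [e1, e3, map_sub, e4, smul_sub, smul_sub, ih', e6, e5, List.sum_cons, List.length_cons]
    have e7 : 2 * (k : ℚ) + 2 * (c + cs.sum) + ((cs.length + 1 : ℕ) : ℚ) = A + (2 * c + 1) := by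
      rw [hA]
      push_cast
      ring
    rw [e7]
    module

end W5a2b73
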