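import Pool.Agent.W_5a2b73_h94.StrA

/-!
String equation.
`Eul_Dop` by induction on `cs`: with `f_i = (i+1) r_{i+1}(c)` one has (`Eul_cd`)
`Eul (F - nab c F) = Eul F - nab c (Eul F) + cd f F` and (`rr_shift` with `j = i+1`)
`2 cd f F = (2c+1) (nab (c-1) F - nab c F) = (2c+1) ((F - nab c F) - (F - nab (c-1) F))`.
`Phi_neg_one`: `nab (-1) = cd (2(i+1)+1)` (`rr_arg_neg_one`), use `ev_cd_odd`, `lap_derivative`,
`Eul_Dop`: with `Q = Dop cs P`, `q = ev Q`, `n = cs.length`
`Phi N (-1::cs) P = lap (X^(N+n+1) q) - lap (X^(N+n) (2 ev (Eul Q) + X q'))`.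
`Zop_zero`: induction on `cs`, generalizing `pre`
(`Dop pre (Zop (c::cs) P) = (2c+1) Dop (pre ++ (c-1)::cs) P + Dop (pre ++ [c]) (Zop cs P)`).
-/

open MvPolynomial Finset

namespace W5a2b73

theorem Phi_neg_one (N : ℕ) {k : ℕ} {P : MvPolynomial ℕ ℚ} (h : P ∈ V k) (cs : List ℚ)
    (hcs : ∀ c ∈ cs, ∀ l : ℕ, 2 * c + 2 * (l : ℚ) + 1 ≠ 0) :
    Phi N (-1 :: cs) P = ((N : ℚ) + 1 - 2 * k - 2 * cs.sum) * Phi N cs P +
      lap (Polynomial.X ^ (N + cs.length) * ev (Zop cs P)) := by
  have hE := Eul_Dop h cs hcs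
  set Q : MvPolynomial ℕ ℚ := Dop cs P with hQ
  set M : ℕ := N + cs.length with hM
  have h1 : Phi N (-1 :: cs) P = lap (Polynomial.X ^ (M + 1) * ev (Q - nab (-1) Q)) := by
    unfold Phi
    rw [List.length_cons, ← Nat.add_assoc]
    rfl
  have h2 : nab (-1) Q = cd (fun i => 2 * ((i : ℚ) + 1) + 1) Q := by
    unfold nab
    congr 2
    funext i
    rw [rr_arg_neg_one]
    push_cast
    ring
  have h3 := ev_cd_odd Q
  rw [← h2] at h3
  have h4 : Polynomial.X ^ (M + 1) * ev (Q - nab (-1) Q) =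
      Polynomial.X ^ (M + 1) * ev Q - ((2 : ℚ) • (Polynomial.X ^ M * ev (Eul Q)) +
        Polynomial.X ^ (M + 1) * Polynomial.derivative (ev Q)) := by
    have h5 : Polynomial.X ^ (M + 1) * ev (nab (-1) Q) =
        Polynomial.X ^ M * (Polynomial.X * ev (nab (-1) Q)) := by
      rw [pow_succ, mul_assoc]
    rw [map_sub, mul_sub, h5, h3, mul_add, mul_smul_comm, ← mul_assoc, ← pow_succ]
  have h6 := lap_derivative M (ev Q)
  have h7 : Polynomial.derivative (Polynomial.X ^ (M + 1) * ev Q) =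
      ((M : ℚ) + 1) • (Polynomial.X ^ M * ev Q) +
        Polynomial.X ^ (M + 1) * Polynomial.derivative (ev Q) := by
    rw [Polynomial.derivative_mul, Polynomial.derivative_X_pow, Polynomial.smul_eq_C_mul]
    simp only [Nat.add_sub_cancel, Nat.cast_add, Nat.cast_one, map_add, map_natCast, map_one]
    ring
  rw [h7, map_add, map_smul, smul_eq_mul] at h6
  have h8 : (2 : ℚ) * lap (Polynomial.X ^ M * ev (Eul Q)) =
      (2 * (k : ℚ) + 2 * cs.sum + cs.length) * lap (Polynomial.X ^ M * ev Q) -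
        lap (Polynomial.X ^ M * ev (Zop cs P)) := by
    have h9 := congrArg (fun F => lap (Polynomial.X ^ M * ev F)) hE
    simp only [map_sub, map_smul, mul_sub, mul_smul_comm, smul_eq_mul] at h9
    exact h9
  have h10 : Phi N cs P = lap (Polynomial.X ^ M * ev Q) := rfl
  have hMc : (M : ℚ) = N + cs.length := by
    rw [hM]
    push_cast
    ring
  rw [h1, h4, map_sub, map_add, map_smul, smul_eq_mul, h10]
  rw [hMc] at h6
  linear_combination -h6 - h8

theorem Zop_zero (N : ℕ) (P : MvPolynomial ℕ ℚ) (pre cs : List ℚ)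
    (h : ∀ (l₁ l₂ : List ℚ) (c : ℚ), cs = l₁ ++ c :: l₂ →
      Phi N (pre ++ (l₁ ++ (c - 1) :: l₂)) P = 0) :
    lap (Polynomial.X ^ (N + pre.length + cs.length) * ev (Dop pre (Zop cs P))) = 0 := by
  induction cs generalizing pre with
  | nil =>
    have h0 : Dop pre (Zop [] P) = 0 := by
      have h1 := Dop_smul pre 0 (0 : MvPolynomial ℕ ℚ)
      rw [zero_smul, zero_smul] at h1
      exact h1
    rw [h0, map_zero, mul_zero, map_zero]
  | cons c cs ih =>
    have h1 : Dop pre (Zop (c :: cs) P) =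
        (2 * c + 1) • Dop (pre ++ (c - 1) :: cs) P + Dop (pre ++ [c]) (Zop cs P) := by
      have h2 : Zop (c :: cs) P =
          (2 * c + 1) • Dop ((c - 1) :: cs) P + (Zop cs P - nab c (Zop cs P)) := rfl
      rw [h2, Dop_add, Dop_smul, Dop_append, Dop_append]
      rfl
    have h3 := h [] cs c rfl
    have h4 := ih (pre ++ [c]) (fun l₁ l₂ c' hl => by
      have h5 := h (c :: l₁) l₂ c' (by rw [hl]; rfl)
      have h6 : pre ++ [c] ++ (l₁ ++ (c' - 1) :: l₂) = pre ++ (c :: l₁ ++ (c' - 1) :: l₂) := by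
        simp
      rw [h6]
      exact h5)
    have h7 : N + (pre ++ [c]).length + cs.length = N + pre.length + (c :: cs).length := by
      simp only [List.length_append, List.length_cons, List.length_nil]
      omega
    rw [h7] at h4
    have h8 : lap (Polynomial.X ^ (N + pre.length + (c :: cs).length) *
        ev (Dop (pre ++ (c - 1) :: cs) P)) = 0 := by
      have h9 : N + pre.length + (c :: cs).length = N + (pre ++ (c - 1) :: cs).length := by
        simp only [List.length_append, List.length_cons]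
        omega
      rw [h9]
      exact h3
    rw [h1, map_add, map_smul, mul_add, mul_smul_comm, map_add, map_smul, h4, h8, smul_zero,
      add_zero]

end W5a2b73
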