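import Pool.Agent.W_5a2b73_h94.Step

/-!
The two main algebraic theorems.

`thmA`: strong induction on `k + m`.
* `m = 0`: `V_SV_zero`; for `k = 0`, `P = C a` and `TC` with `τ = []` gives `a (N+1)! = 0`.
* `m + 1` with `m + 1 > k`: `SV_of_V` gives `SV m P` (`SV k P` and `k ≤ m`); induction.
* `m + 1 ≤ k`: put `P' = pderiv m P ∈ V (k-(m+1))` (`pderiv_mem_V`), `SV (m+1) P'` (`pderiv_cd`,
  `pderiv_eq_cd`), `ω' = ω + 2m + 3`, `N' = N + 1`.  `TC (k-(m+1)) (N+1) (ω'/2) P'` is `step` for
  every `τ` (if `τ ≠ []` then `τ.sum + 2 ≤ ... ≤ k - m`; if `ω` is odd the numbers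
  `ω/2 - τ.sum - i - j` are not integers; if `ω` is even,
  `ω/2 - τ.sum ≥ k + m - 1 - τ.sum > 2m - 1`).  By induction `P' = 0`, so `SV m P`; induction again.

`thmB`: show `SV m P` for `m = k, k-1, ..., 0` by descending induction: `TC` for `pderiv m P` holds by
`step` (if `w - τ.sum > 2m-1`) or by `hbad`; then `thmA` with `(k-(m+1), m+1, 2w+2m+3)` (odd).
-/

open MvPolynomial Finset

namespace W5a2b73

def Cond (k m : ℕ) (ω : ℤ) : Prop :=
  (Odd ω ∧ 2 * (k : ℤ) - 2 ≤ ω) ∨ (Even ω ∧ 2 * ((k : ℤ) + (min m k : ℕ)) - 4 ≤ ω)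

private theorem thmA_base (N : ℕ) (c a : ℚ) (h : Phi N [c] (C a) = 0) : a = 0 := by
  have h1 : Dop [c] (C a : MvPolynomial ℕ ℚ) = C a := by
    simp [Dop, nab, cd]
  rw [Phi, h1] at h
  have h2 : ev (C a : MvPolynomial ℕ ℚ) = Polynomial.C a := by
    simp [ev]
  rw [h2, mul_comm, Polynomial.C_mul_X_pow_eq_monomial, lap, Polynomial.lsum_apply,
    Polynomial.sum_monomial_index _ _ (by simp)] at h
  simp only [LinearMap.smul_apply, LinearMap.id_apply, smul_eq_mul] at h
  rcases mul_eq_zero.mp h with h | h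
  · exact absurd h (by exact_mod_cast Nat.factorial_ne_zero _)
  · exact h

private theorem Cond_mono {k m : ℕ} {ω : ℤ} (h : Cond k (m + 1) ω) : Cond k m ω := by
  rcases h with ⟨h1, h2⟩ | ⟨h1, h2⟩
  · exact Or.inl ⟨h1, h2⟩
  · refine Or.inr ⟨h1, ?_⟩
    omega

private theorem Cond_step {k m : ℕ} {ω : ℤ} (hmk : m + 1 ≤ k) (h : Cond k (m + 1) ω) :
    Cond (k - (m + 1)) (m + 1) (ω + 2 * m + 3) := by
  rcases h with ⟨h1, h2⟩ | ⟨h1, h2⟩
  · refine Or.inr ⟨?_, ?_⟩
    · obtain ⟨r, hr⟩ := h1
      exact ⟨r + m + 2, by omega⟩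
    · omega
  · refine Or.inl ⟨?_, ?_⟩
    · obtain ⟨r, hr⟩ := h1
      exact ⟨r + m + 1, by omega⟩
    · omega

private theorem sum_le_aux (τ : List ℕ) : τ.sum ≤ (τ.map (fun x => x + 1)).sum := by
  induction τ with
  | nil => simp
  | cons a t ih => simp only [List.map_cons, List.sum_cons]; omega

private theorem thmA_aux (s : ℕ) : ∀ (k m N : ℕ) (ω : ℤ), k + m ≤ s → Cond k m ω →
    (N : ℤ) = ω + 2 * k + 1 → ∀ P : MvPolynomial ℕ ℚ, P ∈ V k → SV m P →
    TC k N ((ω : ℚ) / 2) P → P = 0 := by
  induction s with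
  | zero =>
    intro k m N ω hs hC hN P hV hS hT
    obtain rfl : k = 0 := by omega
    obtain rfl : m = 0 := by omega
    obtain ⟨a, rfl⟩ := (V_SV_zero hV hS).2
    have h := hT [] (by simp) (by simp)
    have := thmA_base N _ a h
    simp [this]
  | succ s ih =>
    intro k m N ω hs hC hN P hV hS hT
    rcases m with _ | m
    · obtain ⟨h0, a, rfl⟩ := V_SV_zero hV hS
      by_cases hk : k = 0
      · subst hk
        have h := hT [] (by simp) (by simp)
        have := thmA_base N _ a h
        simp [this]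
      · exact h0 hk
    · by_cases hmk : m + 1 ≤ k
      · have hP' : pderiv m P = 0 := by
          refine ih (k - (m + 1)) (m + 1) (N + 1) (ω + 2 * m + 3) (by omega) (Cond_step hmk hC)
            (by omega) (pderiv m P) (pderiv_mem_V hV hmk) ?_ ?_
          · intro i hi
            rw [pderiv_eq_cd m P, pderiv_cd, hS i hi, map_zero]
          · intro τ hτ hτk
            have hsum := sum_le_aux τ
            have hωb : 2 * (m : ℤ) ≤ ω - 2 * (τ.sum : ℤ) := by
              rcases hC with ⟨h1, h2⟩ | ⟨h1, h2⟩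
              · omega
              · omega
            have hstep := step (k := k) (m := m) (N := N) (W := (ω : ℚ) / 2) (P := P)
              (by
                have h : ((N : ℤ) : ℚ) = ((ω + 2 * k + 1 : ℤ) : ℚ) := by rw [hN]
                push_cast at h
                rw [h]; ring) hV hS hT τ hτ (by omega)
              (by
                generalize τ.sum = t at *
                have h : ((2 * (m : ℤ) : ℤ) : ℚ) ≤ ((ω - 2 * (t : ℤ) : ℤ) : ℚ) := by
                  exact_mod_cast hωb
                push_cast at h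
                linarith)
              (by
                intro i j hi hij hj heq
                generalize τ.sum = t at *
                have h : ω - 2 * (t : ℤ) = 2 * (i + j) := by
                  have h' : (ω : ℚ) - 2 * (t : ℚ) = 2 * ((i : ℚ) + j) := by linarith
                  have h2 : ((ω - 2 * (t : ℤ) : ℤ) : ℚ) = ((2 * (i + j) : ℤ) : ℚ) := by
                    push_cast
                    exact h'
                  exact Int.cast_injective h2
                rcases hC with ⟨h1, h2⟩ | ⟨h1, h2⟩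
                · obtain ⟨r, hr⟩ := h1
                  omega
                · omega)
            have hcast : (((ω + 2 * m + 3 : ℤ) : ℚ) / 2 - (τ.sum : ℚ)) =
                ((ω : ℚ) / 2 - (τ.sum : ℚ) + bt m) := by
              rw [bt]; push_cast; ring
            rw [hcast]
            exact hstep
        refine ih k m N ω (by omega) (Cond_mono hC) hN P hV ?_ hT
        intro i hi
        rcases Nat.eq_or_lt_of_le hi with h | h
        · rw [← h]; exact hP'
        · exact hS i h
      · refine ih k m N ω (by omega) (Cond_mono hC) hN P hV ?_ hT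
        intro i hi
        exact SV_of_V hV i (by omega)

theorem thmA (k m N : ℕ) (ω : ℤ) (hC : Cond k m ω) (hN : (N : ℤ) = ω + 2 * k + 1)
    (P : MvPolynomial ℕ ℚ) (hV : P ∈ V k) (hS : SV m P) (hT : TC k N ((ω : ℚ) / 2) P) :
    P = 0 :=
  thmA_aux (k + m) k m N ω le_rfl hC hN P hV hS hT

end W5a2b73
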